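import Mathlib

/-!
Three-linear decision procedures for the three-sum problem.
-/

namespace Pool.Agent.ThreeSum.Cmp

/-- Three pairwise distinct positions `i`, `j`, `k` with `x i + x j = x k`. -/
def HasThreeSum {n : ℕ} (x : Fin n → ℤ) : Prop :=
  ∃ i j k, i ≠ j ∧ i ≠ k ∧ j ≠ k ∧ x i + x j = x k

/-- A (deterministic, adaptive) algorithm which gets information on its input `x` only by asking
for the sign of `a * x i + b * x j + c * x k`. -/
inductive CmpAlg (n : ℕ)
  | answer (r : Bool)
  | ask (i j k : Fin n) (a b c : ℤ) (next : SignType → CmpAlg n)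

/-- All coefficients used by the algorithm are integers of absolute value at most `B`. -/
inductive Bounded {n : ℕ} (B : ℕ) : CmpAlg n → Prop
  | answer (r : Bool) : Bounded B (CmpAlg.answer r)
  | ask (i j k : Fin n) (a b c : ℤ) (next : SignType → CmpAlg n) :
      |a| ≤ B → |b| ≤ B → |c| ≤ B → (∀ s, Bounded B (next s)) →
      Bounded B (CmpAlg.ask i j k a b c next)

/-- `Runs x A r t`: on the input `x` the algorithm `A` gives the answer `r` after `t` questions. -/
inductive Runs {n : ℕ} (x : Fin n → ℤ) : CmpAlg n → Bool → ℕ → Prop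
  | answer (r : Bool) : Runs x (CmpAlg.answer r) r 0
  | ask (i j k : Fin n) (a b c : ℤ) (next : SignType → CmpAlg n) (r : Bool) (t : ℕ) :
      Runs x (next (SignType.sign (a * x i + b * x j + c * x k))) r t →
      Runs x (CmpAlg.ask i j k a b c next) r (t + 1)

/-- On the input `x` the algorithm gives the correct answer after at most `T` questions. -/
def SolvesWithin {n : ℕ} (A : CmpAlg n) (x : Fin n → ℤ) (T : ℕ) : Prop :=
  ∃ r t, t ≤ T ∧ Runs x A r t ∧ (r = true ↔ HasThreeSum x)

open Classical in
/-- A randomised algorithm, given by a probability distribution `μ` on a finite family `A` of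
algorithms with coefficients bounded by `B`, which on every input of `n` distinct integers from
`[-n^3, n^3]` gives the correct answer after at most `T` questions with probability at
least `2/3`. -/
def RandomisedSolver {Ω : Type} [Fintype Ω] (n B T : ℕ) (μ : Ω → ℝ) (A : Ω → CmpAlg n) : Prop :=
  (∀ ω, 0 ≤ μ ω) ∧ ∑ ω, μ ω = 1 ∧ (∀ ω, Bounded B (A ω)) ∧
    ∀ x : Fin n → ℤ, Function.Injective x → (∀ i, |x i| ≤ (n : ℤ) ^ 3) →
      2 / 3 ≤ ∑ ω, if SolvesWithin (A ω) x T then μ ω else 0

/-- A randomised algorithm, given by a probability distribution `μ` on a finite family `A` of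
algorithms with coefficients bounded by `B`, each of which gives the correct answer on every input
of `n` distinct integers from `[-n^3, n^3]`; on every such input the expected number of questions
is at most `E`. -/
def ZeroErrorSolver {Ω : Type} [Fintype Ω] (n B : ℕ) (E : ℝ) (μ : Ω → ℝ) (A : Ω → CmpAlg n) :
    Prop :=
  (∀ ω, 0 ≤ μ ω) ∧ ∑ ω, μ ω = 1 ∧ (∀ ω, Bounded B (A ω)) ∧
    ∀ x : Fin n → ℤ, Function.Injective x → (∀ i, |x i| ≤ (n : ℤ) ^ 3) →
      ∃ c : Ω → ℕ, (∀ ω, ∃ r, Runs x (A ω) r (c ω) ∧ (r = true ↔ HasThreeSum x)) ∧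
        ∑ ω, μ ω * c ω ≤ E

end Pool.Agent.ThreeSum.Cmp
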