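import Pool.Agent.ThreeSum.CmpPattern

/-!
The lower bound for three-linear decision procedures.
-/

namespace Pool.Agent.ThreeSum.Cmp

theorem runs_unique {n : ℕ} {x : Fin n → ℤ} {A : CmpAlg n} {r : Bool} {t : ℕ}
    (h : Runs x A r t) : ∀ {r' : Bool} {t' : ℕ}, Runs x A r' t' → r = r' ∧ t = t' := by
  induction h with
  | answer r => intro r' t' h'; cases h'; exact ⟨rfl, rfl⟩
  | ask i j k a b c next r t _ ih =>
    intro r' t' h'
    cases h' with
    | ask _ _ _ _ _ _ _ _ t'' h'' =>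
      obtain ⟨h1, h2⟩ := ih h''
      exact ⟨h1, by rw [h2]⟩

/-- The perturbed inputs which the algorithm distinguishes from the base input are few. -/
theorem few_pairs {n B m : ℕ} {x0 : Fin n → ℤ} {x : ℤ → ℤ → Fin n → ℤ}
    (hsign : ∀ (k1 k2 k3 : Fin n) (a b c : ℤ), |a| ≤ B → |b| ≤ B → |c| ≤ B →
      ∃ p : ℤ × ℤ, ∀ i j : ℤ, 0 ≤ i → i < m → 0 ≤ j → j < m → (i, j) ≠ p →
        SignType.sign (a * x i j k1 + b * x i j k2 + c * x i j k3) =
        SignType.sign (a * x0 k1 + b * x0 k2 + c * x0 k3))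
    {A : CmpAlg n} {r : Bool} {t : ℕ} (h : Runs x0 A r t) : Bounded B A →
    ∃ P : Finset (ℤ × ℤ), P.card ≤ t ∧ ∀ i j : ℤ, 0 ≤ i → i < m → 0 ≤ j → j < m →
      (i, j) ∉ P → Runs (x i j) A r t := by
  classical
  induction h with
  | answer r => intro _; exact ⟨∅, by simp, fun i j _ _ _ _ _ => Runs.answer r⟩
  | ask k1 k2 k3 a b c next r t _ ih =>
    intro hA
    cases hA with
    | ask _ _ _ _ _ _ _ h1 h2 h3 h4 =>
      obtain ⟨P, hP1, hP2⟩ := ih (h4 _)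
      obtain ⟨p, hp⟩ := hsign k1 k2 k3 a b c h1 h2 h3
      refine ⟨insert p P, (Finset.card_insert_le _ _).trans (by omega), ?_⟩
      intro i j hi0 hi hj0 hj hij
      rw [Finset.mem_insert, not_or] at hij
      refine Runs.ask _ _ _ _ _ _ _ _ _ ?_
      rw [hp i j hi0 hi hj0 hj hij.1]
      exact hP2 i j hi0 hi hj0 hj hij.2

theorem val_injective {B n : ℤ} {m r : ℕ} (hB : 1 ≤ B) (hm : 1 ≤ m)
    {g : Ty → ℤ → ℤ} (hg : ∀ v : El m r, |sm g v| ≤ 4 * (m : ℤ) ^ 2) :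
    Function.Injective (val B n g : El m r → ℤ) := by
  intro v1 v2 h
  have hm' : (1 : ℤ) ≤ m := by exact_mod_cast hm
  have hB0 : 0 ≤ B := by linarith
  have hq : 1 ≤ qq B := by unfold qq; linarith
  have b1 : |(1 : ℤ)| ≤ B := by simpa using hB
  have b3 : |(-1 : ℤ)| ≤ B := by simpa using hB
  have b0 : |(0 : ℤ)| ≤ B := by simp; linarith
  have hW := small_lt hB hm
  have s0 := abs_comb3 hB0 b1 b3 b0 (hg v1) (hg v2) (hg v1)
  have h' : 1 * val B n g v1 + (-1) * val B n g v2 + 0 * val B n g v1 = 0 := by linarith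
  rw [comb_val] at h'
  have hp : ∀ e : Fin m ⊕ Fin m ⊕ Fin (2 * m), 0 ≤ pos e ∧ pos e ≤ 2 * (m : ℤ) :=
    fun e => ⟨pos_nonneg e, (pos_lt e).le⟩
  have hL : 1 * lead B n v1 + (-1) * lead B n v2 + 0 * lead B n v1 = 0 := by
    by_contra hL
    have := sign_big (W := WW B m) hL
      (show |1 * sm g v1 + (-1) * sm g v2 + 0 * sm g v1| < WW B m by linarith)
    rw [h', sign_zero] at this
    exact hL (sign_eq_zero_iff.1 this.symm)
  rcases v1 with e1 | w1 <;> rcases v2 with e2 | w2 <;> simp only [lead] at hL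
  · obtain ⟨f1, f2, f3⟩ := classify_real hB hm' b1 b3 b0 (hp e1) (hp e2) (hp e1) hL
    rcases e1 with e1 | e1 | e1 <;> rcases e2 with e2 | e2 | e2 <;>
      simp only [ty, pa, pb, pos] at f1 f2 f3 <;> first | (exfalso; linarith) | skip
    all_goals
      have : e1 = e2 := by
        apply Fin.ext
        have : ((e1 : ℕ) : ℤ) = (e2 : ℕ) := by linarith
        exact_mod_cast this
      rw [this]
  · have := one_real (a := 1) (m := m) (t := ty e1) (y := pos e1) hB b1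
      (z := -(DD B m n + (w2 : ℕ))) (by linarith)
    linarith
  · have := one_real (a := -1) (m := m) (t := ty e2) (y := pos e2) hB b3
      (z := (DD B m n + (w1 : ℕ))) (by linarith)
    linarith
  · have e1 : qq B * (((w1 : ℕ) : ℤ) - (w2 : ℕ)) = 0 := by linarith
    have e2 : ((w1 : ℕ) : ℤ) - (w2 : ℕ) = 0 := by
      rcases mul_eq_zero.1 e1 with h | h
      · linarith
      · exact h
    have e3 : ((w1 : ℕ) : ℤ) = (w2 : ℕ) := by linarith
    have : w1 = w2 := Fin.ext (by exact_mod_cast e3)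
    rw [this]

theorem Xm_le {b M : ℤ} (hb : 1 ≤ b) (hM : 1 ≤ M) : Xm b M ≤ 233 * (b ^ 3 * M) := by
  have hq : 1 ≤ qq b := by unfold qq; linarith
  have hqb : qq b ≤ 7 * b := by unfold qq; linarith
  have hb2 : b ≤ b ^ 2 := by nlinarith
  have hb1 : 1 ≤ b ^ 2 := by linarith
  have e1 : Xm b M = qq b * (18 * b ^ 2 * M + 12 * (b * M) + 2 * M + 1) + 2 := by
    unfold Xm Oa Ob Ka Kb; ring
  have k1 : b * M ≤ b ^ 2 * M := mul_le_mul_of_nonneg_right hb2 (by linarith)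
  have k2 : 1 * M ≤ b ^ 2 * M := mul_le_mul_of_nonneg_right hb1 (by linarith)
  have k3 : 1 ≤ b ^ 2 * M := by linarith
  have e2 : 18 * b ^ 2 * M + 12 * (b * M) + 2 * M + 1 ≤ 33 * (b ^ 2 * M) := by linarith
  have e3 : qq b * (18 * b ^ 2 * M + 12 * (b * M) + 2 * M + 1) ≤
      (7 * b) * (33 * (b ^ 2 * M)) := mul_le_mul hqb e2 (by positivity) (by positivity)
  have e4 : 1 * (b ^ 2 * M) ≤ b * (b ^ 2 * M) := mul_le_mul_of_nonneg_right hb (by linarith)
  rw [e1]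
  linarith [show (7 * b) * (33 * (b ^ 2 * M)) = 231 * (b ^ 3 * M) by ring,
    show b * (b ^ 2 * M) = b ^ 3 * M by ring]

theorem numeric {b M N : ℤ} (hb : 1 ≤ b) (hM : 1 ≤ M) (h : 40 * (b ^ 2 * M) ≤ N)
    (hDN : 0 ≤ DD b M N + N) :
    WW b M * (qq b * (DD b M N + N)) + 4 * M ^ 2 ≤ N ^ 3 := by
  have hq : 1 ≤ qq b := by unfold qq; linarith
  have hqb : qq b ≤ 7 * b := by unfold qq; linarith
  have hb2 : b ≤ b ^ 2 := by nlinarith
  have hb1 : 1 ≤ b ^ 2 := by linarith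
  have hXle := Xm_le hb hM
  have hDle : DD b M N + N ≤ 466 * (b ^ 4 * M) + 2 * N + 1 := by
    have e1 : 2 * b * Xm b M ≤ 2 * b * (233 * (b ^ 3 * M)) :=
      mul_le_mul_of_nonneg_left hXle (by positivity)
    unfold DD
    have e2 : 2 * b * (233 * (b ^ 3 * M)) = 466 * (b ^ 4 * M) := by ring
    linarith
  obtain ⟨u, hu⟩ : ∃ u : ℤ, u = b ^ 2 * M := ⟨_, rfl⟩
  have k2 : 1 * M ≤ b ^ 2 * M := mul_le_mul_of_nonneg_right hb1 (by linarith)
  have hu1 : M ≤ u := by rw [hu]; linarith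
  have e5 : WW b M * (qq b * (DD b M N + N)) ≤
      (13 * b * M ^ 2) * ((7 * b) * (466 * (b ^ 4 * M) + 2 * N + 1)) := by
    unfold WW
    refine mul_le_mul_of_nonneg_left ?_ (by positivity)
    exact mul_le_mul hqb hDle hDN (by positivity)
  have e6 : (13 * b * M ^ 2) * ((7 * b) * (466 * (b ^ 4 * M) + 2 * N + 1)) =
      42406 * u ^ 3 + (182 * N + 91) * (b ^ 2 * M ^ 2) := by rw [hu]; ring
  have hu40 : 40 * u ≤ N := by rw [hu]; exact h
  have e7 : b ^ 2 * M ^ 2 ≤ u ^ 2 := by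
    have : b ^ 2 * 1 ≤ b ^ 2 * b ^ 2 := mul_le_mul_of_nonneg_left hb1 (by positivity)
    have k : b ^ 2 * M ^ 2 ≤ (b ^ 2 * b ^ 2) * M ^ 2 :=
      mul_le_mul_of_nonneg_right (by linarith) (by positivity)
    rw [hu]; linarith [k, show (b ^ 2 * b ^ 2) * M ^ 2 = (b ^ 2 * M) ^ 2 by ring]
  clear hu h hDle hXle hDN
  have hu0 : 0 ≤ u := by linarith
  have e8 : M ^ 2 ≤ u ^ 2 := pow_le_pow_left₀ (by linarith) hu1 2
  have hN1 : 1 ≤ N := by linarith
  have e9 : (182 * N + 91) * (b ^ 2 * M ^ 2) ≤ (273 * N) * u ^ 2 :=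
    mul_le_mul (by linarith) e7 (by positivity) (by linarith)
  have e10 : 4 * M ^ 2 ≤ 4 * N * u ^ 2 := by
    have k : 1 * u ^ 2 ≤ N * u ^ 2 := mul_le_mul_of_nonneg_right hN1 (sq_nonneg u)
    linarith
  have f1 : u ^ 3 * 64000 ≤ N ^ 3 := by
    have := pow_le_pow_left₀ (by linarith : (0 : ℤ) ≤ 40 * u) hu40 3
    linarith [show (40 * u) ^ 3 = u ^ 3 * 64000 by ring]
  have f2 : N * u ^ 2 * 1600 ≤ N ^ 3 := by
    have := pow_le_pow_left₀ (by linarith : (0 : ℤ) ≤ 40 * u) hu40 2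
    have k : N * (40 * u) ^ 2 ≤ N * N ^ 2 := mul_le_mul_of_nonneg_left this (by linarith)
    linarith [show N * (40 * u) ^ 2 = N * u ^ 2 * 1600 by ring, show N * N ^ 2 = N ^ 3 by ring]
  have f3 : 0 ≤ N ^ 3 := pow_nonneg (by linarith) 3
  linarith

/-- All values are at most `n ^ 3`. -/
theorem val_bound {B n m r : ℕ} (hB : 1 ≤ B) (hm : 1 ≤ m) (hr : r ≤ n)
    (hBm : 40 * (B ^ 2 * m) ≤ n)
    {g : Ty → ℤ → ℤ} (hg : ∀ v : El m r, |sm g v| ≤ 4 * (m : ℤ) ^ 2) (v : El m r) :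
    |val (B : ℤ) (n : ℤ) g v| ≤ (n : ℤ) ^ 3 := by
  have hB' : (1 : ℤ) ≤ B := by exact_mod_cast hB
  have hm' : (1 : ℤ) ≤ m := by exact_mod_cast hm
  have hr' : (r : ℤ) ≤ n := by exact_mod_cast hr
  have hBm' : 40 * ((B : ℤ) ^ 2 * m) ≤ n := by exact_mod_cast hBm
  have hn' : (0 : ℤ) ≤ n := by positivity
  have hp : ∀ e : Fin m ⊕ Fin m ⊕ Fin (2 * m), 0 ≤ pos e ∧ pos e ≤ 2 * (m : ℤ) :=
    fun e => ⟨pos_nonneg e, (pos_lt e).le⟩
  have hX0 : 0 < Xm (B : ℤ) m := lt_of_lt_of_le (leadR_bounds hB' hm' .A le_rfl (by linarith)).1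
      (leadR_bounds hB' hm' .A le_rfl (by linarith)).2
  have hD0 : Xm (B : ℤ) m ≤ DD (B : ℤ) m n := by
    unfold DD
    have : 1 * Xm (B : ℤ) m ≤ (B : ℤ) * Xm (B : ℤ) m := mul_le_mul_of_nonneg_right hB' hX0.le
    linarith
  have hq : 1 ≤ qq (B : ℤ) := by unfold qq; linarith
  have hlead : 0 ≤ lead (B : ℤ) (n : ℤ) v ∧
      lead (B : ℤ) (n : ℤ) v ≤ qq (B : ℤ) * (DD (B : ℤ) m n + n) := by
    rcases v with e | w
    · simp only [lead]
      have l := leadR_bounds hB' hm' (ty e) (hp e).1 (hp e).2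
      refine ⟨l.1.le, l.2.trans ?_⟩
      have : 1 * (DD (B : ℤ) m n + n) ≤ qq (B : ℤ) * (DD (B : ℤ) m n + n) :=
        mul_le_mul_of_nonneg_right hq (by linarith)
      linarith
    · simp only [lead]
      have hw0 : (0 : ℤ) ≤ (w : ℕ) := by positivity
      have hw : ((w : ℕ) : ℤ) ≤ n := by
        have : ((w : ℕ) : ℤ) < r := by exact_mod_cast w.2
        linarith
      constructor
      · have : 0 ≤ DD (B : ℤ) m n + (w : ℕ) := by linarith
        exact mul_nonneg (by linarith) this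
      · refine mul_le_mul_of_nonneg_left ?_ (by linarith)
        linarith
  have hW0 : 0 < WW (B : ℤ) m := by unfold WW; positivity
  have h1 : |val (B : ℤ) (n : ℤ) g v| ≤
      WW (B : ℤ) m * (qq (B : ℤ) * (DD (B : ℤ) m n + n)) + 4 * (m : ℤ) ^ 2 := by
    unfold val
    refine (abs_add_le _ _).trans (add_le_add ?_ (hg v))
    rw [abs_mul, abs_of_pos hW0, abs_of_nonneg hlead.1]
    exact mul_le_mul_of_nonneg_left hlead.2 hW0.le
  exact h1.trans (numeric hB' hm' hBm' (by linarith))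

end Pool.Agent.ThreeSum.Cmp
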