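import Pool.Agent.ThreeSum.CmpSign

/-!
The adversary inputs and their sign patterns.
-/

namespace Pool.Agent.ThreeSum.Cmp

/-- Index of an element: three essential arrays and one array of dummies. -/
abbrev El (m r : ℕ) := (Fin m ⊕ Fin m ⊕ Fin (2 * m)) ⊕ Fin r

/-- The kind of an essential element. -/
def ty {m : ℕ} : Fin m ⊕ Fin m ⊕ Fin (2 * m) → Ty
  | .inl _ => .A
  | .inr (.inl _) => .B
  | .inr (.inr _) => .C

/-- The position in its array of an essential element. -/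
def pos {m : ℕ} : Fin m ⊕ Fin m ⊕ Fin (2 * m) → ℤ
  | .inl s => (s : ℕ)
  | .inr (.inl s) => (s : ℕ)
  | .inr (.inr s) => (s : ℕ)

theorem pos_nonneg {m : ℕ} (e : Fin m ⊕ Fin m ⊕ Fin (2 * m)) : 0 ≤ pos e := by
  rcases e with s | s | s <;> simp [pos]

theorem pos_lt {m : ℕ} (e : Fin m ⊕ Fin m ⊕ Fin (2 * m)) : pos e < 2 * m := by
  rcases e with s | s | s <;> simp only [pos] <;> omega

/-- The modulus. -/
def qq (B : ℤ) : ℤ := 6 * B + 1
def Ka (B m : ℤ) : ℤ := 6 * B * m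
def Kb (B m : ℤ) : ℤ := 18 * B ^ 2 * m + 6 * B * m + 1
def Oa (B m : ℤ) : ℤ := qq B * Ka B m + 1
def Ob (B m : ℤ) : ℤ := qq B * Kb B m + 1
def Xm (B m : ℤ) : ℤ := Oa B m + Ob B m + qq B * (2 * m)
def DD (B m n : ℤ) : ℤ := 2 * B * Xm B m + n + 1
def WW (B m : ℤ) : ℤ := 13 * B * m ^ 2

/-- The leading part of an essential element. -/
def leadR (B m : ℤ) (t : Ty) (y : ℤ) : ℤ := pa t * Oa B m + pb t * Ob B m + qq B * y

/-- The leading part of an element. -/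
def lead (B : ℤ) (n : ℤ) {m r : ℕ} : El m r → ℤ
  | .inl e => leadR B m (ty e) (pos e)
  | .inr v => qq B * (DD B m n + (v : ℕ))

/-- The small part of an element. -/
def sm {m r : ℕ} (g : Ty → ℤ → ℤ) : El m r → ℤ
  | .inl e => g (ty e) (pos e)
  | .inr _ => 0

/-- The value of an element. -/
def val (B n : ℤ) {m r : ℕ} (g : Ty → ℤ → ℤ) (v : El m r) : ℤ :=
  WW B m * lead B n v + sm g v

theorem abs_comb3 {a1 a2 a3 z1 z2 z3 A Z : ℤ} (hA : 0 ≤ A) (h1 : |a1| ≤ A) (h2 : |a2| ≤ A)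
    (h3 : |a3| ≤ A) (k1 : |z1| ≤ Z) (k2 : |z2| ≤ Z) (k3 : |z3| ≤ Z) :
    |a1 * z1 + a2 * z2 + a3 * z3| ≤ 3 * (A * Z) := by
  have e1 : |a1 * z1| ≤ A * Z := by rw [abs_mul]; exact mul_le_mul h1 k1 (abs_nonneg _) hA
  have e2 : |a2 * z2| ≤ A * Z := by rw [abs_mul]; exact mul_le_mul h2 k2 (abs_nonneg _) hA
  have e3 : |a3 * z3| ≤ A * Z := by rw [abs_mul]; exact mul_le_mul h3 k3 (abs_nonneg _) hA
  have := abs_add_three (a1 * z1) (a2 * z2) (a3 * z3)
  linarith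

theorem abs_pa (t : Ty) : |pa t| ≤ 1 := by cases t <;> simp [pa]
theorem abs_pb (t : Ty) : |pb t| ≤ 1 := by cases t <;> simp [pb]

/-- A multiple of a large number is small only if it vanishes. -/
theorem eq_zero_of_abs {P O R : ℤ} (h : |O * P| ≤ R) (hO : R < O) : P = 0 := by
  by_contra hP
  have h1 : 1 ≤ |P| := Int.one_le_abs hP
  have hR : 0 ≤ R := (abs_nonneg _).trans h
  rw [abs_mul, abs_of_pos (by linarith : (0 : ℤ) < O)] at h
  nlinarith

/-- Digit extraction. -/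
theorem digits {B m : ℤ} (hB : 1 ≤ B) (hm : 1 ≤ m) {P1 P2 Q : ℤ} (h1 : |P1| ≤ 3 * B)
    (hQ : |Q| ≤ 6 * B * m) (h : Oa B m * P1 + Ob B m * P2 + qq B * Q = 0) :
    P1 = 0 ∧ P2 = 0 ∧ Q = 0 := by
  have hq : 0 < qq B := by unfold qq; linarith
  have hOa : 0 < Oa B m := by unfold Oa Ka; positivity
  have hP2 : P2 = 0 := by
    refine eq_zero_of_abs (O := Ob B m) (R := Oa B m * (3 * B) + qq B * (6 * B * m)) ?_ ?_
    · have e : Ob B m * P2 = -(Oa B m * P1) - qq B * Q := by linarith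
      rw [e]
      have e1 : |Oa B m * P1| ≤ Oa B m * (3 * B) := by
        rw [abs_mul, abs_of_pos hOa]; exact mul_le_mul_of_nonneg_left h1 hOa.le
      have e2 : |qq B * Q| ≤ qq B * (6 * B * m) := by
        rw [abs_mul, abs_of_pos hq]; exact mul_le_mul_of_nonneg_left hQ hq.le
      have e3 := abs_sub (-(Oa B m * P1)) (qq B * Q)
      rw [abs_neg] at e3
      linarith
    · unfold Ob Oa Kb Ka qq
      nlinarith
  subst hP2
  have hP1 : P1 = 0 := by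
    refine eq_zero_of_abs (O := Oa B m) (R := qq B * (6 * B * m)) ?_ ?_
    · have e : Oa B m * P1 = -(qq B * Q) := by linarith
      rw [e, abs_neg, abs_mul, abs_of_pos hq]
      exact mul_le_mul_of_nonneg_left hQ hq.le
    · unfold Oa Ka; linarith
  subst hP1
  refine ⟨rfl, rfl, ?_⟩
  have : qq B * Q = 0 := by linarith
  rcases mul_eq_zero.1 this with h | h
  · linarith
  · exact h

theorem leadR_bounds {B m : ℤ} (hB : 1 ≤ B) (hm : 1 ≤ m) (t : Ty) {y : ℤ} (hy0 : 0 ≤ y)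
    (hy : y ≤ 2 * m) : 0 < leadR B m t y ∧ leadR B m t y ≤ Xm B m := by
  have hq : 0 < qq B := by unfold qq; linarith
  have hOa : 0 < Oa B m := by unfold Oa Ka; positivity
  have hOb : 0 < Ob B m := by unfold Ob Kb; positivity
  have e1 : 0 ≤ qq B * y := by positivity
  have e2 : qq B * y ≤ qq B * (2 * m) := mul_le_mul_of_nonneg_left hy hq.le
  cases t <;> simp only [leadR, pa, pb, Xm] <;> constructor <;> linarith

/-- Divisibility by the modulus forces the number of offsets to vanish. -/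
theorem offsets_zero {B m : ℤ} (hB : 1 ≤ B) {P1 P2 Q : ℤ}
    (hP : |P1 + P2| ≤ 6 * B) (h : Oa B m * P1 + Ob B m * P2 + qq B * Q = 0) : P1 + P2 = 0 := by
  have hq : 0 < qq B := by unfold qq; linarith
  have e : qq B * (Ka B m * P1 + Kb B m * P2 + Q) = -(P1 + P2) := by
    unfold Oa Ob at h; linarith
  have e2 : Ka B m * P1 + Kb B m * P2 + Q = 0 := by
    refine eq_zero_of_abs (O := qq B) (R := 6 * B) ?_ (by unfold qq; linarith)
    rw [e, abs_neg]; exact hP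
  rw [e2, mul_zero] at e
  linarith

/-- Classification of degenerate combinations for essential elements. -/
theorem classify_real {B m : ℤ} (hB : 1 ≤ B) (hm : 1 ≤ m) {a1 a2 a3 : ℤ} (h1 : |a1| ≤ B)
    (h2 : |a2| ≤ B) (h3 : |a3| ≤ B) {t1 t2 t3 : Ty} {y1 y2 y3 : ℤ} (k1 : 0 ≤ y1 ∧ y1 ≤ 2 * m)
    (k2 : 0 ≤ y2 ∧ y2 ≤ 2 * m) (k3 : 0 ≤ y3 ∧ y3 ≤ 2 * m)
    (h : a1 * leadR B m t1 y1 + a2 * leadR B m t2 y2 + a3 * leadR B m t3 y3 = 0) :
    a1 * pa t1 + a2 * pa t2 + a3 * pa t3 = 0 ∧ a1 * pb t1 + a2 * pb t2 + a3 * pb t3 = 0 ∧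
      a1 * y1 + a2 * y2 + a3 * y3 = 0 := by
  have hB0 : 0 ≤ B := by linarith
  have e1 := abs_comb3 hB0 h1 h2 h3 (abs_pa t1) (abs_pa t2) (abs_pa t3)
  have e2 := abs_comb3 hB0 h1 h2 h3 (Z := 2 * m) (z1 := y1) (z2 := y2) (z3 := y3)
    (by rw [abs_of_nonneg k1.1]; exact k1.2) (by rw [abs_of_nonneg k2.1]; exact k2.2)
    (by rw [abs_of_nonneg k3.1]; exact k3.2)
  refine digits hB hm (by linarith) (by linarith) ?_
  rw [← h]
  unfold leadR
  ring

theorem one_real {B m : ℤ} (hB : 1 ≤ B) {a z : ℤ} (ha : |a| ≤ B) {t : Ty} {y : ℤ}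
    (h : a * leadR B m t y + qq B * z = 0) : a = 0 := by
  have h1 : a * pa t + a * pb t = 0 := by
    refine offsets_zero (B := B) (m := m) (Q := a * y + z) hB ?_ ?_
    · have hB0 : 0 ≤ B := by linarith
      have : |a * pa t + a * pb t| ≤ 2 * B := by
        cases t <;> simp only [pa, pb, mul_one, mul_zero, add_zero, zero_add]
        · linarith
        · linarith
        · have := abs_add_le a a; linarith
      linarith
    · rw [← h]; unfold leadR; ring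
  cases t <;> simp only [pa, pb, mul_one, mul_zero, add_zero, zero_add] at h1 <;> linarith

theorem big_dummy {B m n : ℤ} (hB : 1 ≤ B) (hm : 1 ≤ m) (hn : 0 ≤ n) {a1 a2 c : ℤ} (h1 : |a1| ≤ B)
    (h2 : |a2| ≤ B) {t1 t2 : Ty} {y1 y2 v : ℤ} (k1 : 0 ≤ y1 ∧ y1 ≤ 2 * m)
    (k2 : 0 ≤ y2 ∧ y2 ≤ 2 * m) (hv : 0 ≤ v)
    (h : a1 * leadR B m t1 y1 + a2 * leadR B m t2 y2 + c * (qq B * (DD B m n + v)) = 0) :
    c = 0 := by
  have hB0 : 0 ≤ B := by linarith
  have hq : 1 ≤ qq B := by unfold qq; linarith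
  obtain ⟨l1, l2⟩ := leadR_bounds hB hm t1 k1.1 k1.2
  obtain ⟨l3, l4⟩ := leadR_bounds hB hm t2 k2.1 k2.2
  have hX : 0 < Xm B m := by linarith
  have e1 := abs_comb3 hB0 h1 h2 (show |(0 : ℤ)| ≤ B by simpa using hB0)
    (z1 := leadR B m t1 y1) (z2 := leadR B m t2 y2) (z3 := 0) (Z := Xm B m)
    (by rw [abs_of_pos l1]; exact l2) (by rw [abs_of_pos l3]; exact l4) (by simpa using hX.le)
  have e1' : |a1 * leadR B m t1 y1 + a2 * leadR B m t2 y2| ≤ 2 * B * Xm B m := by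
    have e2 : |a1 * leadR B m t1 y1| ≤ B * Xm B m := by
      rw [abs_mul, abs_of_pos l1]; exact mul_le_mul h1 l2 l1.le hB0
    have e3 : |a2 * leadR B m t2 y2| ≤ B * Xm B m := by
      rw [abs_mul, abs_of_pos l3]; exact mul_le_mul h2 l4 l3.le hB0
    have := abs_add_le (a1 * leadR B m t1 y1) (a2 * leadR B m t2 y2)
    linarith
  refine eq_zero_of_abs (O := qq B * (DD B m n + v)) (R := 2 * B * Xm B m) ?_ ?_
  · have e : qq B * (DD B m n + v) * c = -(a1 * leadR B m t1 y1 + a2 * leadR B m t2 y2) := by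
      linarith
    rw [e, abs_neg]; exact e1'
  · have e4 : 2 * B * Xm B m + 1 ≤ DD B m n + v := by unfold DD; linarith
    have e5 : 0 ≤ DD B m n + v := by nlinarith
    nlinarith

/-- Classification of degenerate combinations. -/
theorem classify_all {B n : ℤ} {m r : ℕ} (hB : 1 ≤ B) (hm : 1 ≤ m) (hn : 0 ≤ n) {a1 a2 a3 : ℤ}
    (h1 : |a1| ≤ B) (h2 : |a2| ≤ B) (h3 : |a3| ≤ B) (v1 v2 v3 : El m r)
    (h : a1 * lead B n v1 + a2 * lead B n v2 + a3 * lead B n v3 = 0) :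
    (∀ i j, a1 * sm (g1 i j) v1 + a2 * sm (g1 i j) v2 + a3 * sm (g1 i j) v3 =
      a1 * sm g0 v1 + a2 * sm g0 v2 + a3 * sm g0 v3) ∨
    ∃ s t a : ℤ, a ≠ 0 ∧ ∀ g : Ty → ℤ → ℤ,
      a1 * sm g v1 + a2 * sm g v2 + a3 * sm g v3 = a * (g .A s + g .B t - g .C (s + t)) := by
  have hm' : (1 : ℤ) ≤ m := by exact_mod_cast hm
  have hp : ∀ e : Fin m ⊕ Fin m ⊕ Fin (2 * m), 0 ≤ pos e ∧ pos e ≤ 2 * (m : ℤ) :=
    fun e => ⟨pos_nonneg e, (pos_lt e).le⟩
  have real3 : ∀ (b1 b2 b3 : ℤ) (e1 e2 e3 : Fin m ⊕ Fin m ⊕ Fin (2 * m)), |b1| ≤ B → |b2| ≤ B →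
      |b3| ≤ B → b1 * leadR B m (ty e1) (pos e1) + b2 * leadR B m (ty e2) (pos e2) +
        b3 * leadR B m (ty e3) (pos e3) = 0 →
      (∀ i j, b1 * g1 i j (ty e1) (pos e1) + b2 * g1 i j (ty e2) (pos e2) +
        b3 * g1 i j (ty e3) (pos e3) =
        b1 * g0 (ty e1) (pos e1) + b2 * g0 (ty e2) (pos e2) + b3 * g0 (ty e3) (pos e3)) ∨
      ∃ s t a : ℤ, a ≠ 0 ∧ ∀ g : Ty → ℤ → ℤ, b1 * g (ty e1) (pos e1) + b2 * g (ty e2) (pos e2) +
        b3 * g (ty e3) (pos e3) = a * (g .A s + g .B t - g .C (s + t)) := by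
    intro b1 b2 b3 e1 e2 e3 k1 k2 k3 hh
    obtain ⟨f1, f2, f3⟩ := classify_real hB hm' k1 k2 k3 (hp e1) (hp e2) (hp e3) hh
    exact classify _ _ _ _ _ _ _ _ _ f1 f2 f3
  have hB0 : |(0 : ℤ)| ≤ B := by simp; linarith
  have hv : ∀ v : Fin r, (0 : ℤ) ≤ (v : ℕ) := fun v => by positivity
  rcases v1 with e1 | w1 <;> rcases v2 with e2 | w2 <;> rcases v3 with e3 | w3 <;>
    simp only [lead, sm] at h ⊢
  · exact real3 a1 a2 a3 e1 e2 e3 h1 h2 h3 h
  · have hz := big_dummy hB hm' hn h1 h2 (hp e1) (hp e2) (hv w3) h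
    subst hz
    have := real3 a1 a2 0 e1 e2 e1 h1 h2 hB0 (by linarith)
    simpa using this
  · have hz := big_dummy (a1 := a1) (a2 := a3) (c := a2) (t1 := ty e1) (t2 := ty e3) hB hm' hn
      h1 h3 (hp e1) (hp e3) (hv w2) (by linarith)
    subst hz
    have := real3 a1 0 a3 e1 e1 e3 h1 hB0 h3 (by linarith)
    simpa using this
  · have hz := one_real (m := m) (t := ty e1) (y := pos e1) hB h1
      (z := a2 * (DD B m n + (w2 : ℕ)) + a3 * (DD B m n + (w3 : ℕ))) (by linarith)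
    subst hz
    left; intro i j; simp
  · have hz := big_dummy (a1 := a2) (a2 := a3) (c := a1) (t1 := ty e2) (t2 := ty e3) hB hm' hn
      h2 h3 (hp e2) (hp e3) (hv w1) (by linarith)
    subst hz
    have := real3 0 a2 a3 e2 e2 e3 hB0 h2 h3 (by linarith)
    simpa using this
  · have hz := one_real (m := m) (t := ty e2) (y := pos e2) hB h2
      (z := a1 * (DD B m n + (w1 : ℕ)) + a3 * (DD B m n + (w3 : ℕ))) (by linarith)
    subst hz
    left; intro i j; simp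
  · have hz := one_real (m := m) (t := ty e3) (y := pos e3) hB h3
      (z := a1 * (DD B m n + (w1 : ℕ)) + a2 * (DD B m n + (w2 : ℕ))) (by linarith)
    subst hz
    left; intro i j; simp
  · left; intro i j; simp

end Pool.Agent.ThreeSum.Cmp
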