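import Pool.Agent.ThreeSum.CmpFinal

/-!
The lower bound for three-linear decision procedures: averaging.
-/

namespace Pool.Agent.ThreeSum.Cmp

theorem cmp_lower_bound {Ω : Type} [Fintype Ω] {n B T : ℕ} {μ : Ω → ℝ} {A : Ω → CmpAlg n}
    (h : RandomisedSolver n B T μ A) (hB : 1 ≤ B) (hn : 40 * B ^ 2 ≤ n) :
    n ^ 2 ≤ 19200 * B ^ 4 * T := by
  classical
  obtain ⟨hμ, h1, hbd, hA⟩ := h
  have hpos : 0 < 40 * B ^ 2 := by positivity
  obtain ⟨m, hm⟩ : ∃ m, m = n / (40 * B ^ 2) := ⟨_, rfl⟩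
  have hm1 : 1 ≤ m := by rw [hm]; exact Nat.div_pos hn hpos
  have hBm : 40 * (B ^ 2 * m) ≤ n := by
    have := Nat.mul_div_le n (40 * B ^ 2)
    rw [← hm] at this
    linarith
  have hB2 : 1 ≤ B ^ 2 := Nat.one_le_pow _ _ hB
  have hB2m : m ≤ B ^ 2 * m := Nat.le_mul_of_pos_left m hB2
  obtain ⟨r, hr⟩ : ∃ r, 4 * m + r = n := ⟨n - 4 * m, by omega⟩
  have e : Fin n ≃ El m r := Fintype.equivOfCardEq (by
    simp only [El, Fintype.card_fin, Fintype.card_sum]; omega)
  have hrn : r ≤ n := by omega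
  have hB' : (1 : ℤ) ≤ B := by exact_mod_cast hB
  have hn' : (0 : ℤ) ≤ n := by positivity
  have hmm : (0 : ℤ) ≤ m := by positivity
  obtain ⟨x0, hx0⟩ : ∃ x0 : Fin n → ℤ, x0 = fun k => val B n g0 (e k) := ⟨_, rfl⟩
  obtain ⟨x, hx⟩ : ∃ x : ℤ → ℤ → Fin n → ℤ, x = fun i j k => val B n (g1 i j) (e k) := ⟨_, rfl⟩
  -- properties of the inputs
  have hx0inj : Function.Injective x0 := by
    rw [hx0]
    exact (val_injective hB' hm1 (fun v => sm_g0_bound hm1 v)).comp e.injective
  have hx0b : ∀ k, |x0 k| ≤ (n : ℤ) ^ 3 := by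
    intro k; rw [hx0]
    exact val_bound hB hm1 hrn hBm (fun v => sm_g0_bound hm1 v) _
  have hx0no : ¬ HasThreeSum x0 := by
    rintro ⟨i, j, k, _, _, _, hs⟩
    rw [hx0] at hs
    exact base_no_sum hB' hm1 (by exact_mod_cast hrn) _ _ _ hs
  have hxinj : ∀ i j : ℤ, 0 ≤ i → i < m → 0 ≤ j → j < m → Function.Injective (x i j) := by
    intro i j hi0 hi hj0 hj
    rw [hx]
    exact (val_injective hB' hm1 (fun v => sm_g1_bound hi0 hi hj0 hj v)).comp e.injective
  have hxb : ∀ i j : ℤ, 0 ≤ i → i < m → 0 ≤ j → j < m → ∀ k, |x i j k| ≤ (n : ℤ) ^ 3 := by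
    intro i j hi0 hi hj0 hj k; rw [hx]
    exact val_bound hB hm1 hrn hBm (fun v => sm_g1_bound hi0 hi hj0 hj v) _
  have hxyes : ∀ i j : ℕ, i < m → j < m → HasThreeSum (x i j) := by
    intro i j hi hj
    have hij : i + j < 2 * m := by omega
    refine ⟨e.symm (.inl (.inl ⟨i, hi⟩)), e.symm (.inl (.inr (.inl ⟨j, hj⟩))),
      e.symm (.inl (.inr (.inr ⟨i + j, hij⟩))), ?_, ?_, ?_, ?_⟩
    · intro h; simpa using e.symm.injective h
    · intro h; simpa using e.symm.injective h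
    · intro h; simpa using e.symm.injective h
    · rw [hx]
      simp only [Equiv.apply_symm_apply, val, lead, leadR, sm, ty, pos, pa, pb, g1]
      push_cast
      ring
  have hsign : ∀ (k1 k2 k3 : Fin n) (a b c : ℤ), |a| ≤ B → |b| ≤ B → |c| ≤ B →
      ∃ p : ℤ × ℤ, ∀ i j : ℤ, 0 ≤ i → i < m → 0 ≤ j → j < m → (i, j) ≠ p →
        SignType.sign (a * x i j k1 + b * x i j k2 + c * x i j k3) =
        SignType.sign (a * x0 k1 + b * x0 k2 + c * x0 k3) := by
    intro k1 k2 k3 a b c ha hb hc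
    rw [hx, hx0]
    exact sign_lemma hB' hm1 hn' ha hb hc _ _ _
  -- few pairs are distinguished
  have hfew : ∀ ω, SolvesWithin (A ω) x0 T →
      ((Finset.range m ×ˢ Finset.range m).filter fun p : ℕ × ℕ =>
        SolvesWithin (A ω) (x p.1 p.2) T).card ≤ T := by
    rintro ω ⟨r0, t, ht, hrun, hcorr⟩
    have hr0 : r0 = false := by
      by_contra hcon
      exact hx0no (hcorr.1 (by simpa using hcon))
    obtain ⟨P, hP1, hP2⟩ := few_pairs hsign hrun (hbd ω)
    have hinj : Function.Injective fun p : ℕ × ℕ => ((p.1 : ℤ), (p.2 : ℤ)) := by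
      intro p q hpq
      simp only [Prod.mk.injEq, Nat.cast_inj] at hpq
      exact Prod.ext hpq.1 hpq.2
    calc _ = (((Finset.range m ×ˢ Finset.range m).filter fun p : ℕ × ℕ =>
        SolvesWithin (A ω) (x p.1 p.2) T).image fun p : ℕ × ℕ => ((p.1 : ℤ), (p.2 : ℤ))).card :=
          (Finset.card_image_of_injective _ hinj).symm
      _ ≤ P.card := by
          apply Finset.card_le_card
          intro q hq
          rw [Finset.mem_image] at hq
          obtain ⟨p, hp, rfl⟩ := hq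
          rw [Finset.mem_filter, Finset.mem_product, Finset.mem_range, Finset.mem_range] at hp
          obtain ⟨⟨hp1, hp2⟩, r1, t1, ht1, hrun1, hcorr1⟩ := hp
          by_contra hcon
          have := hP2 p.1 p.2 (by positivity) (by exact_mod_cast hp1) (by positivity)
            (by exact_mod_cast hp2) hcon
          have hr1 := (runs_unique this hrun1).1
          rw [hr0] at hr1
          have := hcorr1.2 (hxyes p.1 p.2 hp1 hp2)
          rw [← hr1] at this
          exact Bool.false_ne_true this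
      _ ≤ T := hP1.trans ht
  -- averaging
  have hq0 := hA x0 hx0inj hx0b
  have hpair : ∀ p ∈ Finset.range m ×ˢ Finset.range m, (1 : ℝ) / 3 ≤
      ∑ ω, if SolvesWithin (A ω) x0 T ∧ SolvesWithin (A ω) (x (p : ℕ × ℕ).1 p.2) T
        then μ ω else 0 := by
    intro p hp
    rw [Finset.mem_product, Finset.mem_range, Finset.mem_range] at hp
    have hp1' : ((p.1 : ℕ) : ℤ) < m := by exact_mod_cast hp.1
    have hp2' : ((p.2 : ℕ) : ℤ) < m := by exact_mod_cast hp.2
    have hq1 := hA (x p.1 p.2) (hxinj _ _ (by positivity) hp1' (by positivity) hp2')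
      (hxb _ _ (by positivity) hp1' (by positivity) hp2')
    have key : ∀ ω, (if SolvesWithin (A ω) x0 T then μ ω else 0) +
        (if SolvesWithin (A ω) (x p.1 p.2) T then μ ω else 0) ≤ μ ω +
        if SolvesWithin (A ω) x0 T ∧ SolvesWithin (A ω) (x p.1 p.2) T then μ ω else 0 := by
      intro ω
      have := hμ ω
      by_cases s1 : SolvesWithin (A ω) x0 T <;> by_cases s2 : SolvesWithin (A ω) (x p.1 p.2) T <;>
        simp [s1, s2] <;> linarith
    have hsum := Finset.sum_le_sum fun ω (_ : ω ∈ (Finset.univ : Finset Ω)) => key ω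
    rw [Finset.sum_add_distrib, Finset.sum_add_distrib, h1] at hsum
    linarith
  have hω : ∀ ω, ∑ p ∈ Finset.range m ×ˢ Finset.range m,
      (if SolvesWithin (A ω) x0 T ∧ SolvesWithin (A ω) (x (p : ℕ × ℕ).1 p.2) T
        then μ ω else 0) ≤ μ ω * T := by
    intro ω
    by_cases s1 : SolvesWithin (A ω) x0 T
    · simp only [s1, true_and]
      rw [← Finset.sum_filter, Finset.sum_const, nsmul_eq_mul, mul_comm]
      exact mul_le_mul_of_nonneg_left (by exact_mod_cast hfew ω s1) (hμ ω)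
    · simp only [s1, false_and, if_false, Finset.sum_const_zero]
      exact mul_nonneg (hμ ω) (Nat.cast_nonneg _)
  have htotal : (m : ℝ) ^ 2 / 3 ≤ T := by
    calc (m : ℝ) ^ 2 / 3 = ∑ p ∈ Finset.range m ×ˢ Finset.range m, (1 : ℝ) / 3 := by
          rw [Finset.sum_const, Finset.card_product, Finset.card_range, nsmul_eq_mul]
          push_cast; ring
      _ ≤ ∑ p ∈ Finset.range m ×ˢ Finset.range m, ∑ ω,
          (if SolvesWithin (A ω) x0 T ∧ SolvesWithin (A ω) (x (p : ℕ × ℕ).1 p.2) T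
            then μ ω else 0) := Finset.sum_le_sum hpair
      _ = ∑ ω, ∑ p ∈ Finset.range m ×ˢ Finset.range m,
          (if SolvesWithin (A ω) x0 T ∧ SolvesWithin (A ω) (x (p : ℕ × ℕ).1 p.2) T
            then μ ω else 0) := Finset.sum_comm
      _ ≤ ∑ ω, μ ω * T := Finset.sum_le_sum fun ω _ => hω ω
      _ = T := by rw [← Finset.sum_mul, h1, one_mul]
  have hmT : m ^ 2 ≤ 3 * T := by
    have : (m : ℝ) ^ 2 ≤ 3 * T := by linarith
    exact_mod_cast this
  have hn80 : n < 80 * (B ^ 2 * m) := by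
    have := Nat.lt_mul_div_succ n hpos
    rw [← hm] at this
    nlinarith
  calc n ^ 2 ≤ (80 * (B ^ 2 * m)) ^ 2 := Nat.pow_le_pow_left hn80.le 2
    _ = 6400 * B ^ 4 * m ^ 2 := by ring
    _ ≤ 6400 * B ^ 4 * (3 * T) := Nat.mul_le_mul_left _ hmT
    _ = 19200 * B ^ 4 * T := by ring

/-- Zero-error algorithms, by the inequality of Markov. -/
theorem zero_error_bound {Ω : Type} [Fintype Ω] {n B : ℕ} {E : ℝ} {μ : Ω → ℝ} {A : Ω → CmpAlg n}
    (h : ZeroErrorSolver n B E μ A) (hB : 1 ≤ B) (hn : 40 * B ^ 2 ≤ n) :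
    (n : ℝ) ^ 2 ≤ 57600 * B ^ 4 * E := by
  classical
  obtain ⟨hμ, h1, hbd, hA⟩ := h
  have hB2 : 1 ≤ B ^ 2 := Nat.one_le_pow _ _ hB
  have hE : 0 ≤ E := by
    have hinj : Function.Injective fun i : Fin n => (i : ℤ) := fun i j hij => by
      simpa [Fin.ext_iff] using hij
    obtain ⟨c, _, hc⟩ := hA (fun i => (i : ℤ)) hinj (fun i => by
      have h2 : (i : ℕ) < n := i.2
      have h3 : n ≤ n ^ 3 := Nat.le_self_pow (by norm_num) n
      rw [abs_of_nonneg (by positivity)]
      have : ((i : ℕ) : ℤ) ≤ (n ^ 3 : ℕ) := by exact_mod_cast (by omega)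
      exact_mod_cast this)
    exact le_trans (Finset.sum_nonneg fun ω _ => mul_nonneg (hμ ω) (Nat.cast_nonneg _)) hc
  have key : RandomisedSolver n B ⌊3 * E⌋₊ μ A := by
    refine ⟨hμ, h1, hbd, fun x hx hb => ?_⟩
    obtain ⟨c, hc1, hc2⟩ := hA x hx hb
    have h2 : ∀ ω, μ ω - (if SolvesWithin (A ω) x ⌊3 * E⌋₊ then μ ω else 0) ≤
        if ⌊3 * E⌋₊ < c ω then μ ω else 0 := by
      intro ω
      by_cases h3 : ⌊3 * E⌋₊ < c ω
      · rw [if_pos h3]
        split_ifs
        · have := hμ ω; linarith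
        · linarith
      · rw [if_neg h3, if_pos]
        · linarith
        · obtain ⟨b, hb1, hb2⟩ := hc1 ω
          exact ⟨b, c ω, not_lt.1 h3, hb1, hb2⟩
    have h3 : ∀ ω, (if ⌊3 * E⌋₊ < c ω then μ ω else 0) * (3 * E) ≤ μ ω * c ω := by
      intro ω
      split_ifs with h4
      · refine mul_le_mul_of_nonneg_left ?_ (hμ ω)
        exact (Nat.lt_of_floor_lt h4).le
      · rw [zero_mul]; exact mul_nonneg (hμ ω) (Nat.cast_nonneg _)
    have h4 := Finset.sum_le_sum fun ω (_ : ω ∈ (Finset.univ : Finset Ω)) => h2 ω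
    have h5 := Finset.sum_le_sum fun ω (_ : ω ∈ (Finset.univ : Finset Ω)) => h3 ω
    rw [Finset.sum_sub_distrib, h1] at h4
    rw [← Finset.sum_mul] at h5
    set s := ∑ ω, (if ⌊3 * E⌋₊ < c ω then μ ω else 0)
    by_cases hE0 : E = 0
    · have h6 : s = 0 := by
        refine Finset.sum_eq_zero fun ω _ => ?_
        split_ifs with h7
        · have h8 : μ ω * c ω ≤ 0 := by
            have h9 : μ ω * (c ω : ℝ) ≤ ∑ ω, μ ω * c ω :=
              Finset.single_le_sum (f := fun ω => μ ω * (c ω : ℝ))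
                (fun ω _ => mul_nonneg (hμ ω) (Nat.cast_nonneg _)) (Finset.mem_univ ω)
            rw [hE0] at hc2
            linarith
          have h10 : (1 : ℝ) ≤ c ω := by
            have : 1 ≤ c ω := by omega
            exact_mod_cast this
          nlinarith [hμ ω]
        · rfl
      rw [h6] at h4
      linarith
    · have hEpos : 0 < E := lt_of_le_of_ne hE (Ne.symm hE0)
      have h6 : s * (3 * E) ≤ E := h5.trans hc2
      have h7 : s ≤ 1 / 3 := by
        by_contra hcon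
        push Not at hcon
        nlinarith
      linarith
  have h2 := cmp_lower_bound key hB hn
  have h3 : ((n ^ 2 : ℕ) : ℝ) ≤ ((19200 * B ^ 4 * ⌊3 * E⌋₊ : ℕ) : ℝ) := by exact_mod_cast h2
  push_cast at h3
  have h4 : (⌊3 * E⌋₊ : ℝ) ≤ 3 * E := Nat.floor_le (by positivity)
  have h5 : 19200 * (B : ℝ) ^ 4 * ⌊3 * E⌋₊ ≤ 19200 * (B : ℝ) ^ 4 * (3 * E) :=
    mul_le_mul_of_nonneg_left h4 (by positivity)
  linarith

end Pool.Agent.ThreeSum.Cmp
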