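import Pool.Agent.ThreeSum.CmpInput

/-!
The sign patterns of the adversary inputs.
-/

namespace Pool.Agent.ThreeSum.Cmp

theorem sm_g0_bound {m r : ℕ} (hm : 1 ≤ m) (v : El m r) : |sm g0 v| ≤ 4 * (m : ℤ) ^ 2 := by
  rcases v with (s | s | s) | s
  · have h : (s : ℕ) < m := s.2
    have h' : ((s : ℕ) : ℤ) + 1 ≤ m := by exact_mod_cast h
    have h0 : (0 : ℤ) ≤ (s : ℕ) := by positivity
    simp only [sm, ty, pos, g0]
    rw [abs_le]; constructor <;> nlinarith
  · have h : (s : ℕ) < m := s.2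
    have h' : ((s : ℕ) : ℤ) + 1 ≤ m := by exact_mod_cast h
    have h0 : (0 : ℤ) ≤ (s : ℕ) := by positivity
    simp only [sm, ty, pos, g0]
    rw [abs_le]; constructor <;> nlinarith
  · have h : (s : ℕ) < 2 * m := s.2
    have h' : ((s : ℕ) : ℤ) + 1 ≤ 2 * m := by exact_mod_cast h
    have h0 : (0 : ℤ) ≤ (s : ℕ) := by positivity
    have hm' : (1 : ℤ) ≤ m := by exact_mod_cast hm
    simp only [sm, ty, pos, g0]
    rw [abs_le]; constructor <;> nlinarith
  · simp only [sm, abs_zero]; positivity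

theorem sm_g1_bound {m r : ℕ} {i j : ℤ} (hi0 : 0 ≤ i) (hi : i < m) (hj0 : 0 ≤ j) (hj : j < m)
    (v : El m r) : |sm (g1 i j) v| ≤ 4 * (m : ℤ) ^ 2 := by
  rcases v with (s | s | s) | s
  · have h : (s : ℕ) < m := s.2
    have h' : ((s : ℕ) : ℤ) + 1 ≤ m := by exact_mod_cast h
    have h0 : (0 : ℤ) ≤ (s : ℕ) := by positivity
    simp only [sm, ty, pos, g1]
    rw [abs_le]; constructor <;> nlinarith
  · have h : (s : ℕ) < m := s.2
    have h' : ((s : ℕ) : ℤ) + 1 ≤ m := by exact_mod_cast h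
    have h0 : (0 : ℤ) ≤ (s : ℕ) := by positivity
    simp only [sm, ty, pos, g1]
    rw [abs_le]; constructor <;> nlinarith
  · have h : (s : ℕ) < 2 * m := s.2
    have h' : ((s : ℕ) : ℤ) + 1 ≤ 2 * m := by exact_mod_cast h
    have h0 : (0 : ℤ) ≤ (s : ℕ) := by positivity
    simp only [sm, ty, pos, g1]
    rw [abs_le]; constructor
    · nlinarith
    · have e1 : -(2 * (m : ℤ)) ≤ (s : ℕ) - i - j := by linarith
      have e2 : ((s : ℕ) : ℤ) - i - j ≤ 2 * m := by linarith
      have := sq_le_sq' e1 e2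
      linarith
  · simp only [sm, abs_zero]; positivity

theorem sign_big {W L S : ℤ} (hL : L ≠ 0) (hS : |S| < W) :
    SignType.sign (W * L + S) = SignType.sign L := by
  obtain ⟨h1, h2⟩ := abs_lt.1 hS
  have hW : 0 < W := (abs_nonneg _).trans_lt hS
  rcases lt_or_gt_of_ne hL with h | h
  · rw [sign_neg h, sign_neg]
    nlinarith
  · rw [sign_pos h, sign_pos]
    nlinarith

theorem comb_val {B n : ℤ} {m r : ℕ} (g : Ty → ℤ → ℤ) (a1 a2 a3 : ℤ) (v1 v2 v3 : El m r) :
    a1 * val B n g v1 + a2 * val B n g v2 + a3 * val B n g v3 =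
      WW B m * (a1 * lead B n v1 + a2 * lead B n v2 + a3 * lead B n v3) +
        (a1 * sm g v1 + a2 * sm g v2 + a3 * sm g v3) := by
  unfold val; ring

theorem small_lt {B : ℤ} {m : ℕ} (hB : 1 ≤ B) (hm : 1 ≤ m) : 3 * (B * (4 * (m : ℤ) ^ 2)) < WW B m := by
  have hm' : (1 : ℤ) ≤ m := by exact_mod_cast hm
  unfold WW
  have : (0 : ℤ) < B * (m : ℤ) ^ 2 := by positivity
  linarith

/-- For every question there is at most one perturbed input whose answer differs from the base
input. -/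
theorem sign_lemma {B n : ℤ} {m r : ℕ} (hB : 1 ≤ B) (hm : 1 ≤ m) (hn : 0 ≤ n) {a1 a2 a3 : ℤ}
    (h1 : |a1| ≤ B) (h2 : |a2| ≤ B) (h3 : |a3| ≤ B) (v1 v2 v3 : El m r) :
    ∃ p : ℤ × ℤ, ∀ i j : ℤ, 0 ≤ i → i < m → 0 ≤ j → j < m → (i, j) ≠ p →
      SignType.sign (a1 * val B n (g1 i j) v1 + a2 * val B n (g1 i j) v2 +
        a3 * val B n (g1 i j) v3) =
      SignType.sign (a1 * val B n g0 v1 + a2 * val B n g0 v2 + a3 * val B n g0 v3) := by
  have hB0 : 0 ≤ B := by linarith
  have hW := small_lt hB hm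
  have s0 := abs_comb3 hB0 h1 h2 h3 (sm_g0_bound hm v1) (sm_g0_bound hm v2) (sm_g0_bound hm v3)
  by_cases hL : a1 * lead B n v1 + a2 * lead B n v2 + a3 * lead B n v3 = 0
  · rcases classify_all hB hm hn h1 h2 h3 v1 v2 v3 hL with hc | ⟨s, t, a, ha, hc⟩
    · refine ⟨(0, 0), fun i j _ _ _ _ _ => ?_⟩
      rw [comb_val, comb_val, hL, hc]
    · refine ⟨(s, t), fun i j _ _ _ _ hne => ?_⟩
      rw [comb_val, comb_val, hL, hc, hc, mul_zero, zero_add, zero_add]
      simp only [g0, g1]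
      have p0 : 0 < 3 * s ^ 2 + 3 * t ^ 2 - ((s + t) ^ 2 - 1) := by
        nlinarith [sq_nonneg (s - t), sq_nonneg s, sq_nonneg t]
      have p1 : 0 < 3 * (s - i) ^ 2 + 3 * (t - j) ^ 2 - (s + t - i - j) ^ 2 := by
        have hne' : s - i ≠ 0 ∨ t - j ≠ 0 := by
          by_contra hcon
          push Not at hcon
          apply hne
          rw [Prod.mk.injEq]
          constructor <;> linarith [hcon.1, hcon.2]
        have e : 3 * (s - i) ^ 2 + 3 * (t - j) ^ 2 - (s + t - i - j) ^ 2 =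
            (s - i) ^ 2 + (t - j) ^ 2 + ((s - i) - (t - j)) ^ 2 := by ring
        rw [e]
        rcases hne' with h | h
        · have := sq_pos_of_ne_zero h
          nlinarith [sq_nonneg (t - j), sq_nonneg ((s - i) - (t - j))]
        · have := sq_pos_of_ne_zero h
          nlinarith [sq_nonneg (s - i), sq_nonneg ((s - i) - (t - j))]
      rw [sign_mul, sign_mul, sign_pos p1, sign_pos p0]
  · refine ⟨(0, 0), fun i j hi0 hi hj0 hj _ => ?_⟩
    have s1 := abs_comb3 hB0 h1 h2 h3 (sm_g1_bound hi0 hi hj0 hj v1)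
      (sm_g1_bound hi0 hi hj0 hj v2) (sm_g1_bound hi0 hi hj0 hj v3)
    rw [comb_val, comb_val, sign_big hL (by linarith), sign_big hL (by linarith)]

/-- The base input has no solution. -/
theorem base_no_sum {B n : ℤ} {m r : ℕ} (hB : 1 ≤ B) (hm : 1 ≤ m) (hr : (r : ℤ) ≤ n)
    (v1 v2 v3 : El m r) : val B n g0 v1 + val B n g0 v2 ≠ val B n g0 v3 := by
  intro h
  have hm' : (1 : ℤ) ≤ m := by exact_mod_cast hm
  have hn : 0 ≤ n := le_trans (by positivity) hr
  have hB0 : 0 ≤ B := by linarith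
  have hq : 1 ≤ qq B := by unfold qq; linarith
  have b1 : |(1 : ℤ)| ≤ B := by simpa using hB
  have b3 : |(-1 : ℤ)| ≤ B := by simpa using hB
  have b0 : |(0 : ℤ)| ≤ B := by simp; linarith
  have hW := small_lt hB hm
  have s0 := abs_comb3 hB0 b1 b1 b3 (sm_g0_bound hm v1) (sm_g0_bound hm v2) (sm_g0_bound hm v3)
  have h' : 1 * val B n g0 v1 + 1 * val B n g0 v2 + (-1) * val B n g0 v3 = 0 := by linarith
  rw [comb_val] at h'
  have hp : ∀ e : Fin m ⊕ Fin m ⊕ Fin (2 * m), 0 ≤ pos e ∧ pos e ≤ 2 * (m : ℤ) :=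
    fun e => ⟨pos_nonneg e, (pos_lt e).le⟩
  have hL : 1 * lead B n v1 + 1 * lead B n v2 + (-1) * lead B n v3 = 0 := by
    by_contra hL
    have := sign_big (W := WW B m) hL
      (show |1 * sm g0 v1 + 1 * sm g0 v2 + (-1) * sm g0 v3| < WW B m by linarith)
    rw [h', sign_zero] at this
    exact hL (sign_eq_zero_iff.1 this.symm)
  rw [hL, mul_zero, zero_add] at h'
  have hD : 0 < DD B m n := by
    have hX : 0 < Xm B m := lt_of_lt_of_le (leadR_bounds hB hm' .A le_rfl (by linarith)).1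
      (leadR_bounds hB hm' .A le_rfl (by linarith)).2
    unfold DD
    have : 0 ≤ 2 * B * Xm B m := by positivity
    linarith
  have hDn : n < DD B m n := by
    have hX : 0 < Xm B m := lt_of_lt_of_le (leadR_bounds hB hm' .A le_rfl (by linarith)).1
      (leadR_bounds hB hm' .A le_rfl (by linarith)).2
    unfold DD
    have : 0 ≤ 2 * B * Xm B m := by positivity
    linarith
  have hXD : ∀ (e : Fin m ⊕ Fin m ⊕ Fin (2 * m)) (w : Fin r),
      leadR B m (ty e) (pos e) < qq B * (DD B m n + (w : ℕ)) := by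
    intro e w
    have l := leadR_bounds hB hm' (ty e) (hp e).1 (hp e).2
    have hw : (0 : ℤ) ≤ (w : ℕ) := by positivity
    have e1 : Xm B m ≤ 2 * B * Xm B m := by nlinarith [l.1.trans_le l.2]
    have e2 : 2 * B * Xm B m < DD B m n := by unfold DD; linarith
    nlinarith
  have hv : ∀ v : Fin r, (0 : ℤ) ≤ (v : ℕ) := fun v => by positivity
  rcases v1 with e1 | w1 <;> rcases v2 with e2 | w2 <;> rcases v3 with e3 | w3 <;>
    simp only [lead, sm] at hL h'
  · -- three essential elements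
    obtain ⟨f1, f2, f3⟩ := classify_real hB hm' b1 b1 b3 (hp e1) (hp e2) (hp e3) hL
    clear hL s0 hp hXD hv hD hDn hW
    revert f1 f2 f3 h'
    generalize pos e1 = y1
    generalize pos e2 = y2
    generalize pos e3 = y3
    cases ty e1 <;> cases ty e2 <;> cases ty e3 <;> simp only [pa, pb, g0] <;>
      intro h' f1 f2 f3 <;> first | (exfalso; linarith) | skip
    · have : y3 = y1 + y2 := by linarith
      subst this
      nlinarith [sq_nonneg (y1 - y2), sq_nonneg y1, sq_nonneg y2]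
    · have : y3 = y1 + y2 := by linarith
      subst this
      nlinarith [sq_nonneg (y1 - y2), sq_nonneg y1, sq_nonneg y2]
  · -- essential + essential = dummy
    have := big_dummy (c := -1) (t1 := ty e1) (t2 := ty e2) hB hm' hn b1 b1 (hp e1) (hp e2)
      (hv w3) hL
    linarith
  · have := big_dummy (a1 := 1) (a2 := -1) (c := 1) (t1 := ty e1) (t2 := ty e3) hB hm' hn b1 b3
      (hp e1) (hp e3) (hv w2) (by linarith)
    linarith
  · have := one_real (a := 1) (m := m) (t := ty e1) (y := pos e1) hB b1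
      (z := (DD B m n + (w2 : ℕ)) - (DD B m n + (w3 : ℕ))) (by linarith)
    linarith
  · have := big_dummy (a1 := 1) (a2 := -1) (c := 1) (t1 := ty e2) (t2 := ty e3) hB hm' hn b1 b3
      (hp e2) (hp e3) (hv w1) (by linarith)
    linarith
  · have := one_real (a := 1) (m := m) (t := ty e2) (y := pos e2) hB b1
      (z := (DD B m n + (w1 : ℕ)) - (DD B m n + (w3 : ℕ))) (by linarith)
    linarith
  · have := one_real (a := -1) (m := m) (t := ty e3) (y := pos e3) hB b3
      (z := (DD B m n + (w1 : ℕ)) + (DD B m n + (w2 : ℕ))) (by linarith)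
    linarith
  · have hw3 : (w3 : ℕ) < r := w3.2
    have hw3' : ((w3 : ℕ) : ℤ) < n := by
      have : ((w3 : ℕ) : ℤ) < r := by exact_mod_cast hw3
      linarith
    have e1 : qq B * ((DD B m n + (w1 : ℕ)) + (w2 : ℕ) - (w3 : ℕ)) = 0 := by linarith
    have e2 : 0 < (DD B m n + (w1 : ℕ)) + (w2 : ℕ) - (w3 : ℕ) := by
      have := hv w1; have := hv w2; linarith
    have := mul_pos (by linarith : 0 < qq B) e2
    linarith

end Pool.Agent.ThreeSum.Cmp
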