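import Pool.Agent.ThreeSum.CmpDefs

/-!
Sign analysis for the adversary inputs.
-/

namespace Pool.Agent.ThreeSum.Cmp

/-- The three kinds of essential elements. -/
inductive Ty
  | A
  | B
  | C

/-- Indicator that the leading offset `Oa` is present. -/
def pa : Ty → ℤ
  | .A => 1
  | .B => 0
  | .C => 1

/-- Indicator that the leading offset `Ob` is present. -/
def pb : Ty → ℤ
  | .A => 0
  | .B => 1
  | .C => 1

/-- The small part of the base input. -/
def g0 : Ty → ℤ → ℤ
  | .A, y => 3 * y ^ 2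
  | .B, y => 3 * y ^ 2
  | .C, y => y ^ 2 - 1

/-- The small part of the perturbed input. -/
def g1 (i j : ℤ) : Ty → ℤ → ℤ
  | .A, y => 3 * (y - i) ^ 2
  | .B, y => 3 * (y - j) ^ 2
  | .C, y => (y - i - j) ^ 2

/-- Classification of the degenerate combinations of three elements. -/
theorem classify (t1 t2 t3 : Ty) (y1 y2 y3 a1 a2 a3 : ℤ)
    (h1 : a1 * pa t1 + a2 * pa t2 + a3 * pa t3 = 0)
    (h2 : a1 * pb t1 + a2 * pb t2 + a3 * pb t3 = 0)
    (h3 : a1 * y1 + a2 * y2 + a3 * y3 = 0) :
    (∀ i j, a1 * g1 i j t1 y1 + a2 * g1 i j t2 y2 + a3 * g1 i j t3 y3 =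
      a1 * g0 t1 y1 + a2 * g0 t2 y2 + a3 * g0 t3 y3) ∨
    ∃ s t a : ℤ, a ≠ 0 ∧ ∀ g : Ty → ℤ → ℤ,
      a1 * g t1 y1 + a2 * g t2 y2 + a3 * g t3 y3 = a * (g .A s + g .B t - g .C (s + t)) := by
  cases t1 <;> cases t2 <;> cases t3 <;> simp only [pa, pb, mul_one, mul_zero, add_zero,
    zero_add] at h1 h2
  · -- A A A
    left; intro i j; simp only [g0, g1]
    linear_combination (3 * i ^ 2) * h1 - 2 * (3 * i) * h3
  · -- A A B
    left; intro i j; simp only [g0, g1]
    linear_combination (3 * i ^ 2) * h1 - 2 * (3 * i) * (h3 - y3 * h2) +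
      ((3 * j ^ 2) - 2 * (3 * j) * y3) * h2
  · -- A A C
    left; intro i j; simp only [g0, g1]
    linear_combination (3 * i ^ 2) * (h1 - h2) - 2 * (3 * i) * (h3 - y3 * h2) +
      ((((i + j) ^ 2 + 1)) - 2 * (i + j) * y3) * h2
  · -- A B A
    left; intro i j; simp only [g0, g1]
    linear_combination (3 * i ^ 2) * h1 - 2 * (3 * i) * (h3 - y2 * h2) +
      ((3 * j ^ 2) - 2 * (3 * j) * y2) * h2
  · -- A B B
    left; intro i j; simp only [g0, g1]
    linear_combination (3 * j ^ 2) * h2 - 2 * (3 * j) * (h3 - y1 * h1) +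
      ((3 * i ^ 2) - 2 * (3 * i) * y1) * h1
  · -- A B C
    have e1 : a3 = -a1 := by linarith
    have e2 : a2 = a1 := by linarith
    rw [e1, e2] at h3 ⊢
    by_cases h0 : a1 = 0
    · left; intro i j; rw [h0]; ring
    · right
      have e3 : y3 = y1 + y2 := by
        have e4 : a1 * (y1 + y2 - y3) = 0 := by linear_combination h3
        rcases mul_eq_zero.1 e4 with e5 | e5
        · exact absurd e5 h0
        · linarith
      refine ⟨y1, y2, a1, h0, fun g => ?_⟩
      rw [e3]; ring
  · -- A C A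
    left; intro i j; simp only [g0, g1]
    linear_combination (3 * i ^ 2) * (h1 - h2) - 2 * (3 * i) * (h3 - y2 * h2) +
      ((((i + j) ^ 2 + 1)) - 2 * (i + j) * y2) * h2
  · -- A C B
    have e1 : a2 = -a1 := by linarith
    have e2 : a3 = a1 := by linarith
    rw [e1, e2] at h3 ⊢
    by_cases h0 : a1 = 0
    · left; intro i j; rw [h0]; ring
    · right
      have e3 : y2 = y1 + y3 := by
        have e4 : a1 * (y1 + y3 - y2) = 0 := by linear_combination h3
        rcases mul_eq_zero.1 e4 with e5 | e5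
        · exact absurd e5 h0
        · linarith
      refine ⟨y1, y3, a1, h0, fun g => ?_⟩
      rw [e3]; ring
  · -- A C C
    left; intro i j; simp only [g0, g1]
    linear_combination (((i + j) ^ 2 + 1)) * h2 - 2 * (i + j) * (h3 - y1 * (h1 - h2)) +
      ((3 * i ^ 2) - 2 * (3 * i) * y1) * (h1 - h2)
  · -- B A A
    left; intro i j; simp only [g0, g1]
    linear_combination (3 * i ^ 2) * h1 - 2 * (3 * i) * (h3 - y1 * h2) +
      ((3 * j ^ 2) - 2 * (3 * j) * y1) * h2
  · -- B A B
    left; intro i j; simp only [g0, g1]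
    linear_combination (3 * j ^ 2) * h2 - 2 * (3 * j) * (h3 - y2 * h1) +
      ((3 * i ^ 2) - 2 * (3 * i) * y2) * h1
  · -- B A C
    have e1 : a3 = -a2 := by linarith
    have e2 : a1 = a2 := by linarith
    rw [e1, e2] at h3 ⊢
    by_cases h0 : a2 = 0
    · left; intro i j; rw [h0]; ring
    · right
      have e3 : y3 = y2 + y1 := by
        have e4 : a2 * (y2 + y1 - y3) = 0 := by linear_combination h3
        rcases mul_eq_zero.1 e4 with e5 | e5
        · exact absurd e5 h0
        · linarith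
      refine ⟨y2, y1, a2, h0, fun g => ?_⟩
      rw [e3]; ring
  · -- B B A
    left; intro i j; simp only [g0, g1]
    linear_combination (3 * j ^ 2) * h2 - 2 * (3 * j) * (h3 - y3 * h1) +
      ((3 * i ^ 2) - 2 * (3 * i) * y3) * h1
  · -- B B B
    left; intro i j; simp only [g0, g1]
    linear_combination (3 * j ^ 2) * h2 - 2 * (3 * j) * h3
  · -- B B C
    left; intro i j; simp only [g0, g1]
    linear_combination (3 * j ^ 2) * (h2 - h1) - 2 * (3 * j) * (h3 - y3 * h1) +
      ((((i + j) ^ 2 + 1)) - 2 * (i + j) * y3) * h1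
  · -- B C A
    have e1 : a2 = -a3 := by linarith
    have e2 : a1 = a3 := by linarith
    rw [e1, e2] at h3 ⊢
    by_cases h0 : a3 = 0
    · left; intro i j; rw [h0]; ring
    · right
      have e3 : y2 = y3 + y1 := by
        have e4 : a3 * (y3 + y1 - y2) = 0 := by linear_combination h3
        rcases mul_eq_zero.1 e4 with e5 | e5
        · exact absurd e5 h0
        · linarith
      refine ⟨y3, y1, a3, h0, fun g => ?_⟩
      rw [e3]; ring
  · -- B C B
    left; intro i j; simp only [g0, g1]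
    linear_combination (3 * j ^ 2) * (h2 - h1) - 2 * (3 * j) * (h3 - y2 * h1) +
      ((((i + j) ^ 2 + 1)) - 2 * (i + j) * y2) * h1
  · -- B C C
    left; intro i j; simp only [g0, g1]
    linear_combination (((i + j) ^ 2 + 1)) * h1 - 2 * (i + j) * (h3 - y1 * (h2 - h1)) +
      ((3 * j ^ 2) - 2 * (3 * j) * y1) * (h2 - h1)
  · -- C A A
    left; intro i j; simp only [g0, g1]
    linear_combination (3 * i ^ 2) * (h1 - h2) - 2 * (3 * i) * (h3 - y1 * h2) +
      ((((i + j) ^ 2 + 1)) - 2 * (i + j) * y1) * h2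
  · -- C A B
    have e1 : a1 = -a2 := by linarith
    have e2 : a3 = a2 := by linarith
    rw [e1, e2] at h3 ⊢
    by_cases h0 : a2 = 0
    · left; intro i j; rw [h0]; ring
    · right
      have e3 : y1 = y2 + y3 := by
        have e4 : a2 * (y2 + y3 - y1) = 0 := by linear_combination h3
        rcases mul_eq_zero.1 e4 with e5 | e5
        · exact absurd e5 h0
        · linarith
      refine ⟨y2, y3, a2, h0, fun g => ?_⟩
      rw [e3]; ring
  · -- C A C
    left; intro i j; simp only [g0, g1]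
    linear_combination (((i + j) ^ 2 + 1)) * h2 - 2 * (i + j) * (h3 - y2 * (h1 - h2)) +
      ((3 * i ^ 2) - 2 * (3 * i) * y2) * (h1 - h2)
  · -- C B A
    have e1 : a1 = -a3 := by linarith
    have e2 : a2 = a3 := by linarith
    rw [e1, e2] at h3 ⊢
    by_cases h0 : a3 = 0
    · left; intro i j; rw [h0]; ring
    · right
      have e3 : y1 = y3 + y2 := by
        have e4 : a3 * (y3 + y2 - y1) = 0 := by linear_combination h3
        rcases mul_eq_zero.1 e4 with e5 | e5
        · exact absurd e5 h0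
        · linarith
      refine ⟨y3, y2, a3, h0, fun g => ?_⟩
      rw [e3]; ring
  · -- C B B
    left; intro i j; simp only [g0, g1]
    linear_combination (3 * j ^ 2) * (h2 - h1) - 2 * (3 * j) * (h3 - y1 * h1) +
      ((((i + j) ^ 2 + 1)) - 2 * (i + j) * y1) * h1
  · -- C B C
    left; intro i j; simp only [g0, g1]
    linear_combination (((i + j) ^ 2 + 1)) * h1 - 2 * (i + j) * (h3 - y2 * (h2 - h1)) +
      ((3 * j ^ 2) - 2 * (3 * j) * y2) * (h2 - h1)
  · -- C C A
    left; intro i j; simp only [g0, g1]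
    linear_combination (((i + j) ^ 2 + 1)) * h2 - 2 * (i + j) * (h3 - y3 * (h1 - h2)) +
      ((3 * i ^ 2) - 2 * (3 * i) * y3) * (h1 - h2)
  · -- C C B
    left; intro i j; simp only [g0, g1]
    linear_combination (((i + j) ^ 2 + 1)) * h1 - 2 * (i + j) * (h3 - y3 * (h2 - h1)) +
      ((3 * j ^ 2) - 2 * (3 * j) * y3) * (h2 - h1)
  · -- C C C
    left; intro i j; simp only [g0, g1]
    linear_combination (((i + j) ^ 2 + 1)) * h1 - 2 * (i + j) * h3

end Pool.Agent.ThreeSum.Cmp
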