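import Mathlib

/-!
A finite set of `T` points of `ℤ^n` determines at most `5 n T` three-element sets of coordinates
as the sets of coordinates in which two of its points differ.
-/

namespace Pool.Agent.ThreeSum

open Finset

variable {n : ℕ}

/-- The set of coordinates in which `s` and `s'` differ. -/
def diff (s s' : Fin n → ℤ) : Finset (Fin n) := univ.filter fun x => s x ≠ s' x

theorem mem_diff {s s' : Fin n → ℤ} {x : Fin n} : x ∈ diff s s' ↔ s x ≠ s' x := by
  simp [diff]

theorem diff_comm (s s' : Fin n → ℤ) : diff s s' = diff s' s := by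
  ext x
  rw [mem_diff, mem_diff]
  exact ne_comm

open Classical in
/-- The three-element sets of coordinates which are difference sets of two points of `S`. -/
noncomputable def D3 (S : Finset (Fin n → ℤ)) : Finset (Finset (Fin n)) :=
  (powersetCard 3 univ).filter fun t => ∃ s ∈ S, ∃ s' ∈ S, diff s s' = t

theorem mem_D3 {S : Finset (Fin n → ℤ)} {t : Finset (Fin n)} :
    t ∈ D3 S ↔ t.card = 3 ∧ ∃ s ∈ S, ∃ s' ∈ S, diff s s' = t := by
  simp [D3, mem_powersetCard]

/-- The triples containing `x`. -/
theorem card_through (x : Fin n) :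
    2 * (((powersetCard 3 (univ : Finset (Fin n))).filter fun t => x ∈ t).card) ≤ n ^ 2 := by
  have h1 : ((powersetCard 3 (univ : Finset (Fin n))).filter fun t => x ∈ t) ⊆
      (powersetCard 2 (univ.erase x)).image fun q => insert x q := by
    intro t ht
    rw [mem_filter, mem_powersetCard] at ht
    rw [mem_image]
    refine ⟨t.erase x, ?_, insert_erase ht.2⟩
    rw [mem_powersetCard]
    refine ⟨?_, ?_⟩
    · intro y hy
      rw [mem_erase] at hy ⊢
      exact ⟨hy.1, mem_univ _⟩
    · rw [card_erase_of_mem ht.2, ht.1.2]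
  have h2 := (card_le_card h1).trans card_image_le
  rw [card_powersetCard, card_erase_of_mem (mem_univ _), card_univ, Fintype.card_fin] at h2
  have h3 : (n - 1).choose 2 * 2 = (n - 1) * (n - 1 - 1) := by
    rw [Nat.choose_two_right]
    exact Nat.div_mul_cancel (Nat.even_mul_pred_self (n - 1)).two_dvd
  have h4 : (n - 1) * (n - 1 - 1) ≤ n * n := Nat.mul_le_mul (by omega) (by omega)
  have h5 : n ^ 2 = n * n := by ring
  rw [h5]
  omega

/-- A coordinate without balanced cut has a dominant value. -/
theorem exists_mode {S : Finset (Fin n → ℤ)} {m : ℕ} {x : Fin n}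
    (h : ∀ c : ℤ, (S.filter fun s => s x < c).card < m ∨ (S.filter fun s => c ≤ s x).card < m) :
    ∃ c : ℤ, (S.filter fun s => s x ≠ c).card ≤ 2 * m := by
  by_cases hS : S.card < m
  · exact ⟨0, ((card_filter_le _ _).trans hS.le).trans (by omega)⟩
  push Not at hS
  have hm : 0 < m := by
    rcases h 0 with h | h <;> omega
  have hne : S.Nonempty := by
    rw [← card_pos]; omega
  -- the least `c` such that at least `m` points are `≤ c`
  obtain ⟨c, hc, hmin⟩ : ∃ c : ℤ, m ≤ (S.filter fun s => s x ≤ c).card ∧
      ∀ z : ℤ, m ≤ (S.filter fun s => s x ≤ z).card → c ≤ z := by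
    refine Int.exists_least_of_bdd
      (P := fun c => m ≤ (S.filter fun s => s x ≤ c).card)
      ⟨S.inf' hne fun s => s x, ?_⟩ ⟨S.sup' hne fun s => s x, ?_⟩
    · intro z hz
      have : (S.filter fun s => s x ≤ z).Nonempty := by
        rw [← card_pos]; omega
      obtain ⟨s, hs⟩ := this
      rw [mem_filter] at hs
      exact (inf'_le (f := fun s : Fin n → ℤ => s x) hs.1).trans hs.2
    · have : (S.filter fun s => s x ≤ S.sup' hne fun s => s x) = S := by
        rw [filter_eq_self]
        intro s hs
        exact le_sup' (f := fun s : Fin n → ℤ => s x) hs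
      rw [this]; exact hS
  refine ⟨c, ?_⟩
  have h1 : (S.filter fun s => s x < c).card < m := by
    by_contra hcon
    push Not at hcon
    have e : (S.filter fun s => s x < c) = S.filter fun s => s x ≤ c - 1 := by
      ext s
      simp only [mem_filter]
      constructor
      · rintro ⟨a, b⟩; exact ⟨a, by omega⟩
      · rintro ⟨a, b⟩; exact ⟨a, by omega⟩
    rw [e] at hcon
    have := hmin _ hcon
    omega
  have h2 : (S.filter fun s => c + 1 ≤ s x).card < m := by
    rcases h (c + 1) with h | h
    · exfalso
      have e : (S.filter fun s => s x < c + 1) = S.filter fun s => s x ≤ c := by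
        ext s
        simp only [mem_filter]
        constructor
        · rintro ⟨a, b⟩; exact ⟨a, by omega⟩
        · rintro ⟨a, b⟩; exact ⟨a, by omega⟩
      rw [e] at h
      omega
    · exact h
  have h3 : (S.filter fun s => s x ≠ c) ⊆
      (S.filter fun s => s x < c) ∪ (S.filter fun s => c + 1 ≤ s x) := by
    intro s hs
    rw [mem_filter] at hs
    rw [mem_union, mem_filter, mem_filter]
    rcases lt_or_gt_of_ne hs.2 with h | h
    · exact Or.inl ⟨hs.1, h⟩
    · exact Or.inr ⟨hs.1, by omega⟩
  have h4 := (card_le_card h3).trans (card_union_le _ _)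
  omega

/-- The number of triples meeting a set of at most three coordinates in at least two. -/
theorem card_two_le (P : Finset (Fin n)) (hP : P.card ≤ 3) :
    ((powersetCard 3 (univ : Finset (Fin n))).filter fun t => 2 ≤ (t ∩ P).card).card ≤ 3 * n := by
  have h1 : ((powersetCard 3 (univ : Finset (Fin n))).filter fun t => 2 ≤ (t ∩ P).card) ⊆
      ((powersetCard 2 P) ×ˢ (univ : Finset (Fin n))).image fun q => insert q.2 q.1 := by
    intro t ht
    rw [mem_filter, mem_powersetCard] at ht
    obtain ⟨q, hq1, hq2⟩ := exists_subset_card_eq ht.2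
    have hqt : q ⊆ t := hq1.trans inter_subset_left
    have h3 : (t \ q).card = 1 := by
      rw [card_sdiff_of_subset hqt]; omega
    obtain ⟨y, hy⟩ := card_eq_one.1 h3
    rw [mem_image]
    refine ⟨(q, y), ?_, ?_⟩
    · rw [mem_product, mem_powersetCard]
      exact ⟨⟨hq1.trans inter_subset_right, hq2⟩, mem_univ _⟩
    · have : t = q ∪ (t \ q) := (union_sdiff_of_subset hqt).symm
      rw [hy] at this
      rw [this, union_comm]
      rfl
  have h2 := (card_le_card h1).trans card_image_le
  rw [card_product, card_powersetCard, card_univ, Fintype.card_fin] at h2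
  have h3 : P.card.choose 2 ≤ 3 := by
    have : P.card.choose 2 ≤ (3 : ℕ).choose 2 := Nat.choose_le_choose 2 hP
    simpa using this
  exact h2.trans (Nat.mul_le_mul_right _ h3)

/-- A set of points without balanced cuts determines few triples. -/
theorem card_D3_leaf {S : Finset (Fin n → ℤ)} {m L : ℕ} (hL1 : 8 * m ≤ L) (hL2 : 3 * n ≤ L)
    (h : ∀ (x : Fin n) (c : ℤ),
      (S.filter fun s => s x < c).card < m ∨ (S.filter fun s => c ≤ s x).card < m) :
    (D3 S).card ≤ L * S.card := by
  classical
  choose c hc using fun x => exists_mode (h x)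
  set supp : (Fin n → ℤ) → Finset (Fin n) := fun s => univ.filter fun x => s x ≠ c x with hsupp
  have hcover : D3 S ⊆ S.biUnion fun s => if 4 ≤ (supp s).card then
      (S.filter fun s' => (diff s s').card = 3).image (fun s' => diff s s')
      else (powersetCard 3 (univ : Finset (Fin n))).filter fun t => 2 ≤ (t ∩ supp s).card := by
    intro t ht
    rw [mem_D3] at ht
    obtain ⟨ht3, s, hs, s', hs', hd⟩ := ht
    rw [mem_biUnion]
    by_cases h1 : 4 ≤ (supp s).card
    · refine ⟨s, hs, ?_⟩
      rw [if_pos h1, mem_image]
      exact ⟨s', by rw [mem_filter]; exact ⟨hs', by rw [hd, ht3]⟩, hd⟩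
    by_cases h2 : 4 ≤ (supp s').card
    · refine ⟨s', hs', ?_⟩
      rw [if_pos h2, mem_image]
      exact ⟨s, by rw [mem_filter]; exact ⟨hs, by rw [diff_comm, hd, ht3]⟩, by
        rw [diff_comm, hd]⟩
    -- both supports are small
    have h3 : t ⊆ (t ∩ supp s) ∪ (t ∩ supp s') := by
      intro x hx
      rw [mem_union, mem_inter, mem_inter]
      rw [← hd, mem_diff] at hx
      have hx' : x ∈ t := by rw [← hd, mem_diff]; exact hx
      by_cases h4 : s x = c x
      · right
        refine ⟨hx', ?_⟩
        simp only [hsupp, mem_filter, mem_univ, true_and]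
        rw [← h4]; exact fun e => hx e.symm
      · left
        refine ⟨hx', ?_⟩
        simp only [hsupp, mem_filter, mem_univ, true_and]
        exact h4
    have h4 := (card_le_card h3).trans (card_union_le _ _)
    have h5 : 2 ≤ (t ∩ supp s).card ∨ 2 ≤ (t ∩ supp s').card := by omega
    rcases h5 with h5 | h5
    · refine ⟨s, hs, ?_⟩
      rw [if_neg h1, mem_filter, mem_powersetCard]
      exact ⟨⟨subset_univ _, ht3⟩, h5⟩
    · refine ⟨s', hs', ?_⟩
      rw [if_neg h2, mem_filter, mem_powersetCard]
      exact ⟨⟨subset_univ _, ht3⟩, h5⟩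
  refine (card_le_card hcover).trans ?_
  refine (card_biUnion_le_card_mul _ _ L ?_).trans (by rw [mul_comm])
  intro s hs
  split_ifs with h1
  · refine card_image_le.trans ?_
    obtain ⟨q, hq1, hq2⟩ := exists_subset_card_eq h1
    have h2 : (S.filter fun s' => (diff s s').card = 3) ⊆
        q.biUnion fun x => S.filter fun s' => s' x ≠ c x := by
      intro s' hs'
      rw [mem_filter] at hs'
      rw [mem_biUnion]
      by_contra hcon
      push Not at hcon
      have h3 : q ⊆ diff s s' := by
        intro x hx
        have h4 := hcon x hx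
        rw [mem_filter, not_and, not_not] at h4
        rw [mem_diff, h4 hs'.1]
        have h5 := hq1 hx
        simp only [hsupp, mem_filter, mem_univ, true_and] at h5
        exact h5
      have := card_le_card h3
      omega
    refine (card_le_card h2).trans ?_
    refine (card_biUnion_le_card_mul _ _ (2 * m) (fun x _ => hc x)).trans ?_
    rw [hq2]; omega
  · exact (card_two_le _ (by omega)).trans hL2

theorem D3_mono_cut {S : Finset (Fin n → ℤ)} (x : Fin n) (c : ℤ) :
    (D3 S).card ≤ (D3 (S.filter fun s => s x < c)).card + (D3 (S.filter fun s => c ≤ s x)).card +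
      ((powersetCard 3 (univ : Finset (Fin n))).filter fun t => x ∈ t).card := by
  classical
  have h : D3 S ⊆ (D3 (S.filter fun s => s x < c) ∪ D3 (S.filter fun s => c ≤ s x)) ∪
      ((powersetCard 3 (univ : Finset (Fin n))).filter fun t => x ∈ t) := by
    intro t ht
    rw [mem_D3] at ht
    obtain ⟨ht3, s, hs, s', hs', hd⟩ := ht
    rw [mem_union, mem_union]
    by_cases h1 : s x < c
    · by_cases h2 : s' x < c
      · left; left
        rw [mem_D3]
        exact ⟨ht3, s, by rw [mem_filter]; exact ⟨hs, h1⟩, s', by
          rw [mem_filter]; exact ⟨hs', h2⟩, hd⟩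
      · right
        rw [mem_filter, mem_powersetCard]
        refine ⟨⟨subset_univ _, ht3⟩, ?_⟩
        rw [← hd, mem_diff]; omega
    · by_cases h2 : s' x < c
      · right
        rw [mem_filter, mem_powersetCard]
        refine ⟨⟨subset_univ _, ht3⟩, ?_⟩
        rw [← hd, mem_diff]; omega
      · left; right
        rw [mem_D3]
        exact ⟨ht3, s, by rw [mem_filter]; exact ⟨hs, by omega⟩, s', by
          rw [mem_filter]; exact ⟨hs', by omega⟩, hd⟩
  refine (card_le_card h).trans ?_
  exact (card_union_le _ _).trans (Nat.add_le_add_right (card_union_le _ _) _)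

theorem card_D3_aux {m L : ℕ} (hL1 : 8 * m ≤ L) (hL2 : 3 * n ≤ L) (k : ℕ) :
    ∀ S : Finset (Fin n → ℤ), S.card = k →
      (m ≤ k → 2 * m * (D3 S).card + m * n ^ 2 ≤ (2 * m * L + n ^ 2) * k) ∧
      (k < m → (D3 S).card ≤ L * k) := by
  induction k using Nat.strong_induction_on with
  | _ k ih =>
    intro S hS
    by_cases hleaf : ∀ (x : Fin n) (c : ℤ),
      (S.filter fun s => s x < c).card < m ∨ (S.filter fun s => c ≤ s x).card < m
    · have h1 := card_D3_leaf hL1 hL2 hleaf
      rw [hS] at h1
      refine ⟨fun hk => ?_, fun _ => h1⟩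
      have h2 : m * n ^ 2 ≤ k * n ^ 2 := Nat.mul_le_mul_right _ hk
      have h3 : 2 * m * (D3 S).card ≤ 2 * m * (L * k) := Nat.mul_le_mul_left _ h1
      have h4 : (2 * m * L + n ^ 2) * k = 2 * m * (L * k) + k * n ^ 2 := by ring
      rw [h4]; omega
    · push Not at hleaf
      obtain ⟨x, c, ha, hb⟩ := hleaf
      have hsum : (S.filter fun s => s x < c).card + (S.filter fun s => c ≤ s x).card = k := by
        have e : (S.filter fun s => c ≤ s x) = S.filter fun s => ¬ s x < c := by
          ext s; simp only [mem_filter, not_lt]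
        rw [e, ← hS]
        exact card_filter_add_card_filter_not _
      by_cases hm : m = 0
      · subst hm
        refine ⟨fun _ => ?_, fun h => absurd h (by omega)⟩
        simp
      have h1 := (ih _ (by omega) (S.filter fun s => s x < c) rfl).1 ha
      have h2 := (ih _ (by omega) (S.filter fun s => c ≤ s x) rfl).1 hb
      have h3 := D3_mono_cut (S := S) x c
      have h4 := card_through x
      set a := (S.filter fun s => s x < c).card
      set b := (S.filter fun s => c ≤ s x).card
      refine ⟨fun _ => ?_, fun h => by omega⟩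
      have h5 : 2 * m * (D3 S).card ≤ 2 * m * ((D3 (S.filter fun s => s x < c)).card +
        (D3 (S.filter fun s => c ≤ s x)).card +
        ((powersetCard 3 (univ : Finset (Fin n))).filter fun t => x ∈ t).card) :=
        Nat.mul_le_mul_left _ h3
      have h6 : m * (2 * ((powersetCard 3 (univ : Finset (Fin n))).filter fun t => x ∈ t).card) ≤
        m * n ^ 2 := Nat.mul_le_mul_left _ h4
      rw [← hsum]
      nlinarith

/-- **Key lemma.** A set of `T` points of `ℤ^n` determines at most `5 n T` triples of
coordinates. -/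
theorem card_D3_le (hn : 8 ≤ n) (S : Finset (Fin n → ℤ)) : (D3 S).card ≤ 5 * n * S.card := by
  have h := card_D3_aux (n := n) (m := n / 4 + 1) (L := 3 * n) (by omega) le_rfl S.card S rfl
  by_cases hk : n / 4 + 1 ≤ S.card
  · have h1 := h.1 hk
    set m := n / 4 + 1
    have hm : n ≤ 4 * m := by omega
    have h2 : n ^ 2 ≤ 4 * m * n := by nlinarith
    have h3 : 2 * m * (D3 S).card ≤ 2 * m * (5 * n * S.card) := by
      have : n ^ 2 * S.card ≤ 4 * m * n * S.card := Nat.mul_le_mul_right _ h2
      nlinarith
    exact Nat.le_of_mul_le_mul_left h3 (by omega)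
  · have h1 := h.2 (by omega)
    refine h1.trans (Nat.mul_le_mul_right _ (by omega))

end Pool.Agent.ThreeSum
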