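import Pool.Agent.ThreeSum.TermUpper

/-!
The three-sum problem in the generic group model with questions charged by their number of terms:
the complexity on `n` distinct integers of size at most `R` is of order `min (n ^ 2, sqrt (n * R))`,
hence quadratic exactly from the range `R = n ^ 3` on.
-/

namespace Pool.Agent.ThreeSum.ExactRangeResult

open Pool.Agent.ThreeSum.Term
open Pool.Agent.ThreeSum (GenAlg)

/-- For `n ≥ 4000` and `R ≥ 100 n ^ 2` the cost of three-sum on `n` distinct integers from
`[-R, R]` in the generic group model, where a question costs one plus its number of terms, is of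
order `min (n ^ 2, sqrt (n * R))`: lower bounds for randomised bounded-error algorithms and for
zero-error algorithms, and a matching deterministic algorithm. -/
theorem result (n R : ℕ) (hn : 4000 ≤ n) (hR : 100 * n ^ 2 ≤ R) :
    (∀ (Ω : Type) [Fintype Ω] (C : ℕ) (μ : Ω → ℝ) (A : Ω → GenAlg n),
      RandomisedSolver n R C μ A → min (n ^ 2) (Nat.sqrt (n * R)) ≤ 2000 * C) ∧
    (∀ (Ω : Type) [Fintype Ω] (E : ℝ) (μ : Ω → ℝ) (A : Ω → GenAlg n),
      ZeroErrorSolver n R E μ A → ((min (n ^ 2) (Nat.sqrt (n * R)) : ℕ) : ℝ) ≤ 6000 * E) ∧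
    ∃ A : GenAlg n, ∀ x : Fin n → ℤ, (∀ i, |x i| ≤ R) →
      SolvesWithin A x (10 * min (n ^ 2) (Nat.sqrt (n * R))) :=
  ⟨fun _ _ _ _ _ h => term_lower_bound h hn hR, fun _ _ _ _ _ h => zero_error_bound h hn hR,
    upper_bound (by omega) (le_trans (by nlinarith) hR)⟩

end Pool.Agent.ThreeSum.ExactRangeResult
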