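import Mathlib

/-!
The generic group model for the three-sum problem.
-/

namespace Pool.Agent.ThreeSum

/-- The value of the integer linear combination with coefficients `c` at the input `x`. -/
def comb {n : ℕ} (c x : Fin n → ℤ) : ℤ := ∑ i, c i * x i

/-- Three pairwise distinct positions `i`, `j`, `k` with `x i + x j = x k`. -/
def HasThreeSum {n : ℕ} (x : Fin n → ℤ) : Prop :=
  ∃ i j k, i ≠ j ∧ i ≠ k ∧ j ≠ k ∧ x i + x j = x k

/-- A (deterministic, adaptive) algorithm in the generic group model. It either stops with an
answer, or it asks for the value of `d + c 0 * x 0 + ⋯ + c (n - 1) * x (n - 1)`, where `x` is the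
input; then it learns, for every `j`, whether the new value is equal to value number `j` among the
earlier values, and continues depending on this information. -/
inductive GenAlg (n : ℕ)
  | answer (b : Bool)
  | ask (d : ℤ) (c : Fin n → ℤ) (next : (ℕ → Bool) → GenAlg n)

/-- `Runs x A vals b t`: on the input `x`, when the list of the values obtained so far is
`vals`, the algorithm `A` gives the answer `b` after `t` more questions. -/
inductive Runs {n : ℕ} (x : Fin n → ℤ) : GenAlg n → List ℤ → Bool → ℕ → Prop
  | answer (b : Bool) (vals : List ℤ) : Runs x (GenAlg.answer b) vals b 0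
  | ask (d : ℤ) (c : Fin n → ℤ) (next : (ℕ → Bool) → GenAlg n) (vals : List ℤ) (b : Bool)
      (t : ℕ) :
      Runs x (next fun j => decide (vals[j]? = some (d + comb c x)))
        (vals ++ [d + comb c x]) b t →
      Runs x (GenAlg.ask d c next) vals b (t + 1)

/-- On the input `x` the algorithm gives the correct answer after at most `T` questions. At the
beginning the values known to the algorithm are the inputs themselves. -/
def SolvesWithin {n : ℕ} (A : GenAlg n) (x : Fin n → ℤ) (T : ℕ) : Prop :=
  ∃ b t, t ≤ T ∧ Runs x A (List.ofFn x) b t ∧ (b = true ↔ HasThreeSum x)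

open Classical in
/-- A randomised algorithm, given by a probability distribution `μ` on a finite family `A` of
algorithms, which on every input of `n` distinct integers from `[-R, R]` gives the correct answer
after at most `T` questions with probability at least `2/3`. -/
def RandomisedSolver {Ω : Type} [Fintype Ω] (n R T : ℕ) (μ : Ω → ℝ) (A : Ω → GenAlg n) : Prop :=
  (∀ ω, 0 ≤ μ ω) ∧ ∑ ω, μ ω = 1 ∧
    ∀ x : Fin n → ℤ, Function.Injective x → (∀ i, |x i| ≤ R) →
      2 / 3 ≤ ∑ ω, if SolvesWithin (A ω) x T then μ ω else 0

/-- A randomised algorithm which on every input of `n` distinct integers from `[-R, R]` always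
gives the correct answer, and whose expected number of questions on every such input is at
most `E`. -/
def ZeroErrorSolver {Ω : Type} [Fintype Ω] (n R : ℕ) (E : ℝ) (μ : Ω → ℝ) (A : Ω → GenAlg n) :
    Prop :=
  (∀ ω, 0 ≤ μ ω) ∧ ∑ ω, μ ω = 1 ∧
    ∀ x : Fin n → ℤ, Function.Injective x → (∀ i, |x i| ≤ R) →
      ∃ c : Ω → ℕ, (∀ ω, ∃ b, Runs x (A ω) (List.ofFn x) b (c ω) ∧ (b = true ↔ HasThreeSum x)) ∧
        ∑ ω, μ ω * c ω ≤ E

end Pool.Agent.ThreeSum
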