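import Pool.Agent.ThreeSum.GenericMain

/-!
Lower bound in the generic group model: conclusion.
-/

namespace Pool.Agent.ThreeSum

open Finset

variable {n : ℕ}

open Classical in
/-- The algorithms whose symbolic run answers no. -/
noncomputable def noSet {Ω : Type} [Fintype Ω] (A : Ω → GenAlg n) (T : ℕ) : Finset Ω :=
  univ.filter fun ω => outcome (A ω) T = some false

theorem card_forms_sq (A : GenAlg n) (T : ℕ) :
    ((forms A T).card : ℝ) ^ 2 ≤ ((n : ℝ) + T) ^ 2 := by
  have : ((forms A T).card : ℝ) ≤ (n : ℝ) + T := by exact_mod_cast card_forms A T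
  exact pow_le_pow_left₀ (by positivity) this 2

theorem hat_tail {y : Fin (n + 1) → ℤ} (h : y 0 = 1) : hat (Fin.tail y) = y := by
  rw [hat, ← h]
  exact Fin.cons_self_tail y

theorem sub_alternative {I : Fin (n + 1) → Finset ℤ} {K : ℕ} (hI0 : I 0 = {1})
    (hK : ∀ l, l ≠ 0 → K ≤ (I l).card) {u v : Fin (n + 1) → ℤ} (huv : u ≠ v) :
    (∃ l, (id (u - v) : Fin (n + 1) → ℤ) l ≠ 0 ∧ K ≤ (I l).card) ∨
      ∀ y ∈ Fintype.piFinset I, comb (id (u - v) : Fin (n + 1) → ℤ) y ≠ 0 := by
  by_cases h : ∃ l, l ≠ 0 ∧ (u - v) l ≠ 0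
  · obtain ⟨l, hl, h1⟩ := h
    exact Or.inl ⟨l, h1, hK l hl⟩
  · right
    push Not at h
    intro y hy h0
    rw [id, comb_eq_zero_coord _ _ fun l hl => by rw [h l hl, zero_mul]] at h0
    rw [Fintype.mem_piFinset] at hy
    have h1 := hy 0
    rw [hI0, mem_singleton] at h1
    rw [h1, mul_one] at h0
    apply huv
    funext l
    by_cases hl : l = 0
    · subst hl
      simp only [Pi.sub_apply] at h0
      linarith
    · have := h l hl
      simp only [Pi.sub_apply] at this
      linarith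

theorem subst_alternative {I : Fin (n + 1) → Finset ℤ} {K : ℕ} {i j k : Fin (n + 1)}
    (hij : i ≠ j) (hik : i ≠ k) (hjk : j ≠ k) (hI0 : I 0 = {1}) (hIk : I k = {0})
    (hK : ∀ l, l ≠ 0 → l ≠ k → K ≤ (I l).card)
    {S : Finset (Fin (n + 1) → ℤ)} (ht : {i, j, k} ∉ D3 S) {u v : Fin (n + 1) → ℤ}
    (hu : u ∈ S) (hv : v ∈ S) (huv : u ≠ v) :
    (∃ l, subst i j k (u - v) l ≠ 0 ∧ K ≤ (I l).card) ∨
      ∀ y ∈ Fintype.piFinset I, comb (subst i j k (u - v)) y ≠ 0 := by
  by_cases h : ∃ l, l ≠ 0 ∧ l ≠ k ∧ subst i j k (u - v) l ≠ 0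
  · obtain ⟨l, hl, hl', h1⟩ := h
    exact Or.inl ⟨l, h1, hK l hl hl'⟩
  · right
    push Not at h
    intro y hy h0
    rw [Fintype.mem_piFinset] at hy
    have h1 := hy 0
    have h2 := hy k
    rw [hI0, mem_singleton] at h1
    rw [hIk, mem_singleton] at h2
    rw [comb_eq_zero_coord _ _ fun l hl => by
      by_cases hlk : l = k
      · rw [hlk, h2, mul_zero]
      · rw [h l hl hlk, zero_mul]] at h0
    rw [h1, mul_one] at h0
    obtain ⟨l, hl, h3⟩ := subst_ne hij hik hjk ht hu hv huv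
    by_cases hl0 : l = 0
    · rw [hl0] at h3; exact h3 h0
    · exact h3 (h l hl0 hl)

/-- First half: the symbolic run answers no with probability almost `2/3`. -/
theorem no_part {Ω : Type} [Fintype Ω] {R T : ℕ} {μ : Ω → ℝ} {A : Ω → GenAlg n}
    (h : RandomisedSolver n R T μ A) (hn : 8 ≤ n) (hR : n ^ 3 ≤ R) :
    2 / 3 - 2 * (((n : ℝ) + T) ^ 2 / R) ≤ ∑ ω ∈ noSet A T, μ ω := by
  classical
  obtain ⟨hμ, h1, hA⟩ := h
  set I : Fin (n + 1) → Finset ℤ := fun l => if l = 0 then {1} else Icc (-(R : ℤ)) R with hI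
  have hI0 : I 0 = {1} := by simp [hI]
  have hcardI : ∀ l, l ≠ 0 → 2 * R + 1 ≤ (I l).card := by
    intro l hl
    simp only [hI, if_neg hl, Int.card_Icc]
    omega
  set Box := Fintype.piFinset I with hBox
  have hRpos : 0 < R := lt_of_lt_of_le (by positivity) hR
  have hRr : (0 : ℝ) < R := by exact_mod_cast hRpos
  have hBoxpos : 0 < Box.card := by
    rw [hBox, Fintype.card_piFinset]
    refine Finset.prod_pos fun l _ => ?_
    by_cases hl : l = 0
    · rw [hl, hI0, card_singleton]; omega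
    · have := hcardI l hl; omega
  have hB : (0 : ℝ) < Box.card := by exact_mod_cast hBoxpos
  -- counting
  have c1 := card_threeSum I (2 * R + 1) (fun l => hcardI l.succ (Fin.succ_ne_zero l))
  have c2 := card_not_sep I (2 * R + 1) (units n).toFinset id id (fun v y => rfl)
    (fun u _ v _ huv => sub_alternative hI0 hcardI huv)
  set Y := Box.filter fun y => Function.Injective (Fin.tail y) ∧ ¬ HasThreeSum (Fin.tail y)
    with hY
  have hYcard : (Box.card : ℝ) ≤ 4 * Y.card := by
    have hcov : Box ⊆ Y ∪ ((Box.filter fun y => HasThreeSum (Fin.tail y)) ∪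
        (Box.filter fun y => ¬ Sep (units n).toFinset (id y))) := by
      intro y hy
      rw [mem_union, mem_union, mem_filter, mem_filter, mem_filter]
      by_cases h2 : HasThreeSum (Fin.tail y)
      · exact Or.inr (Or.inl ⟨hy, h2⟩)
      · by_cases h3 : Sep (units n).toFinset (id y)
        · exact Or.inl ⟨hy, sep_injective h3, h2⟩
        · exact Or.inr (Or.inr ⟨hy, h3⟩)
    have h2 := (card_le_card hcov).trans ((card_union_le _ _).trans
      (Nat.add_le_add_left (card_union_le _ _) _))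
    have h3 : (units n).toFinset.card ^ 2 ≤ n ^ 2 := Nat.pow_le_pow_left card_units 2
    have h4 := Nat.mul_le_mul_right Box.card h3
    set a := (Box.filter fun y => HasThreeSum (Fin.tail y)).card with ha
    set b := (Box.filter fun y => ¬ Sep (units n).toFinset (id y)).card with hb
    have h5 : a * (2 * R + 1) ≤ n ^ 3 * Box.card := by
      refine le_trans (le_of_eq ?_) c1
      congr
    have h6 : b * (2 * R + 1) ≤ n ^ 2 * Box.card := by
      refine le_trans (le_of_eq ?_) (c2.trans h4)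
      congr
    have h7 : n ^ 2 * 8 ≤ n ^ 3 := by
      have : n ^ 3 = n ^ 2 * n := by ring
      rw [this]; exact Nat.mul_le_mul_left _ hn
    -- (a + b) (2 R + 1) ≤ (n^3 + n^2) |Box|
    have h8 : (a + b) * (2 * R + 1) ≤ (n ^ 3 + n ^ 2) * Box.card := by nlinarith
    have h9 : 4 * ((a + b) * (2 * R + 1)) ≤ 3 * Box.card * (2 * R + 1) := by
      have h10 : 4 * (n ^ 3 + n ^ 2) ≤ 3 * (2 * R + 1) := by omega
      calc 4 * ((a + b) * (2 * R + 1)) ≤ 4 * ((n ^ 3 + n ^ 2) * Box.card) :=
            Nat.mul_le_mul_left _ h8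
        _ = 4 * (n ^ 3 + n ^ 2) * Box.card := by ring
        _ ≤ 3 * (2 * R + 1) * Box.card := Nat.mul_le_mul_right _ h10
        _ = 3 * Box.card * (2 * R + 1) := by ring
    have h11 : 4 * (a + b) ≤ 3 * Box.card := by
      have : 4 * (a + b) * (2 * R + 1) ≤ 3 * Box.card * (2 * R + 1) := by
        rw [mul_assoc]; exact h9
      exact Nat.le_of_mul_le_mul_right this (by omega)
    have h12 : Box.card ≤ 4 * Y.card := by omega
    exact_mod_cast h12
  have key := averaging Y μ hμ h1 (fun ω y => SolvesWithin (A ω) (Fin.tail y) T) (noSet A T)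
    (((n : ℝ) + T) ^ 2 / (2 * R + 1) * Box.card) (by positivity) ?_ ?_
  · -- conclusion
    have hYpos : (0 : ℝ) < Y.card := by linarith
    set p := ∑ ω ∈ noSet A T, μ ω
    have h2 : ((n : ℝ) + T) ^ 2 / (2 * R + 1) * Box.card ≤
        2 * (((n : ℝ) + T) ^ 2 / R) * Y.card := by
      have h3 : ((n : ℝ) + T) ^ 2 / (2 * R + 1) ≤ ((n : ℝ) + T) ^ 2 / (2 * R) := by
        apply div_le_div_of_nonneg_left (by positivity) (by positivity) (by linarith)
      have h4 : ((n : ℝ) + T) ^ 2 / (2 * R) = (((n : ℝ) + T) ^ 2 / R) / 2 := by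
        field_simp
      have h5 : 0 ≤ ((n : ℝ) + T) ^ 2 / R := by positivity
      calc ((n : ℝ) + T) ^ 2 / (2 * R + 1) * Box.card
          ≤ (((n : ℝ) + T) ^ 2 / R) / 2 * Box.card := by
            rw [← h4]; exact mul_le_mul_of_nonneg_right h3 hB.le
        _ ≤ (((n : ℝ) + T) ^ 2 / R) / 2 * (4 * Y.card) :=
            mul_le_mul_of_nonneg_left hYcard (by positivity)
        _ = 2 * (((n : ℝ) + T) ^ 2 / R) * Y.card := by ring
    have h6 : 2 / 3 * (Y.card : ℝ) ≤ (2 * (((n : ℝ) + T) ^ 2 / R) + p) * Y.card := by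
      rw [add_mul]; linarith
    have h7 := le_of_mul_le_mul_right h6 hYpos
    linarith
  · intro y hy
    rw [hY, mem_filter, hBox, Fintype.mem_piFinset] at hy
    refine hA (Fin.tail y) hy.2.1 fun i => ?_
    have := hy.1 i.succ
    simp only [hI, if_neg (Fin.succ_ne_zero i), mem_Icc] at this
    exact abs_le.2 this
  · intro ω hω
    have c3 := card_not_sep I (2 * R + 1) (forms (A ω) T) id id (fun v y => rfl)
      (fun u _ v _ huv => sub_alternative hI0 hcardI huv)
    have hsub : (Y.filter fun y => SolvesWithin (A ω) (Fin.tail y) T) ⊆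
        Box.filter fun y => ¬ Sep (forms (A ω) T) (id y) := by
      intro y hy
      rw [mem_filter, hY, mem_filter] at hy
      rw [mem_filter]
      refine ⟨hy.1.1, fun hsep => hω ?_⟩
      have hy0 : y 0 = 1 := by
        have h2 := hy.1.1
        rw [hBox, Fintype.mem_piFinset] at h2
        have h3 := h2 0
        rwa [hI0, mem_singleton] at h3
      have hsep' : Sep (forms (A ω) T) (hat (Fin.tail y)) := by rw [hat_tail hy0]; exact hsep
      obtain ⟨b, hb1, hb2⟩ := solves_iff hsep' hy.2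
      rw [noSet, mem_filter]
      refine ⟨mem_univ _, ?_⟩
      rw [hb1]
      cases b with
      | false => rfl
      | true => exact absurd (hb2.1 rfl) hy.1.2.2
    have h2 := card_le_card hsub
    have h3 : ((Y.filter fun y => SolvesWithin (A ω) (Fin.tail y) T).card : ℝ) * (2 * R + 1) ≤
        ((n : ℝ) + T) ^ 2 * Box.card := by
      have h4 := (Nat.mul_le_mul_right (2 * R + 1) h2).trans c3
      have h5 : (((Y.filter fun y => SolvesWithin (A ω) (Fin.tail y) T).card * (2 * R + 1) : ℕ) : ℝ) ≤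
          (((forms (A ω) T).card ^ 2 * Box.card : ℕ) : ℝ) := by exact_mod_cast h4
      push_cast at h5
      exact h5.trans (mul_le_mul_of_nonneg_right (card_forms_sq _ _) hB.le)
    rw [div_mul_eq_mul_div, le_div_iff₀ (by positivity)]
    exact h3

/-- Second half: every triple is determined by the symbolic run with probability almost `1/3`. -/
theorem yes_part {Ω : Type} [Fintype Ω] {R T : ℕ} {μ : Ω → ℝ} {A : Ω → GenAlg n}
    (h : RandomisedSolver n R T μ A) (hn : 8 ≤ n) (hR : n ^ 3 ≤ R)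
    (i' j' k' : Fin n) (hij' : i' ≠ j') (hik' : i' ≠ k') (hjk' : j' ≠ k') :
    2 / 3 - 2 * (((n : ℝ) + T) ^ 2 / R) - (1 - ∑ ω ∈ noSet A T, μ ω) ≤
      letI := Classical.decPred (fun ω => {i'.succ, j'.succ, k'.succ} ∈ D3 (forms (A ω) T))
      ∑ ω ∈ (noSet A T).filter
        (fun ω => {i'.succ, j'.succ, k'.succ} ∈ D3 (forms (A ω) T)), μ ω := by
  classical
  obtain ⟨i, hi⟩ : ∃ i, i = i'.succ := ⟨_, rfl⟩
  obtain ⟨j, hj⟩ : ∃ j, j = j'.succ := ⟨_, rfl⟩
  obtain ⟨k, hk⟩ : ∃ k, k = k'.succ := ⟨_, rfl⟩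
  have hij : i ≠ j := by rw [hi, hj]; exact fun e => hij' (Fin.succ_injective _ e)
  have hik : i ≠ k := by rw [hi, hk]; exact fun e => hik' (Fin.succ_injective _ e)
  have hjk : j ≠ k := by rw [hj, hk]; exact fun e => hjk' (Fin.succ_injective _ e)
  have hk0 : k ≠ 0 := by rw [hk]; exact Fin.succ_ne_zero _
  have hi0 : i ≠ 0 := by rw [hi]; exact Fin.succ_ne_zero _
  have hj0 : j ≠ 0 := by rw [hj]; exact Fin.succ_ne_zero _
  rw [← hi, ← hj, ← hk]
  obtain ⟨hμ, h1, hA⟩ := h
  set I : Fin (n + 1) → Finset ℤ := fun l => if l = 0 then {1} else if l = k then {0} else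
    Icc (-((R / 2 : ℕ) : ℤ)) (R / 2 : ℕ) with hI
  have hI0 : I 0 = {1} := by simp [hI]
  have hIk : I k = {0} := by simp [hI, hk0]
  have hcardI : ∀ l, l ≠ 0 → l ≠ k → R ≤ (I l).card := by
    intro l hl0 hl
    simp only [hI, if_neg hl, if_neg hl0, Int.card_Icc]
    omega
  set Box := Fintype.piFinset I with hBox
  have hRpos : 0 < R := lt_of_lt_of_le (by positivity) hR
  have hRr : (0 : ℝ) < R := by exact_mod_cast hRpos
  have hBoxpos : 0 < Box.card := by
    rw [hBox, Fintype.card_piFinset]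
    refine Finset.prod_pos fun l _ => ?_
    by_cases hl0 : l = 0
    · rw [hl0, hI0, card_singleton]; omega
    by_cases hl : l = k
    · rw [hl, hIk, card_singleton]; omega
    · have := hcardI l hl0 hl; omega
  have hB : (0 : ℝ) < Box.card := by exact_mod_cast hBoxpos
  set φ : (Fin (n + 1) → ℤ) → (Fin (n + 1) → ℤ) := fun y => Function.update y k (y i + y j)
    with hφ
  have c2 := card_not_sep I R (units n).toFinset φ (subst i j k) (fun v y => comb_subst i j k v y)
    (fun u hu v hv huv => subst_alternative hij hik hjk hI0 hIk hcardI (units_D3 _) hu hv huv)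
  set Y := Box.filter fun y => Function.Injective (Fin.tail (φ y)) with hY
  have hYcard : (Box.card : ℝ) ≤ 2 * Y.card := by
    have hcov : Box ⊆ Y ∪ (Box.filter fun y => ¬ Sep (units n).toFinset (φ y)) := by
      intro y hy
      rw [mem_union, mem_filter, mem_filter]
      by_cases h3 : Sep (units n).toFinset (φ y)
      · exact Or.inl ⟨hy, sep_injective h3⟩
      · exact Or.inr ⟨hy, h3⟩
    have h2 := (card_le_card hcov).trans (card_union_le _ _)
    have h3 : (units n).toFinset.card ^ 2 ≤ n ^ 2 := Nat.pow_le_pow_left card_units 2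
    have h4 := c2.trans (Nat.mul_le_mul_right Box.card h3)
    set b := (Box.filter fun y => ¬ Sep (units n).toFinset (φ y)).card with hb
    have h7 : n ^ 2 * 8 ≤ n ^ 3 := by
      have : n ^ 3 = n ^ 2 * n := by ring
      rw [this]; exact Nat.mul_le_mul_left _ hn
    have h8 : 2 * b * R ≤ Box.card * R := by
      calc 2 * b * R = 2 * (b * R) := by ring
        _ ≤ 2 * (n ^ 2 * Box.card) := Nat.mul_le_mul_left _ h4
        _ = (2 * n ^ 2) * Box.card := by ring
        _ ≤ R * Box.card := Nat.mul_le_mul_right _ (by omega)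
        _ = Box.card * R := by ring
    have h9 : 2 * b ≤ Box.card := Nat.le_of_mul_le_mul_right h8 hRpos
    have h12 : Box.card ≤ 2 * Y.card := by omega
    exact_mod_cast h12
  set G : Finset Ω := univ.filter fun ω => ¬ (ω ∈ noSet A T ∧ {i, j, k} ∉ D3 (forms (A ω) T))
    with hG
  have key := averaging Y μ hμ h1 (fun ω y => SolvesWithin (A ω) (Fin.tail (φ y)) T) G
    (((n : ℝ) + T) ^ 2 / R * Box.card)
    (mul_nonneg (div_nonneg (sq_nonneg _) hRr.le) hB.le) ?_ ?_
  · have hYpos : (0 : ℝ) < Y.card := by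
      have h0 : (0 : ℝ) < 2 * Y.card := lt_of_lt_of_le hB hYcard
      exact (mul_pos_iff_of_pos_left two_pos).1 h0
    clear hi hj hk hij' hik' hjk'
    have hGsum : ∑ ω ∈ G, μ ω = (1 - ∑ ω ∈ noSet A T, μ ω) +
        ∑ ω ∈ (noSet A T).filter (fun ω => {i, j, k} ∈ D3 (forms (A ω) T)), μ ω := by
      have e1 : G = (univ \ noSet A T) ∪
          (noSet A T).filter (fun ω => {i, j, k} ∈ D3 (forms (A ω) T)) := by
        ext ω
        simp only [hG, mem_filter, mem_univ, true_and, mem_union, mem_sdiff]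
        tauto
      have e2 : Disjoint (univ \ noSet A T)
          ((noSet A T).filter (fun ω => {i, j, k} ∈ D3 (forms (A ω) T))) := by
        rw [disjoint_left]
        intro ω h2 h3
        rw [mem_sdiff] at h2
        rw [mem_filter] at h3
        exact h2.2 h3.1
      rw [e1, sum_union e2]
      congr 1
      rw [← h1, ← sum_sdiff (subset_univ (noSet A T))]
      ring
    rw [hGsum] at key
    set p := ∑ ω ∈ noSet A T, μ ω
    set q := ∑ ω ∈ (noSet A T).filter (fun ω => {i, j, k} ∈ D3 (forms (A ω) T)), μ ω with hq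
    have h5 : 0 ≤ ((n : ℝ) + T) ^ 2 / R := by positivity
    have h2 : ((n : ℝ) + T) ^ 2 / R * Box.card ≤ 2 * (((n : ℝ) + T) ^ 2 / R) * Y.card := by
      calc ((n : ℝ) + T) ^ 2 / R * Box.card ≤ ((n : ℝ) + T) ^ 2 / R * (2 * Y.card) :=
            mul_le_mul_of_nonneg_left hYcard h5
        _ = 2 * (((n : ℝ) + T) ^ 2 / R) * Y.card := by ring
    have h6 : 2 / 3 * (Y.card : ℝ) ≤ (2 * (((n : ℝ) + T) ^ 2 / R) + ((1 - p) + q)) * Y.card := by
      rw [add_mul]; linarith
    have h7 := le_of_mul_le_mul_right h6 hYpos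
    have h8 : 2 / 3 - 2 * (((n : ℝ) + T) ^ 2 / R) - (1 - p) ≤ q := by linarith
    refine h8.trans (le_of_eq ?_)
    rw [hq]
    congr
  · intro y hy
    rw [hY, mem_filter, hBox, Fintype.mem_piFinset] at hy
    refine hA (Fin.tail (φ y)) hy.2 fun l' => ?_
    have hb : ∀ l, l ≠ 0 → l ≠ k → |y l| ≤ ((R / 2 : ℕ) : ℤ) := by
      intro l hl0 hl
      have := hy.1 l
      simp only [hI, if_neg hl, if_neg hl0, mem_Icc] at this
      exact abs_le.2 this
    rw [Fin.tail]
    obtain ⟨l, hl'⟩ : ∃ l, l = l'.succ := ⟨_, rfl⟩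
    rw [← hl']
    have hl0 : l ≠ 0 := by rw [hl']; exact Fin.succ_ne_zero _
    by_cases hl : l = k
    · rw [hl]
      simp only [hφ, Function.update_self]
      have h2 := hb i hi0 hik
      have h3 := hb j hj0 hjk
      have h4 := abs_add_le (y i) (y j)
      omega
    · simp only [hφ, Function.update_of_ne hl]
      have := hb l hl0 hl
      omega
  · intro ω hω
    rw [hG, mem_filter, not_and, not_not] at hω
    obtain ⟨hω1, hω2⟩ := hω (mem_univ _)
    have c3 := card_not_sep I R (forms (A ω) T) φ (subst i j k)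
      (fun v y => comb_subst i j k v y) (fun u hu v hv huv =>
        subst_alternative hij hik hjk hI0 hIk hcardI hω2 hu hv huv)
    have hsub : (Y.filter fun y => SolvesWithin (A ω) (Fin.tail (φ y)) T) ⊆
        Box.filter fun y => ¬ Sep (forms (A ω) T) (φ y) := by
      intro y hy
      rw [mem_filter, hY, mem_filter] at hy
      rw [mem_filter]
      refine ⟨hy.1.1, fun hsep => ?_⟩
      have hy0 : (φ y) 0 = 1 := by
        have h2 := hy.1.1
        rw [hBox, Fintype.mem_piFinset] at h2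
        have h3 := h2 0
        rw [hI0, mem_singleton] at h3
        simp only [hφ, Function.update_of_ne hk0.symm]
        exact h3
      have hsep' : Sep (forms (A ω) T) (hat (Fin.tail (φ y))) := by
        rw [hat_tail hy0]; exact hsep
      obtain ⟨b, hb1, hb2⟩ := solves_iff hsep' hy.2
      rw [noSet, mem_filter] at hω1
      rw [hω1.2] at hb1
      simp only [Option.some.injEq] at hb1
      subst hb1
      have hsum : HasThreeSum (Fin.tail (φ y)) := by
        refine ⟨i', j', k', hij', hik', hjk', ?_⟩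
        simp only [Fin.tail, ← hi, ← hj, ← hk]
        simp only [hφ, Function.update_self, Function.update_of_ne hik, Function.update_of_ne hjk]
      exact absurd (hb2.2 hsum) (by simp)
    have h2 := card_le_card hsub
    have h3 : ((Y.filter fun y => SolvesWithin (A ω) (Fin.tail (φ y)) T).card : ℝ) * R ≤
        ((n : ℝ) + T) ^ 2 * Box.card := by
      have h4 := (Nat.mul_le_mul_right R h2).trans c3
      have h5 : (((Y.filter fun y => SolvesWithin (A ω) (Fin.tail (φ y)) T).card * R : ℕ) : ℝ) ≤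
          (((forms (A ω) T).card ^ 2 * Box.card : ℕ) : ℝ) := by exact_mod_cast h4
      push_cast at h5
      exact h5.trans (mul_le_mul_of_nonneg_right (card_forms_sq _ _) hB.le)
    rw [div_mul_eq_mul_div, le_div_iff₀ hRr]
    exact h3

/-- **Lower bound in the generic group model.** -/
theorem generic_lower_bound {Ω : Type} [Fintype Ω] {R T : ℕ} {μ : Ω → ℝ} {A : Ω → GenAlg n}
    (h : RandomisedSolver n R T μ A) (hn : 400 ≤ n) (hR : n ^ 3 ≤ R) :
    min (n ^ 2) (Nat.sqrt R) ≤ 200 * T := by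
  classical
  by_contra hcon
  rw [not_le, lt_min_iff] at hcon
  obtain ⟨hT1, hT2⟩ := hcon
  have hRpos : 0 < R := lt_of_lt_of_le (by positivity) hR
  have hRr : (0 : ℝ) < R := by exact_mod_cast hRpos
  have hnr : (400 : ℝ) ≤ n := by exact_mod_cast hn
  have hT3 : (200 * T) * (200 * T) ≤ R := by
    have h1 := Nat.sqrt_le' R
    have h2 : (200 * T) * (200 * T) ≤ Nat.sqrt R * Nat.sqrt R :=
      Nat.mul_le_mul hT2.le hT2.le
    nlinarith
  have hT3r : (200 * (T : ℝ)) * (200 * T) ≤ R := by exact_mod_cast hT3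
  have hT1r : 200 * (T : ℝ) < (n : ℝ) ^ 2 := by exact_mod_cast hT1
  have hRn : (n : ℝ) ^ 3 ≤ R := by exact_mod_cast hR
  have heps : ((n : ℝ) + T) ^ 2 / R ≤ 1 / 150 := by
    rw [div_le_iff₀ hRr]
    have h1 : ((n : ℝ) + T) ^ 2 ≤ 2 * (n : ℝ) ^ 2 + 2 * (T : ℝ) ^ 2 := by
      nlinarith [sq_nonneg ((n : ℝ) - T)]
    have h2 : 400 * (n : ℝ) ^ 2 ≤ R := by nlinarith
    nlinarith
  set ε := ((n : ℝ) + T) ^ 2 / R
  have hno := no_part h (by omega) hR
  set σ : Finset (Fin n) → Finset (Fin (n + 1)) := fun t => t.map (Fin.succEmb n) with hσ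
  have hσinj : Function.Injective σ := Finset.map_injective _
  have hyes : ∀ t ∈ powersetCard 3 (univ : Finset (Fin n)), (0.3 : ℝ) ≤
      ∑ ω ∈ (noSet A T).filter (fun ω => σ t ∈ D3 (forms (A ω) T)), μ ω := by
    intro t ht
    rw [mem_powersetCard] at ht
    obtain ⟨i, j, k, hij, hik, hjk, rfl⟩ := card_eq_three.1 ht.2
    have h2 := yes_part h (by omega) hR i j k hij hik hjk
    have e : σ {i, j, k} = {i.succ, j.succ, k.succ} := by
      simp only [hσ, map_insert, map_singleton]
      rfl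
    rw [e]
    have h3 : (0.3 : ℝ) ≤ 2 / 3 - 2 * ε - (1 - ∑ ω ∈ noSet A T, μ ω) := by
      have : (0.3 : ℝ) ≤ 2 / 3 - 2 * ε - (1 - (2 / 3 - 2 * ε)) := by norm_num; linarith
      linarith
    refine h3.trans (h2.trans (le_of_eq ?_))
    congr
  have hsum := Finset.sum_le_sum hyes
  rw [Finset.sum_const, nsmul_eq_mul, card_powersetCard, card_univ, Fintype.card_fin] at hsum
  have hswap : ∑ t ∈ powersetCard 3 (univ : Finset (Fin n)),
      ∑ ω ∈ (noSet A T).filter (fun ω => σ t ∈ D3 (forms (A ω) T)), μ ω ≤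
        5 * (n + 1) * ((n : ℝ) + T) := by
    have h2 : ∀ t : Finset (Fin n), ∑ ω ∈ (noSet A T).filter
        (fun ω => σ t ∈ D3 (forms (A ω) T)), μ ω =
        ∑ ω ∈ noSet A T, if σ t ∈ D3 (forms (A ω) T) then μ ω else 0 := fun t => by
      rw [Finset.sum_filter]
    simp only [h2]
    rw [Finset.sum_comm]
    have h3 : ∀ ω ∈ noSet A T, (∑ t ∈ powersetCard 3 (univ : Finset (Fin n)),
        if σ t ∈ D3 (forms (A ω) T) then μ ω else 0) ≤ μ ω * (5 * (n + 1) * ((n : ℝ) + T)) := by
      intro ω _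
      rw [← Finset.sum_filter, Finset.sum_const, nsmul_eq_mul, mul_comm]
      refine mul_le_mul_of_nonneg_left ?_ (h.1 ω)
      have h4 : ((powersetCard 3 (univ : Finset (Fin n))).filter
          fun t => σ t ∈ D3 (forms (A ω) T)).card ≤ 5 * (n + 1) * (n + T) := by
        refine (card_le_card_of_injOn (t := D3 (forms (A ω) T)) σ ?_ hσinj.injOn).trans
          ((card_D3_le (by omega) _).trans (Nat.mul_le_mul_left _ (card_forms _ _)))
        intro t ht
        rw [mem_coe, mem_filter] at ht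
        exact ht.2
      exact_mod_cast h4
    refine (Finset.sum_le_sum h3).trans ?_
    rw [← Finset.sum_mul]
    have h5 : ∑ ω ∈ noSet A T, μ ω ≤ 1 := by
      rw [← h.2.1]
      exact Finset.sum_le_sum_of_subset_of_nonneg (subset_univ _) fun ω _ _ => h.1 ω
    have h6 : (0 : ℝ) ≤ 5 * (n + 1) * ((n : ℝ) + T) := by positivity
    nlinarith
  have hchoose : ((n.choose 3 : ℕ) : ℝ) = n * (n - 1) * (n - 2) / 6 := by
    have h2 : n.choose 3 * 6 = n * (n - 1) * (n - 2) := by
      have := Nat.descFactorial_eq_factorial_mul_choose n 3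
      simp only [Nat.descFactorial, Nat.factorial] at this
      rw [mul_comm]
      calc 6 * n.choose 3 = (2 + 1) * ((1 + 1) * ((0 + 1) * 1)) * n.choose 3 := by ring
        _ = _ := by rw [← this]; simp; ring
    have h3 : ((n.choose 3 * 6 : ℕ) : ℝ) = ((n * (n - 1) * (n - 2) : ℕ) : ℝ) := by rw [h2]
    push_cast [Nat.cast_sub (show 1 ≤ n by omega), Nat.cast_sub (show 2 ≤ n by omega)] at h3
    linarith
  rw [hchoose] at hsum
  have hfin := hsum.trans hswap
  have h7 : ((n : ℝ) - 1) * (n - 2) ≤ 101 * (n + T) := by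
    have h8 : n * (((n : ℝ) - 1) * (n - 2)) ≤ n * (101 * (n + T)) := by
      have e : (n : ℝ) * (n - 1) * (n - 2) / 6 * 0.3 = n * (((n : ℝ) - 1) * (n - 2)) * 0.05 := by
        ring
      rw [e] at hfin
      have e2 : (5 : ℝ) * (n + 1) * (n + T) ≤ n * (101 * (n + T)) * 0.05 := by
        have e3 : (5 : ℝ) * (n + 1) ≤ n * 101 * 0.05 := by linarith
        have e4 : (0 : ℝ) ≤ n + T := by positivity
        nlinarith
      linarith
    exact le_of_mul_le_mul_left h8 (by linarith)
  nlinarith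

end Pool.Agent.ThreeSum
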