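import Pool.Agent.ThreeSum.GenericUpper

/-!
The three-sum problem in the generic group model: quadratic lower bound.
-/

namespace Pool.Agent.ThreeSum.GenericGroupResult

open Pool.Agent.ThreeSum

/-- Quadratic lower bound for three-sum in the generic group model (arbitrary integer affine
combinations of the inputs, free equality tests between all computed values), for bounded-error
algorithms and for zero-error algorithms with bounded expected number of questions, together with
the matching upper bound. -/
theorem result :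
    (∀ (Ω : Type) [Fintype Ω] (n R T : ℕ) (μ : Ω → ℝ) (A : Ω → GenAlg n),
      400 ≤ n → n ^ 3 ≤ R → RandomisedSolver n R T μ A → min (n ^ 2) (Nat.sqrt R) ≤ 200 * T) ∧
    (∀ (Ω : Type) [Fintype Ω] (n R : ℕ) (E : ℝ) (μ : Ω → ℝ) (A : Ω → GenAlg n),
      400 ≤ n → n ^ 3 ≤ R → ZeroErrorSolver n R E μ A →
        ((min (n ^ 2) (Nat.sqrt R) : ℕ) : ℝ) ≤ 600 * E) ∧
    ∀ n : ℕ, ∃ A : GenAlg n, ∀ x : Fin n → ℤ, SolvesWithin A x (n ^ 2) :=
  ⟨fun _ _ _ _ _ _ _ hn hR h => generic_lower_bound h hn hR,
    fun _ _ _ _ _ _ _ hn hR h => zero_error_bound h hn hR,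
    exists_solver⟩

end Pool.Agent.ThreeSum.GenericGroupResult
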