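import Pool.Agent.ThreeSum.GenericProof

/-!
Lower bound in the generic group model: the averaging argument.
-/

namespace Pool.Agent.ThreeSum

open Finset

variable {n : ℕ}

open Classical in
/-- The averaging argument. -/
theorem averaging {Ω ι : Type} [Fintype Ω] (Y : Finset ι) (μ : Ω → ℝ) (hμ : ∀ ω, 0 ≤ μ ω)
    (h1 : ∑ ω, μ ω = 1) (P : Ω → ι → Prop) (G : Finset Ω) (e : ℝ) (he : 0 ≤ e)
    (h : ∀ y ∈ Y, 2 / 3 ≤ ∑ ω, if P ω y then μ ω else 0)
    (hG : ∀ ω, ω ∉ G → ((Y.filter fun y => P ω y).card : ℝ) ≤ e) :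
    2 / 3 * (Y.card : ℝ) ≤ e + (∑ ω ∈ G, μ ω) * Y.card := by
  have h2 : ∑ _y ∈ Y, (2 / 3 : ℝ) ≤ ∑ y ∈ Y, ∑ ω, if P ω y then μ ω else 0 :=
    Finset.sum_le_sum h
  rw [Finset.sum_const, nsmul_eq_mul, Finset.sum_comm] at h2
  have h3 : ∀ ω, (∑ y ∈ Y, if P ω y then μ ω else 0) = μ ω * (Y.filter fun y => P ω y).card := by
    intro ω
    rw [← Finset.sum_filter, Finset.sum_const, nsmul_eq_mul, mul_comm]
  simp only [h3] at h2
  have h4 : ∀ ω, μ ω * ((Y.filter fun y => P ω y).card : ℝ) ≤
      μ ω * e + (if ω ∈ G then μ ω * Y.card else 0) := by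
    intro ω
    split_ifs with hω
    · have : ((Y.filter fun y => P ω y).card : ℝ) ≤ Y.card := by
        exact_mod_cast card_filter_le _ _
      have := mul_le_mul_of_nonneg_left this (hμ ω)
      have := mul_nonneg (hμ ω) he
      linarith
    · have := mul_le_mul_of_nonneg_left (hG ω hω) (hμ ω)
      linarith
  have h5 := Finset.sum_le_sum fun ω (_ : ω ∈ (univ : Finset Ω)) => h4 ω
  rw [Finset.sum_add_distrib, ← Finset.sum_mul, h1, one_mul, ← Finset.sum_filter] at h5
  have h6 : ∑ ω ∈ univ.filter (fun ω => ω ∈ G), μ ω * (Y.card : ℝ) = (∑ ω ∈ G, μ ω) * Y.card := by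
    rw [Finset.sum_mul]
    congr 1
    ext ω; simp
  rw [h6] at h5
  linarith

theorem comb_add {m : ℕ} (u v x : Fin m → ℤ) : comb (u + v) x = comb u x + comb v x := by
  simp [comb, add_mul, Finset.sum_add_distrib]

theorem comb_smul {m : ℕ} (a : ℤ) (u x : Fin m → ℤ) : comb (a • u) x = a * comb u x := by
  simp [comb, Finset.mul_sum, mul_assoc]

theorem hasThreeSum_comb {m : ℕ} {x : Fin m → ℤ} {i j k : Fin m}
    (h : x i + x j = x k) :
    comb (Pi.single i 1 + Pi.single j 1 - Pi.single k 1) x = 0 := by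
  rw [comb_sub, comb_add, comb_single, comb_single, comb_single]
  linarith

/-- The inputs with a solution are rare in a box. -/
theorem card_threeSum (I : Fin (n + 1) → Finset ℤ) (K : ℕ)
    (hK : ∀ l : Fin n, K ≤ (I l.succ).card) :
    letI := Classical.decPred (fun y : Fin (n + 1) → ℤ => HasThreeSum (Fin.tail y))
    ((Fintype.piFinset I).filter fun y => HasThreeSum (Fin.tail y)).card * K ≤
      n ^ 3 * (Fintype.piFinset I).card := by
  classical
  have h1 : ((Fintype.piFinset I).filter fun y => HasThreeSum (Fin.tail y)) ⊆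
      ((univ : Finset (Fin n × Fin n × Fin n)).filter fun p => p.1 ≠ p.2.2 ∧ p.2.1 ≠ p.2.2).biUnion
        fun p => (Fintype.piFinset I).filter fun y =>
          comb (Pi.single p.1.succ 1 + Pi.single p.2.1.succ 1 - Pi.single p.2.2.succ 1) y = 0 := by
    intro y hy
    rw [mem_filter] at hy
    obtain ⟨i, j, k, _, hik, hjk, h⟩ := hy.2
    rw [mem_biUnion]
    refine ⟨(i, j, k), by rw [mem_filter]; exact ⟨mem_univ _, hik, hjk⟩, ?_⟩
    rw [mem_filter]
    exact ⟨hy.1, hasThreeSum_comb h⟩
  have h2 : ((Fintype.piFinset I).filter fun y => HasThreeSum (Fin.tail y)).card * K ≤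
      ∑ p ∈ ((univ : Finset (Fin n × Fin n × Fin n)).filter
        fun p => p.1 ≠ p.2.2 ∧ p.2.1 ≠ p.2.2),
        ((Fintype.piFinset I).filter fun y =>
          comb (Pi.single p.1.succ 1 + Pi.single p.2.1.succ 1 - Pi.single p.2.2.succ 1) y =
            0).card * K := by
    rw [← Finset.sum_mul]
    exact Nat.mul_le_mul_right _ ((card_le_card h1).trans card_biUnion_le)
  have h3 : ∀ p ∈ ((univ : Finset (Fin n × Fin n × Fin n)).filter
        fun p => p.1 ≠ p.2.2 ∧ p.2.1 ≠ p.2.2),
      ((Fintype.piFinset I).filter fun y =>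
          comb (Pi.single p.1.succ 1 + Pi.single p.2.1.succ 1 - Pi.single p.2.2.succ 1) y =
            0).card * K ≤ (Fintype.piFinset I).card := by
    intro p hp
    rw [mem_filter] at hp
    refine (Nat.mul_le_mul_left _ (hK p.2.2)).trans (card_hyperplane I _ p.2.2.succ ?_)
    have e1 : p.2.2.succ ≠ p.1.succ := fun e => hp.2.1 (Fin.succ_injective _ e).symm
    have e2 : p.2.2.succ ≠ p.2.1.succ := fun e => hp.2.2 (Fin.succ_injective _ e).symm
    simp [e1, e2]
  have h4 := Finset.sum_le_sum h3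
  rw [Finset.sum_const, smul_eq_mul] at h4
  refine (h2.trans h4).trans (Nat.mul_le_mul_right _ ?_)
  refine (card_filter_le _ _).trans ?_
  rw [card_univ]
  simp only [Fintype.card_prod, Fintype.card_fin]
  exact le_of_eq (by ring)

theorem mem_units (i : Fin n) : (Pi.single i.succ 1 : Fin (n + 1) → ℤ) ∈ (units n).toFinset := by
  rw [List.mem_toFinset, units, List.mem_ofFn]
  exact ⟨i, rfl⟩

theorem sep_injective {x : Fin (n + 1) → ℤ} (h : Sep (units n).toFinset x) :
    Function.Injective (Fin.tail x) := by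
  intro i j hij
  have h1 := h _ (mem_units i) _ (mem_units j) (by rw [comb_single, comb_single]; exact hij)
  by_contra hne
  have h2 := congrFun h1 i.succ
  have h3 : i.succ ≠ j.succ := fun e => hne (Fin.succ_injective _ e)
  simp [h3] at h2

theorem card_units : ((units n).toFinset).card ≤ n := by
  refine (List.toFinset_card_le _).trans ?_
  simp [units]

theorem comb_eq_zero_coord (w y : Fin (n + 1) → ℤ) (h : ∀ l, l ≠ 0 → w l * y l = 0) :
    comb w y = w 0 * y 0 := by
  rw [comb]
  exact Finset.sum_eq_single 0 (fun l _ hl => h l hl) (fun h => absurd (mem_univ _) h)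

/-- The substitution used for the planted inputs. -/
def subst {m : ℕ} (i j k : Fin m) (v : Fin m → ℤ) : Fin m → ℤ :=
  v + v k • (Pi.single i 1 + Pi.single j 1 - Pi.single k 1)

theorem comb_subst {m : ℕ} (i j k : Fin m) (v y : Fin m → ℤ) :
    comb v (Function.update y k (y i + y j)) = comb (subst i j k v) y := by
  rw [comb_update, subst, comb_add, comb_smul, comb_sub, comb_add, comb_single, comb_single,
    comb_single]

theorem subst_ne {m : ℕ} {i j k : Fin m} (hij : i ≠ j) (hik : i ≠ k) (hjk : j ≠ k)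
    {S : Finset (Fin m → ℤ)} (ht : {i, j, k} ∉ D3 S) {u v : Fin m → ℤ} (hu : u ∈ S) (hv : v ∈ S)
    (huv : u ≠ v) : ∃ l, l ≠ k ∧ subst i j k (u - v) l ≠ 0 := by
  by_contra hcon
  push Not at hcon
  have hi := hcon i hik
  have hj := hcon j hjk
  have hl : ∀ l, l ≠ i → l ≠ j → l ≠ k → (u - v) l = 0 := by
    intro l h1 h2 h3
    have := hcon l h3
    simpa [subst, h1, h2, h3] using this
  simp only [subst, Pi.add_apply, Pi.smul_apply, Pi.sub_apply, Pi.single_eq_same, smul_eq_mul,
    Pi.single_eq_of_ne hij, Pi.single_eq_of_ne hik] at hi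
  simp only [subst, Pi.add_apply, Pi.smul_apply, Pi.sub_apply, Pi.single_eq_same, smul_eq_mul,
    Pi.single_eq_of_ne hij.symm, Pi.single_eq_of_ne hjk] at hj
  have hk : u k - v k ≠ 0 := by
    intro hk
    rw [hk] at hi hj
    apply huv
    funext l
    by_cases h1 : l = i
    · subst h1; linarith
    by_cases h2 : l = j
    · subst h2; linarith
    by_cases h3 : l = k
    · subst h3; linarith
    have := hl l h1 h2 h3
    simp only [Pi.sub_apply] at this
    linarith
  apply ht
  rw [mem_D3]
  refine ⟨?_, u, hu, v, hv, ?_⟩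
  · rw [card_insert_of_notMem (by simp [hij, hik]), card_insert_of_notMem (by simp [hjk]),
      card_singleton]
  · ext l
    rw [mem_diff]
    simp only [mem_insert, mem_singleton]
    constructor
    · intro h
      by_contra hcon2
      push Not at hcon2
      have := hl l hcon2.1 hcon2.2.1 hcon2.2.2
      simp only [Pi.sub_apply] at this
      exact h (by linarith)
    · rintro (rfl | rfl | rfl)
      · intro h; apply hk; linarith
      · intro h; apply hk; linarith
      · intro h; apply hk; linarith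

theorem units_D3 (t : Finset (Fin (n + 1))) : t ∉ D3 (units n).toFinset := by
  intro h
  rw [mem_D3] at h
  obtain ⟨h3, s, hs, s', hs', hd⟩ := h
  rw [List.mem_toFinset, units, List.mem_ofFn] at hs hs'
  obtain ⟨a, rfl⟩ := hs
  obtain ⟨b, rfl⟩ := hs'
  have : diff (Pi.single a.succ 1) (Pi.single b.succ 1 : Fin (n + 1) → ℤ) ⊆
      {a.succ, b.succ} := by
    intro x hx
    rw [mem_diff] at hx
    by_contra hcon
    simp only [mem_insert, mem_singleton, not_or] at hcon
    apply hx
    simp [hcon.1, hcon.2]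
  have := card_le_card this
  have h2 : ({a.succ, b.succ} : Finset (Fin (n + 1))).card ≤ 2 := card_le_two
  rw [hd, h3] at this
  omega

end Pool.Agent.ThreeSum
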