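import Pool.Agent.ThreeSum.GenericDefs
import Pool.Agent.ThreeSum.Diff

/-!
Lower bound in the generic group model.
-/

namespace Pool.Agent.ThreeSum

open Finset

variable {n : ℕ}

theorem Runs.det {x : Fin n → ℤ} {A : GenAlg n} {vals : List ℤ} {b b' : Bool} {t t' : ℕ}
    (h : Runs x A vals b t) (h' : Runs x A vals b' t') : b = b' ∧ t = t' := by
  induction h generalizing t' with
  | answer b vals => cases h'; exact ⟨rfl, rfl⟩
  | ask d c next vals b t _ ih =>
    cases h' with
    | ask _ _ _ _ _ t' h'' =>
      obtain ⟨h1, h2⟩ := ih h''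
      exact ⟨h1, by rw [h2]⟩

/-- The input with an additional coordinate equal to `1`. -/
def hat (x : Fin n → ℤ) : Fin (n + 1) → ℤ := Fin.cons 1 x

theorem comb_cons (d : ℤ) (c : Fin n → ℤ) (x : Fin n → ℤ) :
    comb (Fin.cons d c : Fin (n + 1) → ℤ) (hat x) = d + comb c x := by
  simp [comb, hat, Fin.sum_univ_succ]

open Classical in
/-- The symbolic run: equality of values is replaced by equality of affine forms. -/
noncomputable def gen : GenAlg n → List (Fin (n + 1) → ℤ) → ℕ →
    List (Fin (n + 1) → ℤ) × Option Bool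
  | GenAlg.answer b, L, _ => (L, some b)
  | GenAlg.ask _ _ _, L, 0 => (L, none)
  | GenAlg.ask d c next, L, t + 1 =>
    gen (next fun j => decide (L[j]? = some (Fin.cons d c))) (L ++ [Fin.cons d c]) t

theorem gen_subset (A : GenAlg n) : ∀ (L : List (Fin (n + 1) → ℤ)) (t : ℕ),
    ∀ v ∈ L, v ∈ (gen A L t).1 := by
  induction A with
  | answer b => intro L t v hv; simpa [gen] using hv
  | ask d c next ih =>
    intro L t v hv
    cases t with
    | zero => simpa [gen] using hv
    | succ t =>
      rw [gen]
      exact ih _ _ _ v (by simp [hv])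

theorem gen_length (A : GenAlg n) : ∀ (L : List (Fin (n + 1) → ℤ)) (t : ℕ),
    (gen A L t).1.length ≤ L.length + t := by
  induction A with
  | answer b => intro L t; simp [gen]
  | ask d c next ih =>
    intro L t
    cases t with
    | zero => simp [gen]
    | succ t =>
      rw [gen]
      refine (ih _ _ _).trans ?_
      simp; omega

/-- `x` separates the vectors in `S`. -/
def Sep {m : ℕ} (S : Finset (Fin m → ℤ)) (x : Fin m → ℤ) : Prop :=
  ∀ u ∈ S, ∀ v ∈ S, comb u x = comb v x → u = v

theorem gen_spec (x : Fin n → ℤ) (A : GenAlg n) : ∀ (L : List (Fin (n + 1) → ℤ)) (t : ℕ),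
    (∀ u ∈ (gen A L t).1, ∀ v ∈ (gen A L t).1, comb u (hat x) = comb v (hat x) → u = v) →
    (∀ b, (gen A L t).2 = some b →
      ∃ t', t' ≤ t ∧ Runs x A (L.map fun v => comb v (hat x)) b t') ∧
    ((gen A L t).2 = none → ∀ b t', Runs x A (L.map fun v => comb v (hat x)) b t' → t < t') := by
  classical
  induction A with
  | answer b =>
    intro L t _
    refine ⟨fun b' h => ?_, fun h => ?_⟩
    · simp only [gen, Option.some.injEq] at h
      subst h
      exact ⟨0, Nat.zero_le _, Runs.answer _ _⟩
    · simp [gen] at h
  | ask d c next ih =>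
    intro L t hsep
    cases t with
    | zero =>
      refine ⟨fun b' h => by simp [gen] at h, fun _ b t' h => ?_⟩
      cases h; omega
    | succ t =>
      rw [gen] at hsep ⊢
      set e : Fin (n + 1) → ℤ := Fin.cons d c with he
      have hev : comb e (hat x) = d + comb c x := comb_cons d c x
      have hc : e ∈ (gen (next fun j : ℕ => decide (L[j]? = some e)) (L ++ [e]) t).1 :=
        gen_subset _ _ _ _ (by simp)
      have hL : ∀ v ∈ L, v ∈ (gen (next fun j : ℕ => decide (L[j]? = some e)) (L ++ [e]) t).1 :=
        fun v hv => gen_subset _ _ _ _ (by simp [hv])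
      have hresp : (fun j : ℕ => decide ((L.map fun v => comb v (hat x))[j]? =
          some (d + comb c x))) = fun j : ℕ => decide (L[j]? = some e) := by
        funext j
        rw [List.getElem?_map, ← hev]
        cases hj : L[j]? with
        | none => simp
        | some v =>
          have hv : v ∈ L := List.mem_of_getElem? hj
          simp only [Option.map_some, Option.some.injEq, decide_eq_decide]
          exact ⟨fun h => hsep v (hL v hv) e hc h, fun h => by rw [h]⟩
      obtain ⟨h1, h2⟩ := ih _ (L ++ [e]) t hsep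
      rw [List.map_append, List.map_singleton, hev] at h1 h2
      refine ⟨fun b hb => ?_, fun hn b t' hr => ?_⟩
      · obtain ⟨t', ht', hr⟩ := h1 b hb
        refine ⟨t' + 1, by omega, Runs.ask d c next _ b t' ?_⟩
        rw [hresp]
        exact hr
      · cases hr with
        | ask _ _ _ _ _ t'' hr' =>
          rw [hresp] at hr'
          have := h2 hn b t'' hr'
          omega

/-- The forms given by the inputs. -/
def units (n : ℕ) : List (Fin (n + 1) → ℤ) := List.ofFn fun i : Fin n => Pi.single i.succ 1

theorem comb_single {m : ℕ} (i : Fin m) (x : Fin m → ℤ) : comb (Pi.single i 1) x = x i := by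
  simp [comb, Pi.single_apply]

theorem map_units (x : Fin n → ℤ) :
    (units n).map (fun v => comb v (hat x)) = List.ofFn x := by
  rw [units, List.map_ofFn]
  congr 1
  funext i
  simp only [Function.comp_apply]
  rw [comb_single]
  simp [hat]

/-- The affine forms used within `T` steps of the symbolic run. -/
noncomputable def forms (A : GenAlg n) (T : ℕ) : Finset (Fin (n + 1) → ℤ) :=
  (gen A (units n) T).1.toFinset

theorem card_forms (A : GenAlg n) (T : ℕ) : (forms A T).card ≤ n + T := by
  refine (List.toFinset_card_le _).trans ((gen_length _ _ _).trans ?_)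
  simp [units]

/-- The outcome of the symbolic run within `T` steps. -/
noncomputable def outcome (A : GenAlg n) (T : ℕ) : Option Bool := (gen A (units n) T).2

theorem solves_iff {A : GenAlg n} {T : ℕ} {x : Fin n → ℤ} (hx : Sep (forms A T) (hat x))
    (h : SolvesWithin A x T) : ∃ b, outcome A T = some b ∧ (b = true ↔ HasThreeSum x) := by
  obtain ⟨b, t, ht, hr, hb⟩ := h
  obtain ⟨h1, h2⟩ := gen_spec x A (units n) T (fun u hu v hv =>
    hx u (List.mem_toFinset.2 hu) v (List.mem_toFinset.2 hv))
  rw [map_units] at h1 h2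
  cases ho : outcome A T with
  | none =>
    have := h2 ho b t hr
    omega
  | some b' =>
    obtain ⟨t', _, hr'⟩ := h1 b' ho
    have := (hr.det hr').1
    exact ⟨b', rfl, by rw [← this]; exact hb⟩

/-! ### Counting -/

theorem comb_sub {m : ℕ} (u v x : Fin m → ℤ) : comb (u - v) x = comb u x - comb v x := by
  simp [comb, sub_mul, Finset.sum_sub_distrib]

theorem comb_update {m : ℕ} (v y : Fin m → ℤ) (l : Fin m) (a : ℤ) :
    comb v (Function.update y l a) = comb v y + v l * (a - y l) := by
  have h : ∀ z : Fin m → ℤ, comb v z = v l * z l + ∑ i ∈ univ.erase l, v i * z i := fun z => by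
    rw [comb, ← Finset.add_sum_erase _ _ (mem_univ l)]
  rw [h, h y, Function.update_self]
  have : ∑ i ∈ univ.erase l, v i * Function.update y l a i = ∑ i ∈ univ.erase l, v i * y i := by
    refine Finset.sum_congr rfl fun i hi => ?_
    rw [Function.update_of_ne (ne_of_mem_erase hi)]
  rw [this]
  ring

/-- Few points of a box lie on a hyperplane. -/
theorem card_hyperplane (I : Fin n → Finset ℤ) (v : Fin n → ℤ) (l : Fin n) (hl : v l ≠ 0) :
    ((Fintype.piFinset I).filter fun y => comb v y = 0).card * (I l).card ≤
      (Fintype.piFinset I).card := by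
  rw [← card_product]
  refine card_le_card_of_injOn (fun p => Function.update p.1 l p.2) ?_ ?_
  · rintro ⟨y, a⟩ h
    simp only [coe_product, Set.mem_prod, mem_coe, mem_filter, Fintype.mem_piFinset] at h ⊢
    intro i
    by_cases hi : i = l
    · subst hi; simpa using h.2
    · rw [Function.update_of_ne hi]; exact h.1.1 i
  · rintro ⟨y, a⟩ h ⟨y', a'⟩ h' e
    simp only [coe_product, Set.mem_prod, mem_coe, mem_filter] at h h'
    simp only at e
    have e1 : a = a' := by
      have := congrFun e l
      simpa using this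
    have e2 : ∀ i, i ≠ l → y i = y' i := fun i hi => by
      have := congrFun e i
      simpa [hi] using this
    have e3 : y l = y' l := by
      have e4 : y' = Function.update y l (y' l) := by
        funext i
        by_cases hi : i = l
        · subst hi; simp
        · rw [Function.update_of_ne hi]; exact (e2 i hi).symm
      have h1 := h'.1.2
      rw [e4, comb_update, h.1.2, zero_add] at h1
      rcases mul_eq_zero.1 h1 with h2 | h2
      · exact absurd h2 hl
      · linarith
    have e5 : y = y' := by
      funext i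
      by_cases hi : i = l
      · subst hi; exact e3
      · exact e2 i hi
    rw [e1, e5]

open Classical in
/-- Few points of a box are non-separating for `S`, for a family of linear substitutions. -/
theorem card_not_sep (I : Fin n → Finset ℤ) (K : ℕ) (S : Finset (Fin n → ℤ))
    (φ : (Fin n → ℤ) → (Fin n → ℤ)) (τ : (Fin n → ℤ) → (Fin n → ℤ))
    (hφ : ∀ v y, comb v (φ y) = comb (τ v) y)
    (hτ : ∀ u ∈ S, ∀ v ∈ S, u ≠ v → (∃ l, τ (u - v) l ≠ 0 ∧ K ≤ (I l).card) ∨
      ∀ y ∈ Fintype.piFinset I, comb (τ (u - v)) y ≠ 0) :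
    ((Fintype.piFinset I).filter fun y => ¬ Sep S (φ y)).card * K ≤
      S.card ^ 2 * (Fintype.piFinset I).card := by
  have h1 : ((Fintype.piFinset I).filter fun y => ¬ Sep S (φ y)) ⊆
      ((S ×ˢ S).filter fun p => p.1 ≠ p.2).biUnion fun p =>
        (Fintype.piFinset I).filter fun y => comb (τ (p.1 - p.2)) y = 0 := by
    intro y hy
    rw [mem_filter] at hy
    have h2 := hy.2
    unfold Sep at h2
    push Not at h2
    obtain ⟨u, hu, v, hv, h3, h4⟩ := h2
    rw [mem_biUnion]
    refine ⟨(u, v), ?_, ?_⟩
    · rw [mem_filter, mem_product]; exact ⟨⟨hu, hv⟩, h4⟩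
    · rw [mem_filter]
      refine ⟨hy.1, ?_⟩
      rw [← hφ, comb_sub, h3, sub_self]
  have h2 : ((Fintype.piFinset I).filter fun y => ¬ Sep S (φ y)).card * K ≤
      ∑ p ∈ (S ×ˢ S).filter fun p => p.1 ≠ p.2,
        ((Fintype.piFinset I).filter fun y => comb (τ (p.1 - p.2)) y = 0).card * K := by
    rw [← Finset.sum_mul]
    exact Nat.mul_le_mul_right _ ((card_le_card h1).trans card_biUnion_le)
  have h3 : ∀ p ∈ (S ×ˢ S).filter fun p => p.1 ≠ p.2,
      ((Fintype.piFinset I).filter fun y => comb (τ (p.1 - p.2)) y = 0).card * K ≤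
        (Fintype.piFinset I).card := by
    intro p hp
    rw [mem_filter, mem_product] at hp
    rcases hτ p.1 hp.1.1 p.2 hp.1.2 hp.2 with ⟨l, hl, hK⟩ | h0
    · exact (Nat.mul_le_mul_left _ hK).trans (card_hyperplane I _ l hl)
    · have : ((Fintype.piFinset I).filter fun y => comb (τ (p.1 - p.2)) y = 0) = ∅ := by
        rw [filter_eq_empty_iff]
        exact fun y hy => h0 y hy
      rw [this]; simp
  have h4 := Finset.sum_le_sum h3
  have h5 : ((S ×ˢ S).filter fun p => p.1 ≠ p.2).card ≤ S.card ^ 2 := by
    refine (card_filter_le _ _).trans ?_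
    rw [card_product, sq]
  have h6 := h2.trans h4
  rw [Finset.sum_const, smul_eq_mul] at h6
  exact h6.trans (Nat.mul_le_mul_right _ h5)

end Pool.Agent.ThreeSum
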