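import Pool.Agent.ThreeSum.GenericFinal

/-!
The matching upper bound in the generic group model.
-/

namespace Pool.Agent.ThreeSum

variable {n : ℕ}

open Classical in
/-- Ask for the sums `x i + x j` for the pairs in the list. -/
noncomputable def scan : List (Fin n × Fin n) → Bool → GenAlg n
  | [], b => GenAlg.answer b
  | p :: l, b => GenAlg.ask 0 (Pi.single p.1 1 + Pi.single p.2 1) fun r =>
      scan l (b || decide (p.1 ≠ p.2 ∧ ∃ k : Fin n, p.1 ≠ k ∧ p.2 ≠ k ∧ r k = true))

theorem scan_runs (x : Fin n → ℤ) (l : List (Fin n × Fin n)) : ∀ (b : Bool) (w : List ℤ),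
    ∃ b', Runs x (scan l b) (List.ofFn x ++ w) b' l.length ∧
      (b' = true ↔ (b = true ∨ ∃ p ∈ l, p.1 ≠ p.2 ∧ ∃ k : Fin n, p.1 ≠ k ∧ p.2 ≠ k ∧
        x p.1 + x p.2 = x k)) := by
  classical
  induction l with
  | nil => intro b w; exact ⟨b, Runs.answer _ _, by simp⟩
  | cons p l ih =>
    intro b w
    have hk : ∀ k : Fin n, (decide ((List.ofFn x ++ w)[(k : ℕ)]? =
        some (0 + comb (Pi.single p.1 1 + Pi.single p.2 1) x)) = true) ↔ x p.1 + x p.2 = x k := by
      intro k
      rw [List.getElem?_append_left (by simp), List.getElem?_ofFn, comb_add, comb_single,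
        comb_single, zero_add]
      simp only [Fin.is_lt, dite_true, Fin.eta, Option.some.injEq, decide_eq_true_eq]
      exact eq_comm
    obtain ⟨b', h1, h2⟩ := ih (b || decide (p.1 ≠ p.2 ∧ ∃ k : Fin n, p.1 ≠ k ∧ p.2 ≠ k ∧
      (decide ((List.ofFn x ++ w)[(k : ℕ)]? =
        some (0 + comb (Pi.single p.1 1 + Pi.single p.2 1) x)) = true)))
      (w ++ [0 + comb (Pi.single p.1 1 + Pi.single p.2 1) x])
    refine ⟨b', ?_, ?_⟩
    · rw [scan, List.length_cons]
      refine Runs.ask _ _ _ _ _ _ ?_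
      rw [List.append_assoc]
      exact h1
    · rw [h2]
      simp only [hk, Bool.or_eq_true, decide_eq_true_eq, List.mem_cons, exists_eq_or_imp, or_assoc]

/-- There is a deterministic generic algorithm with `n ^ 2` questions. -/
theorem exists_solver (n : ℕ) : ∃ A : GenAlg n, ∀ x : Fin n → ℤ, SolvesWithin A x (n ^ 2) := by
  classical
  refine ⟨scan (Finset.univ : Finset (Fin n × Fin n)).toList false, fun x => ?_⟩
  obtain ⟨b', h1, h2⟩ := scan_runs x (Finset.univ : Finset (Fin n × Fin n)).toList false []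
  rw [List.append_nil] at h1
  refine ⟨b', _, ?_, h1, ?_⟩
  · rw [Finset.length_toList, Finset.card_univ, Fintype.card_prod, Fintype.card_fin, sq]
  · rw [h2]
    simp only [Bool.false_eq_true, false_or, Finset.mem_toList, Finset.mem_univ, true_and]
    constructor
    · rintro ⟨p, h3, k, h4, h5, h6⟩
      exact ⟨p.1, p.2, k, h3, h4, h5, h6⟩
    · rintro ⟨i, j, k, h3, h4, h5, h6⟩
      exact ⟨(i, j), h3, k, h4, h5, h6⟩

/-- Zero-error algorithms, by the inequality of Markov. -/
theorem zero_error_bound {Ω : Type} [Fintype Ω] {R : ℕ} {E : ℝ} {μ : Ω → ℝ} {A : Ω → GenAlg n}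
    (h : ZeroErrorSolver n R E μ A) (hn : 400 ≤ n) (hR : n ^ 3 ≤ R) :
    (min (n ^ 2) (Nat.sqrt R) : ℕ) ≤ 600 * E := by
  classical
  obtain ⟨hμ, h1, hA⟩ := h
  have hE : 0 ≤ E := by
    have hinj : Function.Injective fun i : Fin n => (i : ℤ) := fun i j hij => by
      simpa [Fin.ext_iff] using hij
    obtain ⟨c, _, hc⟩ := hA (fun i => (i : ℤ)) hinj (fun i => by
      have h2 : (i : ℕ) < n := i.2
      have h3 : n ≤ R := le_trans (by nlinarith [Nat.one_le_pow 2 n (by omega)]) hR
      rw [abs_of_nonneg (by positivity)]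
      omega)
    exact le_trans (Finset.sum_nonneg fun ω _ => mul_nonneg (hμ ω) (Nat.cast_nonneg _)) hc
  have key : RandomisedSolver n R ⌊3 * E⌋₊ μ A := by
    refine ⟨hμ, h1, fun x hx hb => ?_⟩
    obtain ⟨c, hc1, hc2⟩ := hA x hx hb
    have h2 : ∀ ω, μ ω - (if SolvesWithin (A ω) x ⌊3 * E⌋₊ then μ ω else 0) ≤
        if ⌊3 * E⌋₊ < c ω then μ ω else 0 := by
      intro ω
      by_cases h3 : ⌊3 * E⌋₊ < c ω
      · rw [if_pos h3]
        split_ifs
        · have := hμ ω; linarith
        · linarith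
      · rw [if_neg h3, if_pos]
        · linarith
        · obtain ⟨b, hb1, hb2⟩ := hc1 ω
          exact ⟨b, c ω, not_lt.1 h3, hb1, hb2⟩
    have h3 : ∀ ω, (if ⌊3 * E⌋₊ < c ω then μ ω else 0) * (3 * E) ≤ μ ω * c ω := by
      intro ω
      split_ifs with h4
      · refine mul_le_mul_of_nonneg_left ?_ (hμ ω)
        exact (Nat.lt_of_floor_lt h4).le
      · rw [zero_mul]; exact mul_nonneg (hμ ω) (Nat.cast_nonneg _)
    have h4 := Finset.sum_le_sum fun ω (_ : ω ∈ (Finset.univ : Finset Ω)) => h2 ω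
    have h5 := Finset.sum_le_sum fun ω (_ : ω ∈ (Finset.univ : Finset Ω)) => h3 ω
    rw [Finset.sum_sub_distrib, h1] at h4
    rw [← Finset.sum_mul] at h5
    set s := ∑ ω, (if ⌊3 * E⌋₊ < c ω then μ ω else 0)
    by_cases hE0 : E = 0
    · -- expected number of questions zero
      have h6 : s = 0 := by
        refine Finset.sum_eq_zero fun ω _ => ?_
        split_ifs with h7
        · have h8 : μ ω * c ω ≤ 0 := by
            have h9 : μ ω * (c ω : ℝ) ≤ ∑ ω, μ ω * c ω :=
              Finset.single_le_sum (f := fun ω => μ ω * (c ω : ℝ))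
                (fun ω _ => mul_nonneg (hμ ω) (Nat.cast_nonneg _)) (Finset.mem_univ ω)
            rw [hE0] at hc2
            linarith
          have h10 : (1 : ℝ) ≤ c ω := by
            have : 1 ≤ c ω := by omega
            exact_mod_cast this
          nlinarith [hμ ω]
        · rfl
      rw [h6] at h4
      linarith
    · have hEpos : 0 < E := lt_of_le_of_ne hE (Ne.symm hE0)
      have h6 : s * (3 * E) ≤ E := h5.trans hc2
      have h7 : s ≤ 1 / 3 := by
        by_contra hcon
        push Not at hcon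
        nlinarith
      linarith
  have h2 := generic_lower_bound key hn hR
  have h3 : ((min (n ^ 2) (Nat.sqrt R) : ℕ) : ℝ) ≤ ((200 * ⌊3 * E⌋₊ : ℕ) : ℝ) := by
    exact_mod_cast h2
  push_cast at h3 ⊢
  have h4 : (⌊3 * E⌋₊ : ℝ) ≤ 3 * E := Nat.floor_le (by positivity)
  linarith

end Pool.Agent.ThreeSum
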