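import Pool.Agent.ThreeSum.GenericDefs

/-!
The generic group model for the three-sum problem, where a question is charged for its number of
terms.
-/

namespace Pool.Agent.ThreeSum.Term

open Finset

/-- The cost of asking for `d + c 0 * x 0 + ⋯ + c (n - 1) * x (n - 1)`: one more than the number
of terms with a nonzero coefficient. -/
def cost {n : ℕ} (c : Fin n → ℤ) : ℕ := 1 + (univ.filter fun i => c i ≠ 0).card

/-- `Runs x A vals b t`: on the input `x`, when the list of the values obtained so far is
`vals`, the algorithm `A` gives the answer `b`, and the total cost of its further questions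
is `t`. After the question `d + comb c x` it learns, for every `j`, whether the new value is equal
to value number `j` among the earlier values. -/
inductive Runs {n : ℕ} (x : Fin n → ℤ) : GenAlg n → List ℤ → Bool → ℕ → Prop
  | answer (b : Bool) (vals : List ℤ) : Runs x (GenAlg.answer b) vals b 0
  | ask (d : ℤ) (c : Fin n → ℤ) (next : (ℕ → Bool) → GenAlg n) (vals : List ℤ) (b : Bool)
      (t : ℕ) :
      Runs x (next fun j => decide (vals[j]? = some (d + comb c x)))
        (vals ++ [d + comb c x]) b t →
      Runs x (GenAlg.ask d c next) vals b (cost c + t)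

/-- On the input `x` the algorithm gives the correct answer with questions of total cost at most
`C`. At the beginning the values known to the algorithm are the inputs themselves. -/
def SolvesWithin {n : ℕ} (A : GenAlg n) (x : Fin n → ℤ) (C : ℕ) : Prop :=
  ∃ b t, t ≤ C ∧ Runs x A (List.ofFn x) b t ∧ (b = true ↔ HasThreeSum x)

open Classical in
/-- A randomised algorithm, given by a probability distribution `μ` on a finite family `A` of
algorithms, which on every input of `n` distinct integers from `[-R, R]` gives the correct
answer with questions of total cost at most `C` with probability at least `2/3`. -/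
def RandomisedSolver {Ω : Type} [Fintype Ω] (n R C : ℕ) (μ : Ω → ℝ) (A : Ω → GenAlg n) : Prop :=
  (∀ ω, 0 ≤ μ ω) ∧ ∑ ω, μ ω = 1 ∧
    ∀ x : Fin n → ℤ, Function.Injective x → (∀ i, |x i| ≤ R) →
      2 / 3 ≤ ∑ ω, if SolvesWithin (A ω) x C then μ ω else 0

/-- A randomised algorithm which on every input of `n` distinct integers from `[-R, R]`
always gives the correct answer, and for which the expected total cost of the questions on every
such input is at most `E`. -/
def ZeroErrorSolver {Ω : Type} [Fintype Ω] (n R : ℕ) (E : ℝ) (μ : Ω → ℝ) (A : Ω → GenAlg n) :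
    Prop :=
  (∀ ω, 0 ≤ μ ω) ∧ ∑ ω, μ ω = 1 ∧
    ∀ x : Fin n → ℤ, Function.Injective x → (∀ i, |x i| ≤ R) →
      ∃ c : Ω → ℕ, (∀ ω, ∃ b, Runs x (A ω) (List.ofFn x) b (c ω) ∧ (b = true ↔ HasThreeSum x)) ∧
        ∑ ω, μ ω * c ω ≤ E

end Pool.Agent.ThreeSum.Term
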