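import Pool.Agent.ThreeSum.TermCount

/-!
Planting a solution rarely changes the run.
-/

namespace Pool.Agent.ThreeSum.Term

open Finset

variable {n M : ℕ}

/-- The (extended) input with the planted solution `x i + x j = x l`. -/
def pl (y : Fin n → Fin M) (i j l : Fin n) : Fin (n + 1) → ℤ :=
  Function.update (inp y) l.succ (inp y i.succ + inp y j.succ)

theorem comb_pl (d : Fin (n + 1) → ℤ) (y : Fin n → Fin M) (i j l : Fin n) :
    comb d (pl y i j l) = comb (subst i.succ j.succ l.succ d) (inp y) := comb_subst _ _ _ _ _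

variable (A : GenAlg n) (C D : ℕ)

open Classical in
/-- The light coordinates that are not involved in accidental coincidences. -/
noncomputable def Uset (y : Fin n → Fin M) : Finset (Fin n) :=
  univ.filter fun p => Light A C D p y ∧ ¬ InK A C p y

theorem mem_Uset {y : Fin n → Fin M} {p : Fin n} :
    p ∈ Uset A C D y ↔ Light A C D p y ∧ ¬ InK A C p y := by
  simp [Uset]

variable {A C D}

theorem exists_pair {y : Fin n → Fin M} {i j l : Fin n} (hl : l ∈ Uset A C D y)
    (h : act (pl y i j l) A (units n) C ≠ act (inp y) A (units n) C) :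
    ∃ u ∈ F A C y, ∃ w ∈ F A C y, u l.succ ≠ w l.succ ∧
      comb (subst i.succ j.succ l.succ (u - w)) (inp y) = 0 := by
  by_contra hcon
  push Not at hcon
  apply h
  apply act_congr
  intro u hu w hw
  have h1 : ∀ v : Fin (n + 1) → ℤ, comb v (pl y i j l) =
      comb v (inp y) + v l.succ * (inp y i.succ + inp y j.succ - inp y l.succ) := fun v =>
    comb_update _ _ _ _
  by_cases hne : u l.succ = w l.succ
  · rw [h1, h1, hne]
    constructor
    · intro h2; rw [h2]
    · intro h2; linarith
  · constructor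
    · intro h2
      exfalso
      exact ((mem_Uset A C D).1 hl).2 ⟨u, hu, w, hw, hne, h2⟩
    · intro h2
      exfalso
      apply hcon u hu w hw hne
      rw [← comb_pl, comb_sub, h2, sub_self]

/-- The forms restricted to the coordinates in `U`. -/
noncomputable def proj (U : Finset (Fin n)) (u : Fin (n + 1) → ℤ) : Fin n → ℤ :=
  fun p => if p ∈ U then u p.succ else 0

theorem mem_D3_of {U : Finset (Fin n)} {L : List (Fin (n + 1) → ℤ)} {i j l : Fin n}
    (hij : i ≠ j) (hil : i ≠ l) (hjl : j ≠ l) (hi : i ∈ U) (hj : j ∈ U) (hl : l ∈ U)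
    {u w : Fin (n + 1) → ℤ} (hu : u ∈ L) (hw : w ∈ L) (hne : u l.succ ≠ w l.succ)
    (h : ∀ p ∈ U, subst i.succ j.succ l.succ (u - w) p.succ = 0) :
    {i, j, l} ∈ D3 (L.toFinset.image (proj U)) := by
  classical
  have inj : ∀ {a b : Fin n}, a ≠ b → a.succ ≠ b.succ := fun hab e => hab (Fin.succ_injective _ e)
  rw [mem_D3]
  refine ⟨?_, proj U u, mem_image_of_mem _ (List.mem_toFinset.2 hu), proj U w,
    mem_image_of_mem _ (List.mem_toFinset.2 hw), ?_⟩
  · rw [card_insert_of_notMem (by simp [hij, hil]), card_insert_of_notMem (by simp [hjl]),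
      card_singleton]
  · have hd : u l.succ - w l.succ ≠ 0 := sub_ne_zero.2 hne
    have hi' := h i hi
    have hj' := h j hj
    simp only [subst, Pi.add_apply, Pi.smul_apply, Pi.sub_apply, Pi.single_eq_same, smul_eq_mul,
      Pi.single_eq_of_ne (inj hij), Pi.single_eq_of_ne (inj hil)] at hi'
    simp only [subst, Pi.add_apply, Pi.smul_apply, Pi.sub_apply, Pi.single_eq_same, smul_eq_mul,
      Pi.single_eq_of_ne (inj hij.symm), Pi.single_eq_of_ne (inj hjl)] at hj'
    ext p
    rw [mem_diff]
    simp only [mem_insert, mem_singleton, proj]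
    constructor
    · intro hp
      by_contra hcon
      push Not at hcon
      obtain ⟨h1, h2, h3⟩ := hcon
      by_cases hpU : p ∈ U
      · have h4 := h p hpU
        simp only [subst, Pi.add_apply, Pi.smul_apply, Pi.sub_apply, smul_eq_mul,
          Pi.single_eq_of_ne (inj h1), Pi.single_eq_of_ne (inj h2),
          Pi.single_eq_of_ne (inj h3)] at h4
        apply hp
        rw [if_pos hpU, if_pos hpU]
        linarith
      · apply hp
        rw [if_neg hpU, if_neg hpU]
    · rintro (rfl | rfl | rfl)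
      · rw [if_pos hi, if_pos hi]
        intro e; apply hd; linarith
      · rw [if_pos hj, if_pos hj]
        intro e; apply hd; linarith
      · rw [if_pos hl, if_pos hl]
        exact hne

/-- For unchanged runs the sets `Uset` are the same. -/
theorem F_update {y : Fin n → Fin M} {p : Fin n} {c : Fin M} (hp : ¬ InK A C p y)
    (hf : Free (F A C y) p (Function.update y p c)) :
    F A C (Function.update y p c) = F A C y ∧
      Uset A C D (Function.update y p c) = Uset A C D y := by
  have hiff : ∀ u ∈ F A C y, ∀ w ∈ F A C y, (comb u (inp y) = comb w (inp y) ↔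
      comb u (inp (Function.update y p c)) = comb w (inp (Function.update y p c))) := by
    intro u hu w hw
    by_cases hne : u p.succ = w p.succ
    · rw [comb_inp_update, comb_inp_update, hne]
      constructor
      · intro h; rw [h]
      · intro h; linarith
    · constructor
      · intro h
        exact absurd ⟨u, hu, w, hw, hne, h⟩ hp
      · intro h
        exact absurd h (hf u hu w hw hne)
  have h1 : act (inp (Function.update y p c)) A (units n) C = act (inp y) A (units n) C :=
    act_congr A (units n) C hiff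
  have h2 : F A C (Function.update y p c) = F A C y := by
    unfold F; rw [h1]
  refine ⟨h2, ?_⟩
  ext q
  rw [mem_Uset, mem_Uset]
  unfold Light InK
  rw [h2]
  refine and_congr Iff.rfl (not_congr ⟨?_, ?_⟩)
  · rintro ⟨u, hu, w, hw, h3, h4⟩
    exact ⟨u, hu, w, hw, h3, (hiff u hu w hw).2 h4⟩
  · rintro ⟨u, hu, w, hw, h3, h4⟩
    exact ⟨u, hu, w, hw, h3, (hiff u hu w hw).1 h4⟩

open Classical in
/-- A coordinate in `U` occurring in `d`. -/
noncomputable def pick (U : Finset (Fin n)) (d : Fin (n + 1) → ℤ) (i : Fin n) : Fin n :=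
  if h : ∃ p ∈ U, d p.succ ≠ 0 then h.choose else i

theorem pick_spec {U : Finset (Fin n)} {d : Fin (n + 1) → ℤ} (i : Fin n)
    (h : ∃ p ∈ U, d p.succ ≠ 0) : pick U d i ∈ U ∧ d (pick U d i).succ ≠ 0 := by
  unfold pick
  rw [dif_pos h]
  exact h.choose_spec

variable (A C D)

/-- The type of an input with three coordinates and two forms. -/
abbrev Tup (n M : ℕ) : Type :=
  Σ _ : (Fin n → Fin M) × (Fin n × Fin n × Fin n), (Fin (n + 1) → ℤ) × (Fin (n + 1) → ℤ)

/-- The substituted difference of the two forms. -/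
def Tup.dif (a : Tup n M) : Fin (n + 1) → ℤ :=
  subst a.1.2.1.succ a.1.2.2.1.succ a.1.2.2.2.succ (a.2.1 - a.2.2)

open Classical in
/-- The coincidences caused by planting, which are avoided by changing another coordinate. -/
noncomputable def sB : Finset (Tup n M) :=
  (univ : Finset ((Fin n → Fin M) × (Fin n × Fin n × Fin n))).sigma fun z =>
    ((F A C z.1).toFinset ×ˢ (F A C z.1).toFinset).filter fun q =>
      q.1 z.2.2.2.succ ≠ q.2 z.2.2.2.succ ∧
      (∃ p ∈ Uset A C D z.1,
        subst z.2.1.succ z.2.2.1.succ z.2.2.2.succ (q.1 - q.2) p.succ ≠ 0) ∧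
      comb (subst z.2.1.succ z.2.2.1.succ z.2.2.2.succ (q.1 - q.2)) (inp z.1) = 0

open Classical in
/-- All relevant tuples. -/
noncomputable def tB : Finset (Tup n M) :=
  (univ : Finset ((Fin n → Fin M) × (Fin n × Fin n × Fin n))).sigma fun z =>
    ((F A C z.1).toFinset ×ˢ (F A C z.1).toFinset).filter fun q =>
      q.1 z.2.2.2.succ ≠ q.2 z.2.2.2.succ

theorem card_tB : (tB A C : Finset (Tup n M)).card ≤
    Fintype.card (Fin n → Fin M) * (n ^ 2 * (2 * (2 * n + C) ^ 2)) := by
  classical
  set S := 2 * n + C with hS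
  have hFS : ∀ y : Fin n → Fin M, (F A C y).toFinset.card ≤ S := fun y =>
    (card_toFinset_le_wt _).trans (wt_F A C y)
  rw [tB, card_sigma]
  have h1 : ∀ z ∈ (univ : Finset ((Fin n → Fin M) × (Fin n × Fin n × Fin n))),
      (((F A C z.1).toFinset ×ˢ (F A C z.1).toFinset).filter fun q =>
        q.1 z.2.2.2.succ ≠ q.2 z.2.2.2.succ).card ≤ 2 * (dp z.2.2.2.succ (F A C z.1) * S) := by
    intro z _
    have h2 : (((F A C z.1).toFinset ×ˢ (F A C z.1).toFinset).filter fun q =>
        q.1 z.2.2.2.succ ≠ q.2 z.2.2.2.succ) ⊆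
        ((F A C z.1).toFinset.filter fun u => u z.2.2.2.succ ≠ 0) ×ˢ (F A C z.1).toFinset ∪
        (F A C z.1).toFinset ×ˢ ((F A C z.1).toFinset.filter fun u => u z.2.2.2.succ ≠ 0) := by
      intro q hq
      rw [mem_filter, mem_product] at hq
      rw [mem_union, mem_product, mem_product, mem_filter, mem_filter]
      by_cases h0 : q.1 z.2.2.2.succ = 0
      · right
        exact ⟨hq.1.1, hq.1.2, fun h => hq.2 (by rw [h0, h])⟩
      · left
        exact ⟨⟨hq.1.1, h0⟩, hq.1.2⟩
    refine (card_le_card h2).trans ((card_union_le _ _).trans ?_)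
    rw [card_product, card_product]
    have h3 := Nat.mul_le_mul_left (dp z.2.2.2.succ (F A C z.1)) (hFS z.1)
    rw [dp] at h3 ⊢
    rw [mul_comm (F A C z.1).toFinset.card]
    omega
  refine (sum_le_sum h1).trans ?_
  rw [← mul_sum, ← sum_mul, Fintype.sum_prod_type]
  have h4 : ∑ y : Fin n → Fin M, ∑ v : Fin n × Fin n × Fin n, dp v.2.2.succ (F A C y) ≤
      ∑ _y : Fin n → Fin M, n ^ 2 * S := by
    refine sum_le_sum fun y _ => ?_
    rw [Fintype.sum_prod_type]
    simp only [Fintype.sum_prod_type, sum_const, card_univ, Fintype.card_fin, smul_eq_mul]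
    calc _ ≤ n * (n * S) := Nat.mul_le_mul_left _ (Nat.mul_le_mul_left _
          ((sum_dp_le_wt _).trans (wt_F A C y)))
      _ = _ := by ring
  rw [sum_const, card_univ, smul_eq_mul] at h4
  calc _ ≤ 2 * (Fintype.card (Fin n → Fin M) * (n ^ 2 * S) * S) :=
        Nat.mul_le_mul_left _ (Nat.mul_le_mul_right _ h4)
    _ = _ := by ring

theorem card_sB : (sB A C D : Finset (Tup n M)).card * (M - D * (2 * n + C)) ≤
    Fintype.card (Fin n → Fin M) * (n ^ 2 * (2 * (2 * n + C) ^ 2)) := by
  classical
  refine le_trans ?_ (card_tB A C)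
  have key := card_mul_le_card_mul (s := (sB A C D : Finset (Tup n M)))
    (t := (tB A C : Finset (Tup n M))) (m := M - D * (2 * n + C)) (n := 1)
    (fun a b => a.1.2 = b.1.2 ∧ a.2 = b.2 ∧ Uset A C D a.1.1 = Uset A C D b.1.1 ∧
      ∃ c, b.1.1 = Function.update a.1.1 (pick (Uset A C D a.1.1) a.dif a.1.2.1) c) ?_ ?_
  · rw [mul_one] at key; exact key
  · rintro ⟨⟨y, v⟩, ⟨u, w⟩⟩ ha
    rw [sB, mem_sigma, mem_filter, mem_product, List.mem_toFinset, List.mem_toFinset] at ha
    obtain ⟨_, ⟨hu, hw⟩, hne, hex, h0⟩ := ha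
    simp only at hu hw hne hex h0
    set d := subst v.1.succ v.2.1.succ v.2.2.succ (u - w) with hd
    obtain ⟨hpU, hp0⟩ := pick_spec v.1 hex
    set p := pick (Uset A C D y) d v.1 with hp
    obtain ⟨hpl, hpk⟩ := (mem_Uset A C D).1 hpU
    refine (card_free (F A C y) p y hpl ((card_toFinset_le_wt _).trans (wt_F A C y))).trans ?_
    refine card_le_card_of_injOn (fun c => ⟨(Function.update y p c, v), (u, w)⟩) ?_ ?_
    · intro c hc
      simp only [coe_filter, mem_univ, true_and, Set.mem_ofPred_eq] at hc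
      obtain ⟨h1, h2⟩ := F_update (D := D) hpk hc
      rw [mem_coe, mem_bipartiteAbove, tB, mem_sigma, mem_filter, mem_product]
      simp only
      rw [h1, h2]
      exact ⟨⟨mem_univ _, ⟨List.mem_toFinset.2 hu, List.mem_toFinset.2 hw⟩, hne⟩, trivial,
        trivial, rfl, c, rfl⟩
    · intro a _ a' _ h
      simp only [Sigma.mk.injEq, Prod.mk.injEq, and_true, heq_eq_eq] at h
      have := congrFun h p
      simpa using this
  · rintro ⟨⟨z, v⟩, ⟨u, w⟩⟩ _
    rw [card_le_one]
    rintro ⟨⟨y, v1⟩, ⟨u1, w1⟩⟩ h ⟨⟨y', v2⟩, ⟨u2, w2⟩⟩ h'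
    rw [mem_bipartiteBelow, sB, mem_sigma, mem_filter] at h h'
    obtain ⟨⟨_, _, _, hex, h0⟩, h1, h2, h3, c, hc⟩ := h
    obtain ⟨⟨_, _, _, hex', h0'⟩, h1', h2', h3', c', hc'⟩ := h'
    simp only [Prod.mk.injEq] at hex h0 h1 h2 h3 hc hex' h0' h1' h2' h3' hc'
    subst h1
    subst h1'
    obtain ⟨rfl, rfl⟩ := h2
    obtain ⟨rfl, rfl⟩ := h2'
    simp only [Tup.dif] at hc hc'
    set d := subst v2.1.succ v2.2.1.succ v2.2.2.succ (u2 - w2) with hd
    rw [h3] at hc hex
    rw [h3'] at hc' hex'
    obtain ⟨_, hp0⟩ := pick_spec v2.1 hex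
    set p := pick (Uset A C D z) d v2.1 with hp
    have e1 : y = Function.update z p (y p) := by rw [hc]; simp
    have e2 : y' = Function.update z p (y' p) := by rw [hc']; simp
    have e3 : y p = y' p := by
      refine unique_zero (d := d) (y := z) hp0 ?_ ?_
      · rw [← e1]; exact h0
      · rw [← e2]; exact h0'
    have e4 : y = y' := by rw [e1, e2, e3]
    rw [e4]

end Pool.Agent.ThreeSum.Term
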