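import Pool.Agent.ThreeSum.TermDefs
import Pool.Agent.ThreeSum.GenericMain

/-!
The run of a generic algorithm on an input, and its stability.
-/

namespace Pool.Agent.ThreeSum.Term

open Finset

variable {n : ℕ}

theorem Runs.det {x : Fin n → ℤ} {A : GenAlg n} {vals : List ℤ} {b b' : Bool} {t t' : ℕ}
    (h : Runs x A vals b t) (h' : Runs x A vals b' t') : b = b' ∧ t = t' := by
  induction h generalizing t' with
  | answer b vals => cases h'; exact ⟨rfl, rfl⟩
  | ask d c next vals b t _ ih =>
    cases h' with
    | ask _ _ _ _ _ t' h'' =>
      obtain ⟨h1, h2⟩ := ih h''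
      exact ⟨h1, by rw [h2]⟩

/-- The number of forms in the list in which the coordinate `p` occurs. -/
noncomputable def dp (p : Fin (n + 1)) (L : List (Fin (n + 1) → ℤ)) : ℕ :=
  (L.toFinset.filter fun u => u p ≠ 0).card

theorem dp_mono {p : Fin (n + 1)} {L L' : List (Fin (n + 1) → ℤ)} (h : L ⊆ L') :
    dp p L ≤ dp p L' := by
  refine card_le_card fun u hu => ?_
  rw [mem_filter, List.mem_toFinset] at hu ⊢
  exact ⟨h hu.1, hu.2⟩

/-- The run on the (extended) input `x`, with a bound for the cost: the affine forms asked for, and
the answer. -/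
noncomputable def act (x : Fin (n + 1) → ℤ) : GenAlg n → List (Fin (n + 1) → ℤ) → ℕ →
    List (Fin (n + 1) → ℤ) × Option Bool
  | GenAlg.answer b, L, _ => (L, some b)
  | GenAlg.ask d c next, L, B =>
    if cost c ≤ B then
      act x (next fun j => decide ((L.map fun v => comb v x)[j]? =
        some (comb (Fin.cons d c : Fin (n + 1) → ℤ) x))) (L ++ [Fin.cons d c]) (B - cost c)
    else (L, none)

theorem act_subset (x : Fin (n + 1) → ℤ) (A : GenAlg n) : ∀ (L : List (Fin (n + 1) → ℤ)) (B : ℕ),
    L ⊆ (act x A L B).1 := by
  induction A with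
  | answer b => intro L B; simp [act]
  | ask d c next ih =>
    intro L B
    rw [act]
    split_ifs
    · exact List.Subset.trans (List.subset_append_left _ _) (ih _ _ _)
    · simp

/-- The total weight of a list of forms. -/
def wt (L : List (Fin (n + 1) → ℤ)) : ℕ := (L.map fun u => cost (Fin.tail u)).sum

theorem wt_act (x : Fin (n + 1) → ℤ) (A : GenAlg n) : ∀ (L : List (Fin (n + 1) → ℤ)) (B : ℕ),
    wt (act x A L B).1 ≤ wt L + B := by
  induction A with
  | answer b => intro L B; simp [act]
  | ask d c next ih =>
    intro L B
    rw [act]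
    split_ifs with h
    · refine (ih _ _ _).trans ?_
      simp only [wt, List.map_append, List.map_cons, List.map_nil, List.sum_append,
        List.sum_cons, List.sum_nil, Fin.tail_cons]
      omega
    · simp

theorem act_congr {x x' : Fin (n + 1) → ℤ} (A : GenAlg n) :
    ∀ (L : List (Fin (n + 1) → ℤ)) (B : ℕ),
    (∀ u ∈ (act x A L B).1, ∀ v ∈ (act x A L B).1, (comb u x = comb v x ↔ comb u x' = comb v x')) →
    act x' A L B = act x A L B := by
  induction A with
  | answer b => intro L B _; simp [act]
  | ask d c next ih =>
    intro L B h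
    rw [act] at h ⊢
    rw [act]
    by_cases hB : cost c ≤ B
    · rw [if_pos hB] at h ⊢
      rw [if_pos hB]
      set e : Fin (n + 1) → ℤ := Fin.cons d c with he
      have hsub := act_subset x (next fun j => decide ((L.map fun v => comb v x)[j]? =
        some (comb e x))) (L ++ [e]) (B - cost c)
      have hresp : (fun j : ℕ => decide ((L.map fun v => comb v x')[j]? = some (comb e x'))) =
          fun j : ℕ => decide ((L.map fun v => comb v x)[j]? = some (comb e x)) := by
        funext j
        rw [List.getElem?_map, List.getElem?_map]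
        cases hj : L[j]? with
        | none => simp
        | some v =>
          have hv : v ∈ L := List.mem_of_getElem? hj
          simp only [Option.map_some, Option.some.injEq, decide_eq_decide]
          exact (h v (hsub (by simp [hv])) e (hsub (by simp))).symm
      rw [hresp]
      exact ih _ _ _ h
    · rw [if_neg hB, if_neg hB]

theorem act_runs (x : Fin n → ℤ) (A : GenAlg n) : ∀ (L : List (Fin (n + 1) → ℤ)) (B : ℕ)
    (b : Bool) (t : ℕ), t ≤ B → Runs x A (L.map fun v => comb v (hat x)) b t →
    (act (hat x) A L B).2 = some b := by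
  induction A with
  | answer b =>
    intro L B b' t _ h
    cases h
    rfl
  | ask d c next ih =>
    intro L B b t ht h
    cases h with
    | ask _ _ _ _ _ t' h' =>
      rw [act, if_pos (by omega)]
      have hev : comb (Fin.cons d c : Fin (n + 1) → ℤ) (hat x) = d + comb c x := comb_cons d c x
      refine ih _ _ _ b t' (by omega) ?_
      rw [List.map_append, List.map_singleton, hev]
      exact h'

theorem act_of_solves {A : GenAlg n} {x : Fin n → ℤ} {C : ℕ} (h : SolvesWithin A x C) :
    ∃ b, (act (hat x) A (units n) C).2 = some b ∧ (b = true ↔ HasThreeSum x) := by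
  obtain ⟨b, t, ht, hr, hb⟩ := h
  refine ⟨b, act_runs x A (units n) C b t ht ?_, hb⟩
  rw [map_units]
  exact hr

/-- The run which treats all forms as different from each other as soon as they differ in the
coordinate `p`; it stops when `p` occurs in more than `D` forms. -/
noncomputable def gp (x : Fin (n + 1) → ℤ) (p : Fin (n + 1)) (D : ℕ) :
    GenAlg n → List (Fin (n + 1) → ℤ) → ℕ → List (Fin (n + 1) → ℤ)
  | GenAlg.answer _, L, _ => L
  | GenAlg.ask d c next, L, B =>
    if cost c ≤ B ∧ dp p (L ++ [Fin.cons d c]) ≤ D then
      gp x p D (next fun j => decide ((L.map fun v => (v p, comb v x))[j]? =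
        some ((Fin.cons d c : Fin (n + 1) → ℤ) p, comb (Fin.cons d c : Fin (n + 1) → ℤ) x)))
        (L ++ [Fin.cons d c]) (B - cost c)
    else L

theorem gp_subset (x : Fin (n + 1) → ℤ) (p : Fin (n + 1)) (D : ℕ) (A : GenAlg n) :
    ∀ (L : List (Fin (n + 1) → ℤ)) (B : ℕ), L ⊆ gp x p D A L B := by
  induction A with
  | answer b => intro L B; simp [gp]
  | ask d c next ih =>
    intro L B
    rw [gp]
    split_ifs
    · exact List.Subset.trans (List.subset_append_left _ _) (ih _ _ _)
    · simp

theorem dp_gp (x : Fin (n + 1) → ℤ) (p : Fin (n + 1)) (D : ℕ) (A : GenAlg n) :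
    ∀ (L : List (Fin (n + 1) → ℤ)) (B : ℕ), dp p L ≤ D → dp p (gp x p D A L B) ≤ D := by
  induction A with
  | answer b => intro L B h; simpa [gp] using h
  | ask d c next ih =>
    intro L B h
    rw [gp]
    split_ifs with h1
    · exact ih _ _ _ h1.2
    · exact h

theorem wt_gp (x : Fin (n + 1) → ℤ) (p : Fin (n + 1)) (D : ℕ) (A : GenAlg n) :
    ∀ (L : List (Fin (n + 1) → ℤ)) (B : ℕ), wt (gp x p D A L B) ≤ wt L + B := by
  induction A with
  | answer b => intro L B; simp [gp]
  | ask d c next ih =>
    intro L B
    rw [gp]
    split_ifs with h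
    · refine (ih _ _ _).trans ?_
      simp only [wt, List.map_append, List.map_cons, List.map_nil, List.sum_append,
        List.sum_cons, List.sum_nil, Fin.tail_cons]
      omega
    · simp

theorem gp_update (x : Fin (n + 1) → ℤ) (p : Fin (n + 1)) (a : ℤ) (D : ℕ) (A : GenAlg n) :
    ∀ (L : List (Fin (n + 1) → ℤ)) (B : ℕ),
    gp (Function.update x p a) p D A L B = gp x p D A L B := by
  induction A with
  | answer b => intro L B; simp [gp]
  | ask d c next ih =>
    intro L B
    rw [gp, gp]
    split_ifs with h
    · set e : Fin (n + 1) → ℤ := Fin.cons d c with he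
      have hresp : (fun j : ℕ => decide ((L.map fun v => (v p, comb v (Function.update x p a)))[j]? =
          some (e p, comb e (Function.update x p a)))) =
          fun j : ℕ => decide ((L.map fun v => (v p, comb v x))[j]? = some (e p, comb e x)) := by
        funext j
        rw [List.getElem?_map, List.getElem?_map]
        cases hj : L[j]? with
        | none => simp
        | some v =>
          simp only [Option.map_some, Option.some.injEq, decide_eq_decide, Prod.mk.injEq]
          rw [comb_update, comb_update]
          constructor
          · rintro ⟨h1, h2⟩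
            rw [h1] at h2
            exact ⟨h1, by linarith⟩
          · rintro ⟨h1, h2⟩
            refine ⟨h1, ?_⟩
            rw [h1, h2]
      rw [hresp]
      exact ih _ _ _
    · rfl

/-- If no two forms of the run `gp` which differ in `p` have equal values, then the actual run
follows `gp`. -/
theorem gp_act {x : Fin (n + 1) → ℤ} {p : Fin (n + 1)} {D : ℕ} (A : GenAlg n) :
    ∀ (L : List (Fin (n + 1) → ℤ)) (B : ℕ),
    (∀ u ∈ gp x p D A L B, ∀ v ∈ gp x p D A L B, u p ≠ v p → comb u x ≠ comb v x) →
    gp x p D A L B ⊆ (act x A L B).1 ∧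
      (dp p (act x A L B).1 ≤ D → gp x p D A L B = (act x A L B).1) := by
  induction A with
  | answer b => intro L B _; simp [act, gp]
  | ask d c next ih =>
    intro L B h
    by_cases hB : cost c ≤ B
    · by_cases hD : dp p (L ++ [(Fin.cons d c : Fin (n + 1) → ℤ)]) ≤ D
      · rw [gp, if_pos ⟨hB, hD⟩] at h ⊢
        rw [act, if_pos hB]
        set e : Fin (n + 1) → ℤ := Fin.cons d c with he
        have hsub := gp_subset x p D (next fun j => decide ((L.map fun v => (v p, comb v x))[j]? =
          some (e p, comb e x))) (L ++ [e]) (B - cost c)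
        have hresp : (fun j : ℕ => decide ((L.map fun v => (v p, comb v x))[j]? =
            some (e p, comb e x))) =
            fun j : ℕ => decide ((L.map fun v => comb v x)[j]? = some (comb e x)) := by
          funext j
          rw [List.getElem?_map, List.getElem?_map]
          cases hj : L[j]? with
          | none => simp
          | some v =>
            have hv : v ∈ L := List.mem_of_getElem? hj
            simp only [Option.map_some, Option.some.injEq, decide_eq_decide, Prod.mk.injEq]
            refine ⟨fun h1 => h1.2, fun h1 => ⟨?_, h1⟩⟩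
            by_contra hne
            exact h v (hsub (by simp [hv])) e (hsub (by simp)) hne h1
        rw [hresp] at h ⊢
        exact ih _ _ _ h
      · rw [gp, if_neg (fun h' => hD h'.2)]
        refine ⟨act_subset _ _ _ _, fun hd => ?_⟩
        exfalso
        apply hD
        refine le_trans (dp_mono ?_) hd
        rw [act, if_pos hB]
        exact act_subset _ _ _ _
    · rw [gp, if_neg (fun h' => hB h'.1), act, if_neg hB]
      simp

end Pool.Agent.ThreeSum.Term
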