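import Pool.Agent.ThreeSum.TermMain
import Pool.Agent.ThreeSum.GenericUpper

/-!
The matching upper bound for the total number of terms, and zero-error algorithms.
-/

namespace Pool.Agent.ThreeSum.Term

variable {n : ℕ}

theorem cost_le_three (i j : Fin n) :
    cost (Pi.single i 1 + Pi.single j 1 : Fin n → ℤ) ≤ 3 := by
  have h : (Finset.univ.filter fun k => (Pi.single i 1 + Pi.single j 1 : Fin n → ℤ) k ≠ 0) ⊆
      {i, j} := by
    intro k hk
    rw [Finset.mem_filter] at hk
    by_contra hcon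
    simp only [Finset.mem_insert, Finset.mem_singleton, not_or] at hcon
    exact hk.2 (by simp [hcon.1, hcon.2])
  have h2 := (Finset.card_le_card h).trans Finset.card_le_two
  rw [cost]
  omega

theorem scan_runs (x : Fin n → ℤ) (l : List (Fin n × Fin n)) : ∀ (b : Bool) (w : List ℤ),
    ∃ b' t, t ≤ 3 * l.length ∧ Runs x (scan l b) (List.ofFn x ++ w) b' t ∧
      (b' = true ↔ (b = true ∨ ∃ p ∈ l, p.1 ≠ p.2 ∧ ∃ k : Fin n, p.1 ≠ k ∧ p.2 ≠ k ∧
        x p.1 + x p.2 = x k)) := by
  classical
  induction l with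
  | nil => intro b w; exact ⟨b, 0, by simp, Runs.answer _ _, by simp⟩
  | cons p l ih =>
    intro b w
    have hk : ∀ k : Fin n, (decide ((List.ofFn x ++ w)[(k : ℕ)]? =
        some (0 + comb (Pi.single p.1 1 + Pi.single p.2 1) x)) = true) ↔ x p.1 + x p.2 = x k := by
      intro k
      rw [List.getElem?_append_left (by simp), List.getElem?_ofFn, comb_add, comb_single,
        comb_single, zero_add]
      simp only [Fin.is_lt, dite_true, Fin.eta, Option.some.injEq, decide_eq_true_eq]
      exact eq_comm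
    obtain ⟨b', t, ht, h1, h2⟩ := ih (b || decide (p.1 ≠ p.2 ∧ ∃ k : Fin n, p.1 ≠ k ∧ p.2 ≠ k ∧
      (decide ((List.ofFn x ++ w)[(k : ℕ)]? =
        some (0 + comb (Pi.single p.1 1 + Pi.single p.2 1) x)) = true)))
      (w ++ [0 + comb (Pi.single p.1 1 + Pi.single p.2 1) x])
    refine ⟨b', cost (Pi.single p.1 1 + Pi.single p.2 1 : Fin n → ℤ) + t, ?_, ?_, ?_⟩
    · have := cost_le_three p.1 p.2
      rw [List.length_cons]
      omega
    · rw [scan]
      refine Runs.ask _ _ _ _ _ _ ?_
      rw [List.append_assoc]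
      exact h1
    · rw [h2]
      simp only [hk, Bool.or_eq_true, decide_eq_true_eq, List.mem_cons, exists_eq_or_imp, or_assoc]

/-- There is a deterministic generic algorithm of total cost `3 n ^ 2`. -/
theorem exists_solver (n : ℕ) : ∃ A : GenAlg n, ∀ x : Fin n → ℤ, SolvesWithin A x (3 * n ^ 2) := by
  classical
  refine ⟨scan (Finset.univ : Finset (Fin n × Fin n)).toList false, fun x => ?_⟩
  obtain ⟨b', t, ht, h1, h2⟩ := scan_runs x (Finset.univ : Finset (Fin n × Fin n)).toList false []
  rw [List.append_nil] at h1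
  refine ⟨b', t, ?_, h1, ?_⟩
  · refine ht.trans ?_
    rw [Finset.length_toList, Finset.card_univ, Fintype.card_prod, Fintype.card_fin, sq]
  · rw [h2]
    simp only [Bool.false_eq_true, false_or, Finset.mem_toList, Finset.mem_univ, true_and]
    constructor
    · rintro ⟨p, h3, k, h4, h5, h6⟩
      exact ⟨p.1, p.2, k, h3, h4, h5, h6⟩
    · rintro ⟨i, j, k, h3, h4, h5, h6⟩
      exact ⟨(i, j), h3, k, h4, h5, h6⟩

/-! ### Reading the input by baby steps and giant steps -/

/-- Ask all the questions of a list, and compute the answer from the responses. -/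
def askAll : List (ℤ × (Fin n → ℤ)) → (List (ℕ → Bool) → Bool) → GenAlg n
  | [], f => GenAlg.answer (f [])
  | q :: l, f => GenAlg.ask q.1 q.2 fun r => askAll l fun rs => f (r :: rs)

/-- The value of a question. -/
def val (x : Fin n → ℤ) (q : ℤ × (Fin n → ℤ)) : ℤ := q.1 + comb q.2 x

/-- The list of responses. -/
def resp (x : Fin n → ℤ) : List ℤ → List (ℤ × (Fin n → ℤ)) → List (ℕ → Bool)
  | _, [] => []
  | vals, q :: l => (fun j => decide (vals[j]? = some (val x q))) :: resp x (vals ++ [val x q]) l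

theorem askAll_runs (x : Fin n → ℤ) (l : List (ℤ × (Fin n → ℤ))) :
    ∀ (f : List (ℕ → Bool) → Bool) (vals : List ℤ),
    Runs x (askAll l f) vals (f (resp x vals l)) (l.map fun q => cost q.2).sum := by
  induction l with
  | nil => intro f vals; exact Runs.answer _ _
  | cons q l ih =>
    intro f vals
    rw [askAll, resp, List.map_cons, List.sum_cons]
    exact Runs.ask _ _ _ _ _ _ (ih _ _)

theorem resp_get (x : Fin n → ℤ) (pre : List (ℤ × (Fin n → ℤ))) : ∀ (vals : List ℤ)
    (q : ℤ × (Fin n → ℤ)) (post : List (ℤ × (Fin n → ℤ))),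
    (resp x vals (pre ++ q :: post))[pre.length]? =
      some fun j => decide ((vals ++ pre.map (val x))[j]? = some (val x q)) := by
  induction pre with
  | nil => intro vals q post; simp [resp]
  | cons p pre ih =>
    intro vals q post
    rw [List.cons_append, resp, List.length_cons, List.getElem?_cons_succ, ih, List.map_cons,
      List.append_assoc, List.singleton_append]

/-- The questions of the reading algorithm: giant steps and baby steps. -/
def readList (n R g J : ℕ) : List (ℤ × (Fin n → ℤ)) :=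
  ((List.range J).map fun j : ℕ => (-(R : ℤ) + j * g, 0)) ++
    ((List.finRange n ×ˢ List.range g).map fun q : Fin n × ℕ => ((q.2 : ℤ), Pi.single q.1 1))

theorem cost_zero : cost (0 : Fin n → ℤ) = 1 := by simp [cost]

theorem cost_single (i : Fin n) : cost (Pi.single i 1 : Fin n → ℤ) = 2 := by
  have h : (Finset.univ.filter fun j => (Pi.single i 1 : Fin n → ℤ) j ≠ 0) = {i} := by
    ext j
    rw [Finset.mem_filter, Finset.mem_singleton]
    constructor
    · intro hj
      by_contra hne
      exact hj.2 (by simp [hne])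
    · rintro rfl
      exact ⟨Finset.mem_univ _, by simp⟩
  rw [cost, h, Finset.card_singleton]

theorem readList_cost (n R g J : ℕ) :
    ((readList n R g J).map fun q => cost q.2).sum = J + n * g * 2 := by
  rw [readList, List.map_append, List.sum_append, List.map_map, List.map_map]
  have h1 : ((fun q : ℤ × (Fin n → ℤ) => cost q.2) ∘ fun j : ℕ => (-(R : ℤ) + j * g, (0 : Fin n → ℤ)))
      = fun _ => 1 := by
    funext j; exact cost_zero
  have h2 : ((fun q : ℤ × (Fin n → ℤ) => cost q.2) ∘
      fun q : Fin n × ℕ => ((q.2 : ℤ), (Pi.single q.1 1 : Fin n → ℤ))) = fun _ => 2 := by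
    funext j; exact cost_single _
  rw [h1, h2, List.map_const', List.map_const', List.sum_replicate, List.sum_replicate,
    List.length_range, List.length_product, List.length_finRange, List.length_range]
  simp

theorem read_unique {R g J : ℕ} (hcov : ∀ z : ℤ, |z| ≤ R → ∃ j < J, ∃ k < g,
    z + (k : ℤ) = -(R : ℤ) + j * g) {x x' : Fin n → ℤ} (hx : ∀ i, |x i| ≤ R)
    (h : resp x (List.ofFn x) (readList n R g J) = resp x' (List.ofFn x') (readList n R g J)) :
    x = x' := by
  funext i
  obtain ⟨j, hj, k, hk, hjk⟩ := hcov (x i) (hx i)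
  have hmem : ((i, k) : Fin n × ℕ) ∈ List.finRange n ×ˢ List.range g := by
    rw [List.mem_product]
    exact ⟨List.mem_finRange i, List.mem_range.2 hk⟩
  obtain ⟨a, b, hab⟩ := List.append_of_mem hmem
  set pre : List (ℤ × (Fin n → ℤ)) := ((List.range J).map fun j : ℕ => (-(R : ℤ) + j * g, 0)) ++
    (a.map fun q : Fin n × ℕ => ((q.2 : ℤ), Pi.single q.1 1)) with hpre
  have hl : readList n R g J = pre ++ ((k : ℤ), Pi.single i 1) ::
      (b.map fun q : Fin n × ℕ => ((q.2 : ℤ), (Pi.single q.1 1 : Fin n → ℤ))) := by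
    rw [readList, hab, hpre, List.map_append, List.map_cons, List.append_assoc]
  rw [hl] at h
  have h1 := resp_get x pre (List.ofFn x) ((k : ℤ), Pi.single i 1)
    (b.map fun q : Fin n × ℕ => ((q.2 : ℤ), (Pi.single q.1 1 : Fin n → ℤ)))
  have h2 := resp_get x' pre (List.ofFn x') ((k : ℤ), Pi.single i 1)
    (b.map fun q : Fin n × ℕ => ((q.2 : ℤ), (Pi.single q.1 1 : Fin n → ℤ)))
  rw [h, h2] at h1
  simp only [Option.some.injEq] at h1
  have h3 := congrFun h1 (n + j)
  have hval : ∀ z : Fin n → ℤ, (List.ofFn z ++ pre.map (val z))[n + j]? =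
      some (-(R : ℤ) + j * g) := by
    intro z
    rw [List.getElem?_append_right (by simp), List.length_ofFn, Nat.add_sub_cancel_left,
      hpre, List.map_append, List.getElem?_append_left (by simpa using hj), List.getElem?_map,
      List.getElem?_map, List.getElem?_range hj]
    simp [val, comb]
  have hv : ∀ z : Fin n → ℤ, val z ((k : ℤ), Pi.single i 1) = z i + k := by
    intro z
    simp only [val, comb_single]
    ring
  rw [hval, hval, hv, hv] at h3
  simp only [Option.some.injEq, decide_eq_decide] at h3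
  have h4 := h3.2 hjk.symm
  linarith

open Classical in
theorem exists_reader {R g J : ℕ} (hcov : ∀ z : ℤ, |z| ≤ R → ∃ j < J, ∃ k < g,
    z + (k : ℤ) = -(R : ℤ) + j * g) : ∃ A : GenAlg n, ∀ x : Fin n → ℤ, (∀ i, |x i| ≤ R) →
      SolvesWithin A x (J + n * g * 2) := by
  refine ⟨askAll (readList n R g J) fun rs => decide (∃ x : Fin n → ℤ, (∀ i, |x i| ≤ R) ∧
    resp x (List.ofFn x) (readList n R g J) = rs ∧ HasThreeSum x), fun x hx => ?_⟩
  refine ⟨_, _, le_of_eq (readList_cost n R g J), askAll_runs x _ _ _, ?_⟩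
  rw [decide_eq_true_iff]
  constructor
  · rintro ⟨x', hx', h, hs⟩
    rw [read_unique hcov hx h.symm]
    exact hs
  · intro hs
    exact ⟨x, hx, rfl, hs⟩

theorem cover {R g : ℕ} (hg : 0 < g) (z : ℤ) (hz : |z| ≤ R) :
    ∃ j < 2 * R / g + 2, ∃ k < g, z + (k : ℤ) = -(R : ℤ) + j * g := by
  have h1 := abs_le.1 hz
  obtain ⟨m, hm⟩ : ∃ m : ℕ, (m : ℤ) = z + R := ⟨(z + R).toNat, by
    rw [Int.toNat_of_nonneg]; linarith⟩
  have hm2 : m ≤ 2 * R := by
    have : (m : ℤ) ≤ 2 * R := by linarith
    exact_mod_cast this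
  have h2 := Nat.div_add_mod (m + g - 1) g
  have h3 := Nat.mod_lt (m + g - 1) hg
  set j := (m + g - 1) / g with hj
  have h4 : m ≤ g * j := by omega
  have h5 : g * j < m + g := by omega
  refine ⟨j, ?_, g * j - m, by omega, ?_⟩
  · have h6 : j ≤ (2 * R + g) / g := Nat.div_le_div_right (by omega)
    rw [Nat.add_div_right _ hg] at h6
    omega
  · rw [Nat.cast_sub h4]
    push_cast
    linarith [mul_comm (g : ℤ) j]

/-- **Upper bound.** -/
theorem upper_bound {n R : ℕ} (hn : 1 ≤ n) (hR : n ≤ R) : ∃ A : GenAlg n, ∀ x : Fin n → ℤ,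
    (∀ i, |x i| ≤ R) → SolvesWithin A x (10 * min (n ^ 2) (Nat.sqrt (n * R))) := by
  have mono : ∀ {A : GenAlg n} {x : Fin n → ℤ} {C C' : ℕ}, C ≤ C' → SolvesWithin A x C →
      SolvesWithin A x C' := fun h ⟨b, t, ht, h1, h2⟩ => ⟨b, t, ht.trans h, h1, h2⟩
  rcases le_total (n ^ 2) (Nat.sqrt (n * R)) with h | h
  · rw [min_eq_left h]
    obtain ⟨A, hA⟩ := exists_solver n
    exact ⟨A, fun x _ => mono (by omega) (hA x)⟩
  · rw [min_eq_right h]
    set s := Nat.sqrt (n * R) with hs
    have hs1 : n ≤ s := by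
      rw [hs, Nat.le_sqrt]
      exact Nat.mul_le_mul_left _ hR
    have hs2 : n * R < (s + 1) * (s + 1) := Nat.lt_succ_sqrt (n * R)
    obtain ⟨A, hA⟩ := exists_reader (n := n) (R := R) (g := s / n + 1) (cover (Nat.succ_pos _))
    refine ⟨A, fun x hx => mono ?_ (hA x hx)⟩
    set g := s / n + 1 with hg
    have h1 : n * (s / n) ≤ s := Nat.mul_div_le _ _
    have h2 : s < n * g := Nat.lt_mul_div_succ s hn
    have h3 : n * g ≤ s + n := by rw [hg, mul_add, mul_one]; omega
    have h4 : R < (s + 1) * g := by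
      have h5 : n * R < n * ((s + 1) * g) := by
        calc n * R < (s + 1) * (s + 1) := hs2
          _ ≤ (s + 1) * (n * g) := Nat.mul_le_mul_left _ h2
          _ = n * ((s + 1) * g) := by ring
      exact Nat.lt_of_mul_lt_mul_left h5
    have h6 : 2 * R / g ≤ 2 * (s + 1) := by
      have : 2 * R / g < 2 * (s + 1) := by
        rw [Nat.div_lt_iff_lt_mul (Nat.succ_pos _)]
        calc 2 * R < 2 * ((s + 1) * g) := by omega
          _ = 2 * (s + 1) * g := by ring
      exact this.le
    omega

/-- Zero-error algorithms, by the inequality of Markov. -/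
theorem zero_error_bound {Ω : Type} [Fintype Ω] {R : ℕ} {E : ℝ} {μ : Ω → ℝ} {A : Ω → GenAlg n}
    (h : ZeroErrorSolver n R E μ A) (hn : 4000 ≤ n) (hR : 100 * n ^ 2 ≤ R) :
    ((min (n ^ 2) (Nat.sqrt (n * R)) : ℕ) : ℝ) ≤ 6000 * E := by
  classical
  obtain ⟨hμ, h1, hA⟩ := h
  have hE : 0 ≤ E := by
    have hinj : Function.Injective fun i : Fin n => (i : ℤ) := fun i j hij => by
      simpa [Fin.ext_iff] using hij
    obtain ⟨c, _, hc⟩ := hA (fun i => (i : ℤ)) hinj (fun i => by
      have h2 : (i : ℕ) < n := i.2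
      have h3 : n ≤ R := le_trans (by nlinarith) hR
      rw [abs_of_nonneg (by positivity)]
      omega)
    exact le_trans (Finset.sum_nonneg fun ω _ => mul_nonneg (hμ ω) (Nat.cast_nonneg _)) hc
  have key : RandomisedSolver n R ⌊3 * E⌋₊ μ A := by
    refine ⟨hμ, h1, fun x hx hb => ?_⟩
    obtain ⟨c, hc1, hc2⟩ := hA x hx hb
    have h2 : ∀ ω, μ ω - (if SolvesWithin (A ω) x ⌊3 * E⌋₊ then μ ω else 0) ≤
        if ⌊3 * E⌋₊ < c ω then μ ω else 0 := by
      intro ω
      by_cases h3 : ⌊3 * E⌋₊ < c ω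
      · rw [if_pos h3]
        split_ifs
        · have := hμ ω; linarith
        · linarith
      · rw [if_neg h3, if_pos]
        · linarith
        · obtain ⟨b, hb1, hb2⟩ := hc1 ω
          exact ⟨b, c ω, not_lt.1 h3, hb1, hb2⟩
    have h3 : ∀ ω, (if ⌊3 * E⌋₊ < c ω then μ ω else 0) * (3 * E) ≤ μ ω * c ω := by
      intro ω
      split_ifs with h4
      · refine mul_le_mul_of_nonneg_left ?_ (hμ ω)
        exact (Nat.lt_of_floor_lt h4).le
      · rw [zero_mul]; exact mul_nonneg (hμ ω) (Nat.cast_nonneg _)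
    have h4 := Finset.sum_le_sum fun ω (_ : ω ∈ (Finset.univ : Finset Ω)) => h2 ω
    have h5 := Finset.sum_le_sum fun ω (_ : ω ∈ (Finset.univ : Finset Ω)) => h3 ω
    rw [Finset.sum_sub_distrib, h1] at h4
    rw [← Finset.sum_mul] at h5
    set s := ∑ ω, (if ⌊3 * E⌋₊ < c ω then μ ω else 0)
    by_cases hE0 : E = 0
    · have h6 : s = 0 := by
        refine Finset.sum_eq_zero fun ω _ => ?_
        split_ifs with h7
        · have h8 : μ ω * c ω ≤ 0 := by
            have h9 : μ ω * (c ω : ℝ) ≤ ∑ ω, μ ω * c ω :=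
              Finset.single_le_sum (f := fun ω => μ ω * (c ω : ℝ))
                (fun ω _ => mul_nonneg (hμ ω) (Nat.cast_nonneg _)) (Finset.mem_univ ω)
            rw [hE0] at hc2
            linarith
          have h10 : (1 : ℝ) ≤ c ω := by
            have : 1 ≤ c ω := by omega
            exact_mod_cast this
          nlinarith [hμ ω]
        · rfl
      rw [h6] at h4
      linarith
    · have hEpos : 0 < E := lt_of_le_of_ne hE (Ne.symm hE0)
      have h6 : s * (3 * E) ≤ E := h5.trans hc2
      have h7 : s ≤ 1 / 3 := by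
        by_contra hcon
        push Not at hcon
        nlinarith
      linarith
  have h2 := term_lower_bound key hn hR
  have h3 : ((min (n ^ 2) (Nat.sqrt (n * R)) : ℕ) : ℝ) ≤ ((2000 * ⌊3 * E⌋₊ : ℕ) : ℝ) := by
    exact_mod_cast h2
  push_cast at h3 ⊢
  have h4 : (⌊3 * E⌋₊ : ℝ) ≤ 3 * E := Nat.floor_le (by positivity)
  linarith

end Pool.Agent.ThreeSum.Term
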