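import Pool.Agent.ThreeSum.CmpMain

/-!
The three-sum problem on integers of polynomial size: quadratic lower bound for three-linear
decision procedures with bounded coefficients.
-/

namespace Pool.Agent.ThreeSum.ThreeLinearResult

open Pool.Agent.ThreeSum.Cmp

/-- Quadratic lower bound for three-sum on `n` distinct integers from `[-n^3, n^3]` for randomised
algorithms which ask for signs of integer linear combinations, with coefficients bounded by `B`, of
at most three inputs; for bounded-error algorithms, and for zero-error algorithms with bounded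
expected number of questions. -/
theorem result :
    (∀ (Ω : Type) [Fintype Ω] (n B T : ℕ) (μ : Ω → ℝ) (A : Ω → CmpAlg n),
      1 ≤ B → 40 * B ^ 2 ≤ n → RandomisedSolver n B T μ A → n ^ 2 ≤ 19200 * B ^ 4 * T) ∧
    (∀ (Ω : Type) [Fintype Ω] (n B : ℕ) (E : ℝ) (μ : Ω → ℝ) (A : Ω → CmpAlg n),
      1 ≤ B → 40 * B ^ 2 ≤ n → ZeroErrorSolver n B E μ A → (n : ℝ) ^ 2 ≤ 57600 * B ^ 4 * E) :=
  ⟨fun _ _ _ _ _ _ _ hB hn h => cmp_lower_bound h hB hn,
    fun _ _ _ _ _ _ _ hB hn h => zero_error_bound h hB hn⟩

end Pool.Agent.ThreeSum.ThreeLinearResult
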