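import Pool.Agent.ThreeSum.TradeRun

/-!
Counting arguments: accidental coincidences involve few light coordinates.
-/

namespace Pool.Agent.ThreeSum.Trade

open Finset

variable {n M : ℕ}

/-- The input (extended by `1`) with odd entries given by `y`. -/
def inp (y : Fin n → Fin M) : Fin (n + 1) → ℤ := hat fun i => 2 * (y i : ℤ) + 1

theorem inp_succ (y : Fin n → Fin M) (i : Fin n) : inp y i.succ = 2 * (y i : ℤ) + 1 := by
  simp [inp, hat]

theorem inp_update (y : Fin n → Fin M) (p : Fin n) (a : Fin M) :
    inp (Function.update y p a) = Function.update (inp y) p.succ (2 * (a : ℤ) + 1) := by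
  funext i
  refine Fin.cases ?_ (fun j => ?_) i
  · rw [Function.update_of_ne (Fin.succ_ne_zero p).symm]
    simp [inp, hat]
  · by_cases h : j = p
    · subst h
      rw [inp_succ]
      simp
    · have h' : j.succ ≠ p.succ := fun e => h (Fin.succ_injective _ e)
      rw [inp_succ, Function.update_of_ne h', Function.update_of_ne h, inp_succ]

theorem comb_inp_update (d : Fin (n + 1) → ℤ) (y : Fin n → Fin M) (p : Fin n) (a : Fin M) :
    comb d (inp (Function.update y p a)) = comb d (inp y) + d p.succ * (2 * ((a : ℤ) - y p)) := by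
  rw [inp_update, comb_update, inp_succ]
  ring

/-- A form containing `p` vanishes for at most one value of the coordinate `p`. -/
theorem unique_zero {d : Fin (n + 1) → ℤ} {y : Fin n → Fin M} {p : Fin n} {a a' : Fin M}
    (hd : d p.succ ≠ 0) (h : comb d (inp (Function.update y p a)) = 0)
    (h' : comb d (inp (Function.update y p a')) = 0) : a = a' := by
  rw [comb_inp_update] at h h'
  have h1 : d p.succ * (2 * ((a : ℤ) - a')) = 0 := by linarith
  rcases mul_eq_zero.1 h1 with h2 | h2
  · exact absurd h2 hd
  · apply Fin.ext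
    have : (a : ℤ) = a' := by linarith
    exact_mod_cast this

variable (A : GenAlg n) (C : ℕ × ℕ)

/-- The forms asked for on the input `y`. -/
noncomputable def F (y : Fin n → Fin M) : List (Fin (n + 1) → ℤ) :=
  (act (inp y) A (units n) C).1

theorem length_units : (units n).length = n := by simp [units]

theorem tt_units : tt (units n) = n := by
  have : ∀ i : Fin n, terms (Fin.tail (Pi.single i.succ 1 : Fin (n + 1) → ℤ)) = 1 := by
    intro i
    have h : (univ.filter fun j : Fin n => Fin.tail (Pi.single i.succ 1 : Fin (n + 1) → ℤ) j ≠ 0) =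
        {i} := by
      ext j
      rw [mem_filter, mem_singleton]
      constructor
      · intro hj
        by_contra hne
        have : j.succ ≠ i.succ := fun e => hne (Fin.succ_injective _ e)
        exact hj.2 (by simp [Fin.tail, this])
      · rintro rfl
        exact ⟨mem_univ _, by simp [Fin.tail]⟩
    rw [terms, h, card_singleton]
  unfold tt units
  rw [List.map_ofFn, List.sum_ofFn]
  simp only [Function.comp_apply, this]
  simp

theorem tt_F (y : Fin n → Fin M) : tt (F A C y) ≤ n + C.2 := by
  refine (tt_act _ _ _ _).trans ?_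
  rw [tt_units]

theorem card_F (y : Fin n → Fin M) : (F A C y).toFinset.card ≤ n + C.1 := by
  refine (List.toFinset_card_le _).trans ((length_act _ _ _ _).trans ?_)
  rw [length_units]

theorem sum_toFinset_le {α : Type*} [DecidableEq α] (f : α → ℕ) (L : List α) :
    ∑ u ∈ L.toFinset, f u ≤ (L.map f).sum := by
  induction L with
  | nil => simp
  | cons a L ih =>
    rw [List.toFinset_cons, List.map_cons, List.sum_cons]
    by_cases h : a ∈ L.toFinset
    · rw [insert_eq_of_mem h]; omega
    · rw [sum_insert h]; omega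

theorem sum_dp_le_tt (L : List (Fin (n + 1) → ℤ)) : ∑ p : Fin n, dp p.succ L ≤ tt L := by
  refine le_trans ?_ (sum_toFinset_le (fun u => terms (Fin.tail u)) L)
  have h : ∀ p : Fin n, dp p.succ L = ∑ u ∈ L.toFinset, if u p.succ ≠ 0 then 1 else 0 := by
    intro p
    rw [dp, card_filter]
  simp only [h]
  rw [sum_comm]
  refine sum_le_sum fun u _ => ?_
  rw [← card_filter, terms]
  exact le_rfl

theorem sum_dp_F (y : Fin n → Fin M) : ∑ p : Fin n, dp p.succ (F A C y) ≤ n + C.2 :=
  (sum_dp_le_tt _).trans (tt_F A C y)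

/-- The number of forms up to their constant terms. -/
theorem card_image_tail_le {β : Type*} [DecidableEq β] (L : List (Fin (n + 1) → ℤ))
    (f : (Fin (n + 1) → ℤ) → β) (b : β) (hf : ∀ u, terms (Fin.tail u) = 0 → f u = b) :
    (L.toFinset.image f).card ≤ tt L + 1 := by
  have h1 : L.toFinset.image f ⊆
      insert b ((L.toFinset.filter fun u => terms (Fin.tail u) ≠ 0).image f) := by
    intro t ht
    rw [mem_image] at ht
    obtain ⟨u, hu, rfl⟩ := ht
    by_cases h0 : terms (Fin.tail u) = 0
    · rw [hf u h0]
      exact mem_insert_self _ _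
    · exact mem_insert_of_mem (mem_image_of_mem _ (mem_filter.2 ⟨hu, h0⟩))
  refine (card_le_card h1).trans ((card_insert_le _ _).trans (Nat.add_le_add_right ?_ 1))
  refine card_image_le.trans ?_
  refine le_trans ?_ (sum_toFinset_le (fun u => terms (Fin.tail u)) L)
  rw [card_filter]
  refine sum_le_sum fun u _ => ?_
  split_ifs with h
  · omega
  · exact Nat.zero_le _

/-- The coordinate `p` is light on the input `y`. -/
def Light (D : ℕ) (p : Fin n) (y : Fin n → Fin M) : Prop := dp p.succ (F A C y) ≤ D

/-- The coordinate `p` is involved in an accidental coincidence on the input `y`. -/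
def InK (p : Fin n) (y : Fin n → Fin M) : Prop :=
  ∃ u ∈ F A C y, ∃ w ∈ F A C y, u p.succ ≠ w p.succ ∧ comb u (inp y) = comb w (inp y)

/-- No two forms of `G` that differ in `p` have equal values. -/
def Free (G : List (Fin (n + 1) → ℤ)) (p : Fin n) (y : Fin n → Fin M) : Prop :=
  ∀ u ∈ G, ∀ w ∈ G, u p.succ ≠ w p.succ → comb u (inp y) ≠ comb w (inp y)

open Classical in
theorem card_not_free (G : List (Fin (n + 1) → ℤ)) (p : Fin n) (y : Fin n → Fin M) :
    (univ.filter fun a : Fin M => ¬ Free G p (Function.update y p a)).card ≤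
      dp p.succ G * G.toFinset.card := by
  have h1 : (univ.filter fun a : Fin M => ¬ Free G p (Function.update y p a)) ⊆
      ((G.toFinset.filter fun u => u p.succ ≠ 0) ×ˢ G.toFinset).biUnion fun q =>
        univ.filter fun a : Fin M => q.1 p.succ ≠ q.2 p.succ ∧
          comb (q.1 - q.2) (inp (Function.update y p a)) = 0 := by
    intro a ha
    rw [mem_filter] at ha
    have h2 := ha.2
    unfold Free at h2
    push Not at h2
    obtain ⟨u, hu, w, hw, hne, he⟩ := h2
    rw [mem_biUnion]
    by_cases hu0 : u p.succ = 0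
    · refine ⟨(w, u), ?_, ?_⟩
      · rw [mem_product, mem_filter, List.mem_toFinset, List.mem_toFinset]
        exact ⟨⟨hw, fun h => hne (by rw [hu0]; exact h.symm)⟩, hu⟩
      · rw [mem_filter]
        refine ⟨mem_univ _, hne.symm, ?_⟩
        rw [comb_sub]
        simp only
        linarith
    · refine ⟨(u, w), ?_, ?_⟩
      · rw [mem_product, mem_filter, List.mem_toFinset, List.mem_toFinset]
        exact ⟨⟨hu, hu0⟩, hw⟩
      · rw [mem_filter]
        refine ⟨mem_univ _, hne, ?_⟩
        rw [comb_sub]
        simp only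
        linarith
  refine (card_le_card h1).trans (card_biUnion_le.trans ?_)
  have h3 : ∀ q ∈ ((G.toFinset.filter fun u => u p.succ ≠ 0) ×ˢ G.toFinset),
      (univ.filter fun a : Fin M => q.1 p.succ ≠ q.2 p.succ ∧
          comb (q.1 - q.2) (inp (Function.update y p a)) = 0).card ≤ 1 := by
    intro q _
    rw [card_le_one]
    intro a ha a' ha'
    rw [mem_filter] at ha ha'
    refine unique_zero (d := q.1 - q.2) ?_ ha.2.2 ha'.2.2
    rw [Pi.sub_apply]
    exact sub_ne_zero.2 ha.2.1
  refine (sum_le_sum h3).trans ?_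
  rw [sum_const, smul_eq_mul, mul_one, card_product, dp]

open Classical in
theorem card_free (G : List (Fin (n + 1) → ℤ)) (p : Fin n) (y : Fin n → Fin M) {D S : ℕ}
    (hD : dp p.succ G ≤ D) (hS : G.toFinset.card ≤ S) :
    M - D * S ≤ (univ.filter fun a : Fin M => Free G p (Function.update y p a)).card := by
  have h1 := card_not_free G p y
  have h2 : dp p.succ G * G.toFinset.card ≤ D * S := Nat.mul_le_mul hD hS
  have h3 := card_filter_add_card_filter_not (s := (univ : Finset (Fin M)))
    (p := fun a : Fin M => Free G p (Function.update y p a))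
  rw [card_univ, Fintype.card_fin] at h3
  omega

open Classical in
/-- Few pairs of an input and a light coordinate are involved in accidental coincidences. -/
theorem card_inK (D : ℕ) :
    ((univ : Finset ((Fin n → Fin M) × Fin n)).filter
      fun q => Light A C D q.2 q.1 ∧ InK A C q.2 q.1).card * (M - D * (n + C.1)) ≤
      Fintype.card (Fin n → Fin M) * ((n + C.2) * (n + C.1)) := by
  set S := n + C.1 with hS
  set t : Finset (Σ _ : (Fin n → Fin M) × Fin n, (Fin (n + 1) → ℤ) × (Fin (n + 1) → ℤ)) :=
    (univ : Finset ((Fin n → Fin M) × Fin n)).sigma fun z =>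
      ((F A C z.1).toFinset.filter fun u => u z.2.succ ≠ 0) ×ˢ (F A C z.1).toFinset with ht
  have hFS : ∀ y : Fin n → Fin M, (F A C y).toFinset.card ≤ S := fun y => card_F A C y
  have hcard : t.card ≤ Fintype.card (Fin n → Fin M) * ((n + C.2) * S) := by
    rw [ht, card_sigma]
    have h1 : ∀ z ∈ (univ : Finset ((Fin n → Fin M) × Fin n)),
        (((F A C z.1).toFinset.filter fun u => u z.2.succ ≠ 0) ×ˢ (F A C z.1).toFinset).card ≤
          dp z.2.succ (F A C z.1) * S := by
      intro z _
      rw [card_product]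
      exact Nat.mul_le_mul_left _ (hFS z.1)
    refine (sum_le_sum h1).trans ?_
    rw [← sum_mul, Fintype.sum_prod_type]
    have h2 : ∑ y : Fin n → Fin M, ∑ p : Fin n, dp p.succ (F A C y) ≤
        ∑ _y : Fin n → Fin M, (n + C.2) :=
      sum_le_sum fun y _ => sum_dp_F A C y
    rw [sum_const, card_univ, smul_eq_mul] at h2
    calc _ ≤ Fintype.card (Fin n → Fin M) * (n + C.2) * S := Nat.mul_le_mul_right _ h2
      _ = _ := by ring
  have key := card_mul_le_card_mul
    (s := (univ : Finset ((Fin n → Fin M) × Fin n)).filter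
      fun q => Light A C D q.2 q.1 ∧ InK A C q.2 q.1) (t := t) (m := M - D * S) (n := 1)
    (fun q b => b.1.2 = q.2 ∧ (∃ a, b.1.1 = Function.update q.1 q.2 a) ∧
      b.2.1 q.2.succ ≠ b.2.2 q.2.succ ∧ comb b.2.1 (inp q.1) = comb b.2.2 (inp q.1)) ?_ ?_
  · rw [mul_one] at key
    exact key.trans hcard
  · rintro ⟨y, p⟩ hq
    rw [mem_filter] at hq
    obtain ⟨_, hl, hk⟩ := hq
    simp only at hl hk
    set G := gp (inp y) p.succ D A (units n) C with hG
    have hgt : ∀ a : Fin M, gp (inp (Function.update y p a)) p.succ D A (units n) C = G := by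
      intro a
      rw [inp_update, gp_update]
    have hdl : dp p.succ (units n) ≤ D := (dp_mono (act_subset _ _ _ _)).trans hl
    have hdG : dp p.succ G ≤ D := dp_gp _ _ _ _ _ _ hdl
    have hcG : G.toFinset.card ≤ S := by
      refine (List.toFinset_card_le _).trans ((length_gp _ _ _ _ _ _).trans ?_)
      rw [length_units]
    -- there is a coincidence among the forms of `G`
    have hpair : ∃ u ∈ G, ∃ w ∈ G, u p.succ ≠ 0 ∧ u p.succ ≠ w p.succ ∧
        comb u (inp y) = comb w (inp y) := by
      have h1 : ∃ u ∈ G, ∃ w ∈ G, u p.succ ≠ w p.succ ∧ comb u (inp y) = comb w (inp y) := by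
        by_contra hcon
        push Not at hcon
        obtain ⟨_, h2⟩ := gp_act A (units n) C (x := inp y) (p := p.succ) (D := D) hcon
        have h3 := h2 hl
        obtain ⟨u, hu, w, hw, hne, he⟩ := hk
        refine hcon u ?_ w ?_ hne he
        · rw [hG, h3]; exact hu
        · rw [hG, h3]; exact hw
      obtain ⟨u, hu, w, hw, hne, he⟩ := h1
      by_cases hu0 : u p.succ = 0
      · exact ⟨w, hw, u, hu, fun h => hne (by rw [hu0]; exact h.symm), hne.symm, he.symm⟩
      · exact ⟨u, hu, w, hw, hu0, hne, he⟩
    obtain ⟨u, hu, w, hw, hu0, hne, he⟩ := hpair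
    refine (card_free G p y hdG hcG).trans ?_
    refine card_le_card_of_injOn (fun a => ⟨(Function.update y p a, p), (u, w)⟩) ?_ ?_
    · intro a ha
      simp only [coe_filter, mem_univ, true_and, Set.mem_ofPred_eq] at ha
      simp only [coe_bipartiteAbove, Set.mem_ofPred_eq]
      have h1 := (gp_act A (units n) C (x := inp (Function.update y p a)) (p := p.succ) (D := D)
        (by rw [hgt]; exact ha)).1
      rw [hgt] at h1
      refine ⟨?_, trivial, ⟨a, rfl⟩, hne, he⟩
      rw [ht, mem_sigma, mem_product, mem_filter, List.mem_toFinset, List.mem_toFinset]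
      exact ⟨mem_univ _, ⟨h1 hu, hu0⟩, h1 hw⟩
    · intro a _ a' _ h
      simp only [Sigma.mk.injEq, Prod.mk.injEq, and_true, heq_eq_eq] at h
      have := congrFun h p
      simpa using this
  · rintro ⟨⟨z, p⟩, ⟨u, w⟩⟩ _
    rw [card_le_one]
    rintro ⟨y, q⟩ h ⟨y', q'⟩ h'
    rw [mem_bipartiteBelow] at h h'
    obtain ⟨_, h1, ⟨a, ha⟩, h2, h3⟩ := h
    obtain ⟨_, h1', ⟨a', ha'⟩, h2', h3'⟩ := h'
    simp only at h1 ha h2 h3 h1' ha' h2' h3'
    subst h1
    subst h1'
    have e1 : y = Function.update z p (y p) := by rw [ha]; simp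
    have e2 : y' = Function.update z p (y' p) := by rw [ha']; simp
    have e3 : y p = y' p := by
      refine unique_zero (d := u - w) (y := z) (by rw [Pi.sub_apply]; exact sub_ne_zero.2 h2) ?_ ?_
      · rw [← e1, comb_sub]; linarith
      · rw [← e2, comb_sub]; linarith
    rw [e1, e2, e3]

end Pool.Agent.ThreeSum.Trade
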