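import Pool.Agent.ThreeSum.GenericDefs

/-!
The generic group model for the three-sum problem: the number of questions and the total number of
terms in the questions.
-/

namespace Pool.Agent.ThreeSum.Trade

open Finset

/-- The number of terms of `d + c 0 * x 0 + ⋯ + c (n - 1) * x (n - 1)`: the number of nonzero
coefficients among `c 0, ..., c (n - 1)`. -/
def terms {n : ℕ} (c : Fin n → ℤ) : ℕ := (univ.filter fun i => c i ≠ 0).card

/-- The run of the algorithm on the input `x`, when `vals` is the list of the values obtained so
far: its answer, the number of its further questions, and the total number of terms in these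
questions. After the question `d + comb c x` the algorithm learns, for every `j`, whether the new
value is equal to value number `j` among the earlier values. -/
def run {n : ℕ} (x : Fin n → ℤ) : GenAlg n → List ℤ → Bool × ℕ × ℕ
  | GenAlg.answer b, _ => (b, 0, 0)
  | GenAlg.ask d c next, vals =>
    ((run x (next fun j => decide (vals[j]? = some (d + comb c x))) (vals ++ [d + comb c x])).1,
      (run x (next fun j => decide (vals[j]? = some (d + comb c x)))
        (vals ++ [d + comb c x])).2.1 + 1,
      (run x (next fun j => decide (vals[j]? = some (d + comb c x)))
        (vals ++ [d + comb c x])).2.2 + terms c)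

/-- The answer of the algorithm on the input `x`. At the beginning the values known to the
algorithm are the inputs themselves. -/
def answer {n : ℕ} (A : GenAlg n) (x : Fin n → ℤ) : Bool := (run x A (List.ofFn x)).1

/-- The number of questions which the algorithm asks on the input `x`. -/
def questions {n : ℕ} (A : GenAlg n) (x : Fin n → ℤ) : ℕ := (run x A (List.ofFn x)).2.1

/-- The total number of terms in the questions which the algorithm asks on the input `x`. -/
def totalTerms {n : ℕ} (A : GenAlg n) (x : Fin n → ℤ) : ℕ := (run x A (List.ofFn x)).2.2

/-- The answer is correct. -/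
def Correct {n : ℕ} (A : GenAlg n) (x : Fin n → ℤ) : Prop := answer A x = true ↔ HasThreeSum x

open Classical in
/-- A randomised algorithm, given by a probability distribution `μ` on a finite family `A` of
algorithms. On every input of `n` distinct integers from `[-R, R]` the answer is correct with
probability at least `2/3`, the expected number of questions is at most `T`, and the expected total
number of terms in the questions is at most `L`. -/
def Solver {Ω : Type} [Fintype Ω] (n R : ℕ) (T L : ℝ) (μ : Ω → ℝ) (A : Ω → GenAlg n) : Prop :=
  (∀ ω, 0 ≤ μ ω) ∧ ∑ ω, μ ω = 1 ∧
    ∀ x : Fin n → ℤ, Function.Injective x → (∀ i, |x i| ≤ R) →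
      (2 / 3 ≤ ∑ ω, if Correct (A ω) x then μ ω else 0) ∧
        ∑ ω, μ ω * (questions (A ω) x : ℝ) ≤ T ∧ ∑ ω, μ ω * (totalTerms (A ω) x : ℝ) ≤ L

end Pool.Agent.ThreeSum.Trade
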