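import Pool.Agent.ThreeSum.TradePlant

/-!
Lower bound for the number of questions and the total number of terms in the generic group model.
-/

namespace Pool.Agent.ThreeSum.Trade

open Finset

variable {n M : ℕ}

/-- The triples of distinct coordinates. -/
def Trip (n : ℕ) : Finset (Fin n × Fin n × Fin n) :=
  univ.filter fun v => v.1 ≠ v.2.1 ∧ v.1 ≠ v.2.2 ∧ v.2.1 ≠ v.2.2

theorem mem_Trip {v : Fin n × Fin n × Fin n} :
    v ∈ Trip n ↔ v.1 ≠ v.2.1 ∧ v.1 ≠ v.2.2 ∧ v.2.1 ≠ v.2.2 := by
  simp [Trip]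

theorem card_Trip (n : ℕ) : n ^ 3 ≤ (Trip n).card + 3 * n ^ 2 := by
  have h1 : (univ : Finset (Fin n × Fin n × Fin n)) ⊆ Trip n ∪
      (((univ : Finset (Fin n × Fin n)).image fun q => (q.1, q.1, q.2)) ∪
      (((univ : Finset (Fin n × Fin n)).image fun q => (q.1, q.2, q.1)) ∪
      ((univ : Finset (Fin n × Fin n)).image fun q => (q.1, q.2, q.2)))) := by
    rintro ⟨i, j, l⟩ _
    rw [mem_union, mem_union, mem_union, mem_image, mem_image, mem_image, mem_Trip]
    by_cases h1 : i = j
    · subst h1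
      exact Or.inr (Or.inl ⟨(i, l), mem_univ _, rfl⟩)
    by_cases h2 : i = l
    · subst h2
      exact Or.inr (Or.inr (Or.inl ⟨(i, j), mem_univ _, rfl⟩))
    by_cases h3 : j = l
    · subst h3
      exact Or.inr (Or.inr (Or.inr ⟨(i, j), mem_univ _, rfl⟩))
    exact Or.inl ⟨h1, h2, h3⟩
  have h2 := card_le_card h1
  have h3 : (univ : Finset (Fin n × Fin n × Fin n)).card = n ^ 3 := by
    rw [card_univ]
    simp only [Fintype.card_prod, Fintype.card_fin]
    ring
  have h4 : ∀ f : Fin n × Fin n → Fin n × Fin n × Fin n,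
      ((univ : Finset (Fin n × Fin n)).image f).card ≤ n ^ 2 := by
    intro f
    refine card_image_le.trans ?_
    rw [card_univ]
    simp only [Fintype.card_prod, Fintype.card_fin]
    exact le_of_eq (by ring)
  rw [h3] at h2
  refine h2.trans ((card_union_le _ _).trans (Nat.add_le_add_left ?_ _))
  refine (card_union_le _ _).trans ?_
  have h5 := card_union_le ((univ : Finset (Fin n × Fin n)).image fun q => (q.1, q.2, q.1))
    ((univ : Finset (Fin n × Fin n)).image fun q => (q.1, q.2, q.2))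
  have h6 := h4 fun q => (q.1, q.1, q.2)
  have h7 := h4 fun q => (q.1, q.2, q.1)
  have h8 := h4 fun q => (q.1, q.2, q.2)
  omega

open Classical in
theorem card_noninjective :
    ((univ : Finset (Fin n → Fin M)).filter fun y => ¬ Function.Injective y).card * M ≤
      n ^ 2 * Fintype.card (Fin n → Fin M) := by
  have h1 : ((univ : Finset (Fin n → Fin M)).filter fun y => ¬ Function.Injective y) ⊆
      ((univ : Finset (Fin n × Fin n)).filter fun q => q.1 ≠ q.2).biUnion fun q =>
        (univ : Finset (Fin n → Fin M)).filter fun y => y q.1 = y q.2 := by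
    intro y hy
    rw [mem_filter] at hy
    have h2 := hy.2
    unfold Function.Injective at h2
    push Not at h2
    obtain ⟨i, j, h3, h4⟩ := h2
    rw [mem_biUnion]
    exact ⟨(i, j), by rw [mem_filter]; exact ⟨mem_univ _, h4⟩,
      by rw [mem_filter]; exact ⟨mem_univ _, h3⟩⟩
  have h2 : ∀ q ∈ ((univ : Finset (Fin n × Fin n)).filter fun q => q.1 ≠ q.2),
      ((univ : Finset (Fin n → Fin M)).filter fun y => y q.1 = y q.2).card * M ≤
        Fintype.card (Fin n → Fin M) := by
    intro q hq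
    rw [mem_filter] at hq
    have e : (univ : Finset (Fin M)).card = M := by simp
    refine le_trans (le_of_eq (by rw [e])) (?_ : ((univ : Finset (Fin n → Fin M)).filter
      fun y => y q.1 = y q.2).card * (univ : Finset (Fin M)).card ≤ _)
    rw [← card_product, ← card_univ]
    refine card_le_card_of_injOn (fun z => Function.update z.1 q.1 z.2)
      (fun _ _ => mem_coe.2 (mem_univ _)) ?_
    rintro ⟨y, a⟩ h ⟨y', a'⟩ h' e
    simp only [coe_product, Set.mem_prod, mem_coe, mem_filter] at h h'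
    simp only at e
    have e1 : a = a' := by
      have := congrFun e q.1
      simpa using this
    have e2 : ∀ i, i ≠ q.1 → y i = y' i := fun i hi => by
      have := congrFun e i
      rwa [Function.update_of_ne hi, Function.update_of_ne hi] at this
    have e3 : y = y' := by
      funext i
      by_cases hi : i = q.1
      · rw [hi, h.1.2, h'.1.2]
        exact e2 _ hq.2.symm
      · exact e2 i hi
    rw [e1, e3]
  have h3 : ((univ : Finset (Fin n → Fin M)).filter fun y => ¬ Function.Injective y).card * M ≤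
      ∑ q ∈ ((univ : Finset (Fin n × Fin n)).filter fun q => q.1 ≠ q.2),
        ((univ : Finset (Fin n → Fin M)).filter fun y => y q.1 = y q.2).card * M := by
    rw [← sum_mul]
    exact Nat.mul_le_mul_right _ ((card_le_card h1).trans card_biUnion_le)
  refine h3.trans ((sum_le_sum h2).trans ?_)
  rw [sum_const, smul_eq_mul]
  refine Nat.mul_le_mul_right _ ((card_filter_le _ _).trans ?_)
  rw [card_univ]
  simp only [Fintype.card_prod, Fintype.card_fin]
  exact le_of_eq (by ring)

variable (A : GenAlg n) (C : ℕ × ℕ) (D : ℕ)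

open Classical in
/-- The inputs and light free coordinates. -/
noncomputable def NU (M : ℕ) : Finset ((Fin n → Fin M) × Fin n) :=
  univ.filter fun q => q.2 ∉ Uset A C D q.1

open Classical in
theorem card_heavy : ((univ : Finset ((Fin n → Fin M) × Fin n)).filter
    fun q => ¬ Light A C D q.2 q.1).card * (D + 1) ≤
      Fintype.card (Fin n → Fin M) * (n + C.2) := by
  have h1 : ((univ : Finset ((Fin n → Fin M) × Fin n)).filter
      fun q => ¬ Light A C D q.2 q.1).card * (D + 1) =
      ∑ q ∈ ((univ : Finset ((Fin n → Fin M) × Fin n)).filter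
        fun q => ¬ Light A C D q.2 q.1), (D + 1) := by
    rw [sum_const, smul_eq_mul]
  rw [h1]
  have h2 : ∑ q ∈ ((univ : Finset ((Fin n → Fin M) × Fin n)).filter
        fun q => ¬ Light A C D q.2 q.1), (D + 1) ≤
      ∑ q ∈ ((univ : Finset ((Fin n → Fin M) × Fin n)).filter
        fun q => ¬ Light A C D q.2 q.1), dp q.2.succ (F A C q.1) := by
    refine sum_le_sum fun q hq => ?_
    rw [mem_filter] at hq
    have := hq.2
    unfold Light at this
    omega
  refine h2.trans ?_
  refine (sum_le_sum_of_subset (subset_univ _)).trans ?_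
  rw [Fintype.sum_prod_type]
  have h4 : ∑ y : Fin n → Fin M, ∑ p : Fin n, dp p.succ (F A C y) ≤
      ∑ _y : Fin n → Fin M, (n + C.2) :=
    sum_le_sum fun y _ => sum_dp_F A C y
  rw [sum_const, card_univ, smul_eq_mul] at h4
  exact h4

open Classical in
theorem card_NU : (NU A C D M).card ≤
    ((univ : Finset ((Fin n → Fin M) × Fin n)).filter fun q => ¬ Light A C D q.2 q.1).card +
    ((univ : Finset ((Fin n → Fin M) × Fin n)).filter
      fun q => Light A C D q.2 q.1 ∧ InK A C q.2 q.1).card := by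
  refine le_trans (card_le_card ?_) (card_union_le _ _)
  intro q hq
  rw [NU, mem_filter, mem_Uset] at hq
  rw [mem_union, mem_filter, mem_filter]
  by_cases h : Light A C D q.2 q.1
  · right
    refine ⟨mem_univ _, h, ?_⟩
    by_contra h2
    exact hq.2 ⟨h, h2⟩
  · left
    exact ⟨mem_univ _, h⟩

open Classical in
/-- The inputs and triples for which planting changes the run. -/
noncomputable def Bad (M : ℕ) : Finset ((Fin n → Fin M) × (Fin n × Fin n × Fin n)) :=
  univ.filter fun z => z.2 ∈ Trip n ∧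
    act (pl z.1 z.2.1 z.2.2.1 z.2.2.2) A (units n) C ≠ act (inp z.1) A (units n) C

theorem card_proj_one (y : Fin n → Fin M) :
    ((F A C y).toFinset.image (proj (Uset A C D y))).card ≤ n + C.1 :=
  card_image_le.trans (card_F A C y)

theorem card_proj_two (y : Fin n → Fin M) :
    ((F A C y).toFinset.image (proj (Uset A C D y))).card ≤ n + C.2 + 1 := by
  refine (card_image_tail_le _ _ 0 fun u hu => ?_).trans (Nat.add_le_add_right (tt_F A C y) 1)
  rw [terms, card_eq_zero, filter_eq_empty_iff] at hu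
  funext p
  have := hu (mem_univ p)
  rw [not_not] at this
  rw [proj]
  split_ifs
  · exact this
  · rfl

theorem card_Bad (hn : 8 ≤ n) {S : ℕ} (hS : ∀ y : Fin n → Fin M,
    ((F A C y).toFinset.image (proj (Uset A C D y))).card ≤ S) :
    (Bad A C M).card ≤ 3 * (n ^ 2 * (NU A C D M).card) +
    (Fintype.card (Fin n → Fin M) * (135 * n * S) +
      (sB A C D : Finset (Tup n M)).card) := by
  classical
  have hsub : Bad A C M ⊆
      ((univ.filter fun z : (Fin n → Fin M) × (Fin n × Fin n × Fin n) =>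
          z.2.1 ∉ Uset A C D z.1) ∪
        ((univ.filter fun z : (Fin n → Fin M) × (Fin n × Fin n × Fin n) =>
          z.2.2.1 ∉ Uset A C D z.1) ∪
        (univ.filter fun z : (Fin n → Fin M) × (Fin n × Fin n × Fin n) =>
          z.2.2.2 ∉ Uset A C D z.1))) ∪
      ((univ : Finset (Fin n → Fin M)).biUnion (fun y =>
        ((Trip n).filter fun v => {v.1, v.2.1, v.2.2} ∈
          D3 ((F A C y).toFinset.image (proj (Uset A C D y)))).image fun v => (y, v)) ∪
      ((sB A C D : Finset (Tup n M)).image Sigma.fst)) := by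
    rintro ⟨y, i, j, l⟩ hz
    rw [Bad, mem_filter, mem_Trip] at hz
    obtain ⟨_, ⟨hij, hil, hjl⟩, hact⟩ := hz
    simp only at hij hil hjl hact
    rw [mem_union, mem_union, mem_union, mem_union, mem_filter, mem_filter, mem_filter,
      mem_biUnion, mem_image]
    simp only [mem_univ, true_and]
    by_cases hi : i ∈ Uset A C D y
    swap
    · exact Or.inl (Or.inl hi)
    by_cases hj : j ∈ Uset A C D y
    swap
    · exact Or.inl (Or.inr (Or.inl hj))
    by_cases hl : l ∈ Uset A C D y
    swap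
    · exact Or.inl (Or.inr (Or.inr hl))
    right
    obtain ⟨u, hu, w, hw, hne, h0⟩ := exists_pair hl hact
    by_cases hex : ∃ p ∈ Uset A C D y, subst i.succ j.succ l.succ (u - w) p.succ ≠ 0
    · right
      refine ⟨⟨(y, (i, j, l)), (u, w)⟩, ?_, rfl⟩
      rw [sB, mem_sigma, mem_filter, mem_product, List.mem_toFinset, List.mem_toFinset]
      exact ⟨mem_univ _, ⟨hu, hw⟩, hne, hex, h0⟩
    · left
      push Not at hex
      refine ⟨y, ?_⟩
      rw [mem_image]
      refine ⟨(i, j, l), ?_, rfl⟩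
      rw [mem_filter, mem_Trip]
      exact ⟨⟨hij, hil, hjl⟩, mem_D3_of hij hil hjl hi hj hl hu hw hne hex⟩
  have hX : ∀ g : (Fin n → Fin M) × (Fin n × Fin n × Fin n) → (Fin n → Fin M) × Fin n,
      ∀ k : (Fin n → Fin M) × (Fin n × Fin n × Fin n) → Fin n × Fin n,
      (∀ z z', g z = g z' → k z = k z' → z = z') →
      (univ.filter fun z => (g z).2 ∉ Uset A C D (g z).1).card ≤ n ^ 2 * (NU A C D M).card := by
    intro g k hgk
    have h1 : (univ.filter fun z => (g z).2 ∉ Uset A C D (g z).1).card ≤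
        ((univ : Finset (Fin n × Fin n)) ×ˢ NU A C D M).card := by
      refine card_le_card_of_injOn (fun z => (k z, g z)) ?_ ?_
      · intro z hz
        rw [mem_coe, mem_filter] at hz
        rw [mem_coe, mem_product, NU, mem_filter]
        exact ⟨mem_univ _, mem_univ _, hz.2⟩
      · intro z _ z' _ h
        simp only [Prod.mk.injEq] at h
        exact hgk z z' h.2 h.1
    refine h1.trans (le_of_eq ?_)
    rw [card_product, card_univ]
    simp only [Fintype.card_prod, Fintype.card_fin]
    ring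
  have b1 := hX (fun z => (z.1, z.2.1)) (fun z => z.2.2) (by
    rintro ⟨y, i, j, l⟩ ⟨y', i', j', l'⟩ h h'
    simp only [Prod.mk.injEq] at h h' ⊢
    exact ⟨h.1, h.2, h'.1, h'.2⟩)
  have b2 := hX (fun z => (z.1, z.2.2.1)) (fun z => (z.2.1, z.2.2.2)) (by
    rintro ⟨y, i, j, l⟩ ⟨y', i', j', l'⟩ h h'
    simp only [Prod.mk.injEq] at h h' ⊢
    exact ⟨h.1, h'.1, h.2, h'.2⟩)
  have b3 := hX (fun z => (z.1, z.2.2.2)) (fun z => (z.2.1, z.2.2.1)) (by
    rintro ⟨y, i, j, l⟩ ⟨y', i', j', l'⟩ h h'
    simp only [Prod.mk.injEq] at h h' ⊢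
    exact ⟨h.1, h'.1, h'.2, h.2⟩)
  have b4 : ((univ : Finset (Fin n → Fin M)).biUnion (fun y =>
      ((Trip n).filter fun v => {v.1, v.2.1, v.2.2} ∈
        D3 ((F A C y).toFinset.image (proj (Uset A C D y)))).image fun v => (y, v))).card ≤
      Fintype.card (Fin n → Fin M) * (135 * n * S) := by
    refine card_biUnion_le.trans ?_
    have h1 : ∀ y ∈ (univ : Finset (Fin n → Fin M)),
        (((Trip n).filter fun v => {v.1, v.2.1, v.2.2} ∈
        D3 ((F A C y).toFinset.image (proj (Uset A C D y)))).image fun v => (y, v)).card ≤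
          135 * n * S := by
      intro y _
      refine card_image_le.trans ?_
      set E := D3 ((F A C y).toFinset.image (proj (Uset A C D y))) with hE
      have h2 : ((Trip n).filter fun v => {v.1, v.2.1, v.2.2} ∈ E).card ≤ 27 * E.card := by
        refine (card_le_mul_card_image (f := fun v : Fin n × Fin n × Fin n =>
          ({v.1, v.2.1, v.2.2} : Finset (Fin n))) _ 27 ?_).trans ?_
        · intro t ht
          rw [mem_image] at ht
          obtain ⟨v, hv, rfl⟩ := ht
          rw [mem_filter] at hv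
          have h3 := (mem_D3.1 hv.2).1
          have h4 : (((Trip n).filter fun v => {v.1, v.2.1, v.2.2} ∈ E).filter fun v' =>
              ({v'.1, v'.2.1, v'.2.2} : Finset (Fin n)) = {v.1, v.2.1, v.2.2}) ⊆
              ({v.1, v.2.1, v.2.2} : Finset (Fin n)) ×ˢ
                (({v.1, v.2.1, v.2.2} : Finset (Fin n)) ×ˢ
                  ({v.1, v.2.1, v.2.2} : Finset (Fin n))) := by
            intro v' hv'
            rw [mem_filter] at hv'
            rw [mem_product, mem_product, ← hv'.2]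
            refine ⟨?_, ?_, ?_⟩ <;> simp
          refine (card_le_card h4).trans ?_
          rw [card_product, card_product, h3]
        · refine Nat.mul_le_mul_left _ (card_le_card ?_)
          intro t ht
          rw [mem_image] at ht
          obtain ⟨v, hv, rfl⟩ := ht
          rw [mem_filter] at hv
          exact hv.2
      refine h2.trans ?_
      have h3 : E.card ≤ 5 * n * S :=
        (card_D3_le hn _).trans (Nat.mul_le_mul_left _ (hS y))
      calc 27 * E.card ≤ 27 * (5 * n * S) := Nat.mul_le_mul_left _ h3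
        _ = 135 * n * S := by ring
    refine (sum_le_sum h1).trans ?_
    rw [sum_const, card_univ, smul_eq_mul]
  have b5 : ((sB A C D : Finset (Tup n M)).image Sigma.fst).card ≤
      (sB A C D : Finset (Tup n M)).card := card_image_le
  refine (card_le_card hsub).trans ((card_union_le _ _).trans (Nat.add_le_add ?_ ?_))
  · refine (card_union_le _ _).trans ?_
    have := card_union_le (univ.filter fun z : (Fin n → Fin M) × (Fin n × Fin n × Fin n) =>
          z.2.2.1 ∉ Uset A C D z.1)
        (univ.filter fun z : (Fin n → Fin M) × (Fin n × Fin n × Fin n) =>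
          z.2.2.2 ∉ Uset A C D z.1)
    simp only at b1 b2 b3
    omega
  · exact (card_union_le _ _).trans (Nat.add_le_add b4 b5)

open Classical in
/-- Planting rarely changes the run, if the budget is small. -/
theorem card_Bad_le {R : ℕ} (hn : 1000 ≤ n) (hR : 100 * n ^ 2 ≤ R) (hM : M = R / 4)
    (hS : 4000 * (n + C.1) ≤ n ^ 2 ∨ 4000 * (n + C.2 + 1) ≤ n ^ 2)
    (hS2 : 4000 * ((n + C.2) * (n + C.1)) ≤ n * R) :
    1000 * (Bad A C M).card ≤ 71 * (n ^ 3 * Fintype.card (Fin n → Fin M)) := by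
  obtain ⟨V, hV, hVn⟩ : ∃ V : ℕ, (∀ y : Fin n → Fin M,
      ((F A C y).toFinset.image (proj (Uset A C (100 * (n + C.2) / n) y))).card ≤ V) ∧
      4000 * V ≤ n ^ 2 := by
    rcases hS with h | h
    · exact ⟨_, fun y => card_proj_one A C _ y, h⟩
    · exact ⟨_, fun y => card_proj_two A C _ y, h⟩
  set S := n + C.1 with hSdef
  set P := n + C.2 with hPdef
  set D := 100 * P / n with hD
  set X := Fintype.card (Fin n → Fin M) with hXdef
  have h0 := card_Bad (M := M) A C D (by omega) hV
  have h1 := card_NU (M := M) A C D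
  have h2 := card_heavy (M := M) A C D
  have h3 := card_inK (M := M) A C D
  have h4 := card_sB (M := M) A C D
  rw [← hXdef] at h0
  rw [← hSdef, ← hXdef] at h3 h4
  rw [← hPdef, ← hXdef] at h2
  rw [← hPdef] at h3 h4
  set L := ((univ : Finset ((Fin n → Fin M) × Fin n)).filter
    (fun q => ¬ Light A C D q.2 q.1)).card with hL
  set K := ((univ : Finset ((Fin n → Fin M) × Fin n)).filter
      (fun q => Light A C D q.2 q.1 ∧ InK A C q.2 q.1)).card with hK
  set B := (sB A C D : Finset (Tup n M)).card with hB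
  set W := M - D * S with hW
  have hnpos : 0 < n := by omega
  have hSpos : 0 < S := by omega
  have hPpos : 0 < P := by omega
  have hRpos : 0 < R := lt_of_lt_of_le (by positivity) hR
  have hDn : n * D ≤ 100 * P := Nat.mul_div_le _ _
  have hDn2 : 100 * P ≤ n * (D + 1) := by
    have := Nat.lt_mul_div_succ (100 * P) hnpos
    exact this.le
  have hDS : 40 * (D * S) ≤ R := by
    have h5 : (40 * (D * S)) * n ≤ R * n := by
      calc (40 * (D * S)) * n = 40 * (n * D) * S := by ring
        _ ≤ 40 * (100 * P) * S := Nat.mul_le_mul_right _ (Nat.mul_le_mul_left _ hDn)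
        _ = 4000 * (P * S) := by ring
        _ ≤ n * R := hS2
        _ = R * n := by ring
    exact Nat.le_of_mul_le_mul_right h5 hnpos
  have hRbig : 100 * 1000000 ≤ R := by
    refine le_trans (Nat.mul_le_mul_left 100 ?_) hR
    nlinarith
  have hW6 : R ≤ 5 * W := by omega
  -- heavy coordinates
  have hLn : 100 * L ≤ n * X := by
    have h7 : (100 * L) * P ≤ (n * X) * P := by
      calc (100 * L) * P = L * (100 * P) := by ring
        _ ≤ L * (n * (D + 1)) := Nat.mul_le_mul_left _ hDn2
        _ = n * (L * (D + 1)) := by ring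
        _ ≤ n * (X * P) := Nat.mul_le_mul_left _ h2
        _ = (n * X) * P := by ring
    exact Nat.le_of_mul_le_mul_right h7 hPpos
  have hKn : 4000 * K ≤ 5 * (n * X) := by
    have h6 : (4000 * K) * R ≤ (5 * (n * X)) * R := by
      calc (4000 * K) * R ≤ (4000 * K) * (5 * W) := Nat.mul_le_mul_left _ hW6
        _ = 20000 * (K * W) := by ring
        _ ≤ 20000 * (X * (P * S)) := Nat.mul_le_mul_left _ h3
        _ = 5 * X * (4000 * (P * S)) := by ring
        _ ≤ 5 * X * (n * R) := Nat.mul_le_mul_left _ hS2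
        _ = (5 * (n * X)) * R := by ring
    exact Nat.le_of_mul_le_mul_right h6 hRpos
  have hBn : 4000 * B ≤ 10 * (n ^ 3 * X) := by
    have h6 : (4000 * B) * R ≤ (10 * (n ^ 3 * X)) * R := by
      calc (4000 * B) * R ≤ (4000 * B) * (5 * W) := Nat.mul_le_mul_left _ hW6
        _ = 20000 * (B * W) := by ring
        _ ≤ 20000 * (X * (n ^ 2 * (2 * (P * S)))) := Nat.mul_le_mul_left _ h4
        _ = (10 * (X * n ^ 2)) * (4000 * (P * S)) := by ring
        _ ≤ (10 * (X * n ^ 2)) * (n * R) := Nat.mul_le_mul_left _ hS2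
        _ = (10 * (n ^ 3 * X)) * R := by ring
    exact Nat.le_of_mul_le_mul_right h6 hRpos
  have hD3 : 4000 * (X * (135 * n * V)) ≤ 135 * (n ^ 3 * X) := by
    calc 4000 * (X * (135 * n * V)) = 135 * (n * X) * (4000 * V) := by ring
      _ ≤ 135 * (n * X) * n ^ 2 := Nat.mul_le_mul_left _ hVn
      _ = 135 * (n ^ 3 * X) := by ring
  have hL2 : 100 * (n ^ 2 * L) ≤ n ^ 3 * X := by
    calc 100 * (n ^ 2 * L) = n ^ 2 * (100 * L) := by ring
      _ ≤ n ^ 2 * (n * X) := Nat.mul_le_mul_left _ hLn
      _ = n ^ 3 * X := by ring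
  have hK2 : 4000 * (n ^ 2 * K) ≤ 5 * (n ^ 3 * X) := by
    calc 4000 * (n ^ 2 * K) = n ^ 2 * (4000 * K) := by ring
      _ ≤ n ^ 2 * (5 * (n * X)) := Nat.mul_le_mul_left _ hKn
      _ = 5 * (n ^ 3 * X) := by ring
  have h8 : n ^ 2 * (NU A C D M).card ≤ n ^ 2 * L + n ^ 2 * K := by
    rw [← mul_add]
    exact Nat.mul_le_mul_left _ h1
  set Q := n ^ 3 * X
  omega

/-! ### Averaging -/

open Classical in
theorem averaging2 {Ω ι : Type} [Fintype Ω] (Z : Finset ι) (μ : Ω → ℝ) (hμ : ∀ ω, 0 ≤ μ ω)
    (h1 : ∑ ω, μ ω = 1) (P Q : Ω → ι → Prop) (b : ℝ)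
    (hP : ∀ z ∈ Z, 17 / 30 ≤ ∑ ω, if P ω z then μ ω else 0)
    (hQ : ∀ z ∈ Z, 17 / 30 ≤ ∑ ω, if Q ω z then μ ω else 0)
    (hb : ∀ ω, ((Z.filter fun z => P ω z ∧ Q ω z).card : ℝ) ≤ b) :
    2 * (Z.card : ℝ) ≤ 15 * b := by
  have h2 : ∑ _z ∈ Z, (34 / 30 : ℝ) ≤ ∑ z ∈ Z, ∑ ω, ((if P ω z then μ ω else 0) +
      if Q ω z then μ ω else 0) := by
    refine Finset.sum_le_sum fun z hz => ?_
    rw [Finset.sum_add_distrib]
    have := hP z hz
    have := hQ z hz
    linarith
  have h3 : ∀ ω z, ((if P ω z then μ ω else 0) + (if Q ω z then μ ω else 0)) ≤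
      μ ω + if P ω z ∧ Q ω z then μ ω else 0 := by
    intro ω z
    have := hμ ω
    by_cases hp : P ω z <;> by_cases hq : Q ω z <;> simp [hp, hq, this]
  have h4 : ∑ z ∈ Z, ∑ ω, ((if P ω z then μ ω else 0) + (if Q ω z then μ ω else 0)) ≤
      ∑ z ∈ Z, ∑ ω, (μ ω + if P ω z ∧ Q ω z then μ ω else 0) :=
    Finset.sum_le_sum fun z _ => Finset.sum_le_sum fun ω _ => h3 ω z
  have h5 : ∑ z ∈ Z, ∑ ω, (μ ω + if P ω z ∧ Q ω z then μ ω else 0) =
      Z.card + ∑ ω, μ ω * (Z.filter fun z => P ω z ∧ Q ω z).card := by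
    have h6 : ∀ z ∈ Z, ∑ ω, (μ ω + if P ω z ∧ Q ω z then μ ω else 0) =
        1 + ∑ ω, if P ω z ∧ Q ω z then μ ω else 0 := by
      intro z _
      rw [Finset.sum_add_distrib, h1]
    rw [Finset.sum_congr rfl h6, Finset.sum_add_distrib, Finset.sum_const, nsmul_eq_mul, mul_one,
      Finset.sum_comm]
    congr 1
    refine Finset.sum_congr rfl fun ω _ => ?_
    rw [← Finset.sum_filter, Finset.sum_const, nsmul_eq_mul, mul_comm]
  have h7 : ∑ ω, μ ω * ((Z.filter fun z => P ω z ∧ Q ω z).card : ℝ) ≤ b := by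
    calc _ ≤ ∑ ω, μ ω * b := Finset.sum_le_sum fun ω _ =>
          mul_le_mul_of_nonneg_left (hb ω) (hμ ω)
      _ = b := by rw [← Finset.sum_mul, h1, one_mul]
  rw [Finset.sum_const, nsmul_eq_mul] at h2
  linarith

/-- The inequality of Markov. -/
theorem markov {Ω : Type} [Fintype Ω] {μ : Ω → ℝ} (hμ : ∀ ω, 0 ≤ μ ω) (f : Ω → ℕ) {T : ℝ}
    (h : ∑ ω, μ ω * (f ω : ℝ) ≤ T) : ∑ ω, (if ⌊20 * T⌋₊ < f ω then μ ω else 0) ≤ 1 / 20 := by
  have hT : 0 ≤ T :=
    le_trans (Finset.sum_nonneg fun ω _ => mul_nonneg (hμ ω) (Nat.cast_nonneg _)) h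
  rcases hT.eq_or_lt with h0 | hpos
  · have h1 : ∑ ω, (if ⌊20 * T⌋₊ < f ω then μ ω else 0) ≤ ∑ ω, μ ω * (f ω : ℝ) := by
      refine Finset.sum_le_sum fun ω _ => ?_
      split_ifs with h2
      · have h3 : (1 : ℝ) ≤ f ω := by
          have : 1 ≤ f ω := by omega
          exact_mod_cast this
        nlinarith [hμ ω]
      · exact mul_nonneg (hμ ω) (Nat.cast_nonneg _)
    linarith
  · have h1 : (∑ ω, (if ⌊20 * T⌋₊ < f ω then μ ω else 0)) * (20 * T) ≤
        ∑ ω, μ ω * (f ω : ℝ) := by
      rw [Finset.sum_mul]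
      refine Finset.sum_le_sum fun ω _ => ?_
      split_ifs with h2
      · exact mul_le_mul_of_nonneg_left (Nat.lt_of_floor_lt h2).le (hμ ω)
      · rw [zero_mul]; exact mul_nonneg (hμ ω) (Nat.cast_nonneg _)
    by_contra hcon
    push Not at hcon
    nlinarith

open Classical in
theorem within_prob {Ω : Type} [Fintype Ω] {n R : ℕ} {T L : ℝ} {μ : Ω → ℝ} {A : Ω → GenAlg n}
    (h : Solver n R T L μ A) {x : Fin n → ℤ} (hx : Function.Injective x) (hb : ∀ i, |x i| ≤ R) :
    17 / 30 ≤ ∑ ω, if Within (A ω) x (⌊20 * T⌋₊, ⌊20 * L⌋₊) then μ ω else 0 := by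
  obtain ⟨hμ, _, hA⟩ := h
  obtain ⟨h1, h2, h3⟩ := hA x hx hb
  have m1 := markov hμ (fun ω => questions (A ω) x) h2
  have m2 := markov hμ (fun ω => totalTerms (A ω) x) h3
  have h4 : ∀ ω, (if Correct (A ω) x then μ ω else 0) ≤
      (if Within (A ω) x (⌊20 * T⌋₊, ⌊20 * L⌋₊) then μ ω else 0) +
      (if ⌊20 * T⌋₊ < questions (A ω) x then μ ω else 0) +
      (if ⌊20 * L⌋₊ < totalTerms (A ω) x then μ ω else 0) := by
    intro ω
    have := hμ ω
    unfold Within
    by_cases a : Correct (A ω) x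
    · by_cases b : questions (A ω) x ≤ ⌊20 * T⌋₊
      · by_cases c : totalTerms (A ω) x ≤ ⌊20 * L⌋₊
        · rw [if_pos a, if_pos ⟨a, b, c⟩, if_neg (not_lt.2 b), if_neg (not_lt.2 c)]
          linarith
        · rw [if_pos a, if_neg (fun h => c h.2.2), if_neg (not_lt.2 b), if_pos (not_le.1 c)]
          linarith
      · rw [if_pos a, if_neg (fun h => b h.2.1), if_pos (not_le.1 b)]
        split_ifs <;> linarith
    · rw [if_neg a, if_neg (fun h => a h.1)]
      split_ifs <;> linarith
  have h5 := Finset.sum_le_sum fun ω (_ : ω ∈ (Finset.univ : Finset Ω)) => h4 ω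
  rw [Finset.sum_add_distrib, Finset.sum_add_distrib] at h5
  linarith

/-- The input with odd entries. -/
def xin (y : Fin n → Fin M) : Fin n → ℤ := fun i => 2 * (y i : ℤ) + 1

/-- The input with a planted solution. -/
def xpl (y : Fin n → Fin M) (i j l : Fin n) : Fin n → ℤ :=
  Function.update (xin y) l (xin y i + xin y j)

theorem hat_xpl (y : Fin n → Fin M) (i j l : Fin n) : hat (xpl y i j l) = pl y i j l := by
  funext k
  refine Fin.cases ?_ (fun k => ?_) k
  · rw [pl, Function.update_of_ne (Fin.succ_ne_zero l).symm]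
    simp [inp, hat]
  · simp only [hat, Fin.cons_succ, xpl, pl]
    by_cases h : k = l
    · subst h
      simp [inp_succ, xin]
    · have h' : k.succ ≠ l.succ := fun e => h (Fin.succ_injective _ e)
      rw [Function.update_of_ne h, Function.update_of_ne h', inp_succ, xin]

theorem not_hasThreeSum (y : Fin n → Fin M) : ¬ HasThreeSum (xin y) := by
  rintro ⟨i, j, k, _, _, _, h⟩
  simp only [xin] at h
  omega

theorem xpl_hasThreeSum (y : Fin n → Fin M) {i j l : Fin n} (hij : i ≠ j) (hil : i ≠ l)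
    (hjl : j ≠ l) : HasThreeSum (xpl y i j l) := by
  refine ⟨i, j, l, hij, hil, hjl, ?_⟩
  simp only [xpl, Function.update_self, Function.update_of_ne hil, Function.update_of_ne hjl]

theorem xin_injective {y : Fin n → Fin M} (hy : Function.Injective y) :
    Function.Injective (xin y) := by
  intro i j h
  apply hy
  apply Fin.ext
  simp only [xin] at h
  omega

theorem xpl_injective {y : Fin n → Fin M} (hy : Function.Injective y) (i j l : Fin n) :
    Function.Injective (xpl y i j l) := by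
  intro a b h
  by_cases ha : a = l
  · by_cases hb : b = l
    · rw [ha, hb]
    · exfalso
      subst ha
      simp only [xpl, Function.update_self, Function.update_of_ne hb, xin] at h
      omega
  · by_cases hb : b = l
    · exfalso
      subst hb
      simp only [xpl, Function.update_self, Function.update_of_ne ha, xin] at h
      omega
    · simp only [xpl, Function.update_of_ne ha, Function.update_of_ne hb] at h
      exact xin_injective hy h

/-- **Lower bound for the number of questions and the total number of terms in the generic group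
model.** -/
theorem trade_lower_bound {Ω : Type} [Fintype Ω] {R : ℕ} {T L : ℝ} {μ : Ω → ℝ}
    {A : Ω → GenAlg n} (h : Solver n R T L μ A) (hn : 10000 ≤ n) (hR : 100 * n ^ 2 ≤ R) :
    ((n : ℝ) ^ 2 ≤ 200000 * T ∧ (n : ℝ) ^ 2 ≤ 200000 * L) ∨
      (n : ℝ) * R ≤ 2000000 * ((n + T) * (n + L)) := by
  classical
  by_contra hcon
  rw [not_or, not_and_or, not_le, not_le, not_le] at hcon
  obtain ⟨hC1, hC2⟩ := hcon
  have hnr : (10000 : ℝ) ≤ n := by exact_mod_cast hn
  have hRr : 100 * (n : ℝ) ^ 2 ≤ R := by exact_mod_cast hR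
  -- the bounds are nonnegative
  have hTL : 0 ≤ T ∧ 0 ≤ L := by
    have hinj : Function.Injective fun i : Fin n => (i : ℤ) := fun i j hij => by
      simpa [Fin.ext_iff] using hij
    obtain ⟨_, h2, h3⟩ := h.2.2 (fun i => (i : ℤ)) hinj (fun i => by
      have h2 : (i : ℕ) < n := i.2
      have h3 : n ≤ R := le_trans (by nlinarith) hR
      rw [abs_of_nonneg (by positivity)]
      omega)
    exact ⟨le_trans (Finset.sum_nonneg fun ω _ => mul_nonneg (h.1 ω) (Nat.cast_nonneg _)) h2,
      le_trans (Finset.sum_nonneg fun ω _ => mul_nonneg (h.1 ω) (Nat.cast_nonneg _)) h3⟩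
  obtain ⟨hT0, hL0⟩ := hTL
  obtain ⟨C, hC⟩ : ∃ C : ℕ × ℕ, C = (⌊20 * T⌋₊, ⌊20 * L⌋₊) := ⟨_, rfl⟩
  have hc1 : (C.1 : ℝ) ≤ 20 * T := by rw [hC]; exact Nat.floor_le (by positivity)
  have hc2 : (C.2 : ℝ) ≤ 20 * L := by rw [hC]; exact Nat.floor_le (by positivity)
  have hS : 4000 * (n + C.1) ≤ n ^ 2 ∨ 4000 * (n + C.2 + 1) ≤ n ^ 2 := by
    rcases hC1 with h | h
    · left
      have : (4000 : ℝ) * (n + C.1) ≤ (n : ℝ) ^ 2 := by nlinarith
      exact_mod_cast this
    · right
      have : (4000 : ℝ) * (n + C.2 + 1) ≤ (n : ℝ) ^ 2 := by nlinarith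
      exact_mod_cast this
  have hS2 : 4000 * ((n + C.2) * (n + C.1)) ≤ n * R := by
    have h2 : ((n : ℝ) + C.2) * (n + C.1) ≤ (20 * (n + L)) * (20 * (n + T)) := by
      refine mul_le_mul (by linarith) (by linarith) (by positivity) (by positivity)
    have : (4000 : ℝ) * ((n + C.2) * (n + C.1)) ≤ (n : ℝ) * R := by
      have h3 : (0 : ℝ) ≤ (n + T) * (n + L) := by positivity
      nlinarith
    exact_mod_cast this
  have hμ := h.1
  have h1 := h.2.1
  obtain ⟨M, hM⟩ : ∃ M, M = R / 4 := ⟨_, rfl⟩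
  have hM4 : 4 * M ≤ R := by omega
  have hM4' : R ≤ 4 * M + 3 := by omega
  set X := Fintype.card (Fin n → Fin M) with hX
  set Z : Finset ((Fin n → Fin M) × (Fin n × Fin n × Fin n)) :=
    ((univ : Finset (Fin n → Fin M)).filter fun y => Function.Injective y) ×ˢ Trip n with hZ
  have hb : ∀ ω, ((Z.filter fun z => Within (A ω) (xin z.1) C ∧
      Within (A ω) (xpl z.1 z.2.1 z.2.2.1 z.2.2.2) C).card : ℝ) ≤
        0.071 * ((n : ℝ) ^ 3 * X) := by
    intro ω
    have h2 := card_Bad_le (M := M) (A ω) C (by omega) hR hM hS hS2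
    have h3 : (Z.filter fun z => Within (A ω) (xin z.1) C ∧
        Within (A ω) (xpl z.1 z.2.1 z.2.2.1 z.2.2.2) C) ⊆ Bad (A ω) C M := by
      rintro ⟨y, i, j, l⟩ hz
      rw [mem_filter, hZ, mem_product] at hz
      obtain ⟨⟨_, hT⟩, hs1, hs2⟩ := hz
      simp only at hT hs1 hs2
      rw [Bad, mem_filter]
      refine ⟨mem_univ _, hT, fun he => ?_⟩
      simp only at he
      obtain ⟨b1, hb1, hb1'⟩ := act_of_within hs1
      obtain ⟨b2, hb2, hb2'⟩ := act_of_within hs2
      rw [hat_xpl, he] at hb2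
      have e : hat (xin y) = inp y := rfl
      rw [e, hb2] at hb1
      simp only [Option.some.injEq] at hb1
      subst hb1
      rw [mem_Trip] at hT
      exact not_hasThreeSum y (hb1'.1 (hb2'.2 (xpl_hasThreeSum y hT.1 hT.2.1 hT.2.2)))
    have h4 := card_le_card h3
    have h5 : 1000 * (Z.filter fun z => Within (A ω) (xin z.1) C ∧
        Within (A ω) (xpl z.1 z.2.1 z.2.2.1 z.2.2.2) C).card ≤ 71 * (n ^ 3 * X) :=
      (Nat.mul_le_mul_left _ h4).trans h2
    have h6 : ((1000 * (Z.filter fun z => Within (A ω) (xin z.1) C ∧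
        Within (A ω) (xpl z.1 z.2.1 z.2.2.1 z.2.2.2) C).card : ℕ) : ℝ) ≤
        ((71 * (n ^ 3 * X) : ℕ) : ℝ) := by exact_mod_cast h5
    push_cast at h6
    linarith
  have hMR : (R : ℤ) ≥ 4 * M := by exact_mod_cast hM4
  have hx : ∀ (y : Fin n → Fin M) (i : Fin n), 0 ≤ xin y i ∧ xin y i ≤ 2 * M - 1 := by
    intro y i
    have h2 : ((y i : ℕ) : ℤ) < M := by exact_mod_cast (y i).2
    simp only [xin]
    omega
  have key := averaging2 Z μ hμ h1 (fun ω z => Within (A ω) (xin z.1) C)
    (fun ω z => Within (A ω) (xpl z.1 z.2.1 z.2.2.1 z.2.2.2) C) _ ?_ ?_ hb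
  · -- counting `Z`
    have c1 := card_Trip n
    have c2 := card_noninjective (n := n) (M := M)
    rw [← hX] at c2
    have c3 := card_filter_add_card_filter_not (s := (univ : Finset (Fin n → Fin M)))
      (p := fun y => Function.Injective y)
    rw [card_univ, ← hX] at c3
    set J := ((univ : Finset (Fin n → Fin M)).filter fun y => Function.Injective y).card with hJ
    set N := ((univ : Finset (Fin n → Fin M)).filter fun y => ¬ Function.Injective y).card with hN
    have hZc : Z.card = J * (Trip n).card := by rw [hZ, card_product]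
    rw [hZc] at key
    have hXpos : 0 < X := by
      rw [hX, Fintype.card_fun, Fintype.card_fin, Fintype.card_fin]
      apply pow_pos
      have : 4 ≤ R := le_trans (by nlinarith) hR
      omega
    have hXr : (0 : ℝ) < X := by exact_mod_cast hXpos
    have c1r : (n : ℝ) ^ 3 ≤ (Trip n).card + 3 * (n : ℝ) ^ 2 := by exact_mod_cast c1
    have c2r : (N : ℝ) * M ≤ (n : ℝ) ^ 2 * X := by exact_mod_cast c2
    have c3r : (J : ℝ) + N = X := by exact_mod_cast c3
    have hMr : (R : ℝ) ≤ 4 * M + 3 := by exact_mod_cast hM4'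
    push_cast at key
    have hn2 : (0 : ℝ) < (n : ℝ) ^ 2 := by positivity
    have hn3 : (n : ℝ) ^ 3 = n * (n : ℝ) ^ 2 := by ring
    have hT : 0.9 * (n : ℝ) ^ 3 ≤ (Trip n).card := by nlinarith
    have hMbig : 20 * (n : ℝ) ^ 2 ≤ M := by nlinarith
    have hNr : (0 : ℝ) ≤ N := Nat.cast_nonneg _
    have hN1 : (N : ℝ) * (20 * (n : ℝ) ^ 2) ≤ (n : ℝ) ^ 2 * X :=
      (mul_le_mul_of_nonneg_left hMbig hNr).trans c2r
    have hN2 : 20 * (N : ℝ) ≤ X := by
      have h2 : (n : ℝ) ^ 2 * (20 * N) ≤ (n : ℝ) ^ 2 * X := by linarith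
      exact le_of_mul_le_mul_left h2 hn2
    have hJ1 : 0.9 * (X : ℝ) ≤ J := by linarith
    have h9 : (0.9 * (X : ℝ)) * (0.9 * (n : ℝ) ^ 3) ≤ (J : ℝ) * (Trip n).card :=
      mul_le_mul hJ1 hT (by positivity) (by positivity)
    have h10 : (0 : ℝ) < X * (n : ℝ) ^ 3 := by positivity
    nlinarith
  · rintro ⟨y, v⟩ hz
    rw [hZ, mem_product, mem_filter] at hz
    rw [hC]
    refine within_prob h (xin_injective hz.1.2) fun i => ?_
    have := hx y i
    rw [abs_of_nonneg this.1]
    omega
  · rintro ⟨y, i, j, l⟩ hz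
    rw [hZ, mem_product, mem_filter] at hz
    rw [hC]
    refine within_prob h (xpl_injective hz.1.2 i j l) fun k => ?_
    have h2 := hx y i
    have h3 := hx y j
    have h4 := hx y k
    by_cases hk : k = l
    · subst hk
      simp only [xpl, Function.update_self]
      rw [abs_of_nonneg (by omega)]
      omega
    · simp only [xpl, Function.update_of_ne hk]
      rw [abs_of_nonneg h4.1]
      omega

end Pool.Agent.ThreeSum.Trade
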