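import Pool.Agent.ThreeSum.TradeUpper

/-!
The three-sum problem in the generic group model: the trade-off between the number of questions
and the total number of terms in the questions.
-/

namespace Pool.Agent.ThreeSum.TradeResult

open Pool.Agent.ThreeSum.Trade
open Pool.Agent.ThreeSum (GenAlg)

/-- Trade-off between the number of questions `T` and the total number of terms `L` for three-sum
on `n` distinct integers from `[-R, R]` in the generic group model. Lower bound for randomised
algorithms (error at most `1/3`, expected costs): both costs are at least of order `n ^ 2`, or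
`(n + T) * (n + L)` is at least of order `n * R`. For `2 * n ≤ L ≤ T` this is optimal up to
constant factors, also for deterministic algorithms. -/
theorem result :
    (∀ n R : ℕ, 10000 ≤ n → 100 * n ^ 2 ≤ R →
      ∀ (Ω : Type) [Fintype Ω] (T L : ℝ) (μ : Ω → ℝ) (A : Ω → GenAlg n), Solver n R T L μ A →
        ((n : ℝ) ^ 2 ≤ 200000 * T ∧ (n : ℝ) ^ 2 ≤ 200000 * L) ∨
          (n : ℝ) * R ≤ 2000000 * ((n + T) * (n + L))) ∧
    (∀ n R T L : ℕ, 4 ≤ n → 2 * n ≤ L → L ≤ T → (2 * n ^ 2 ≤ L ∨ 32 * (n * R) ≤ T * L) →
      ∃ A : GenAlg n, ∀ x : Fin n → ℤ, (∀ i, |x i| ≤ R) →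
        Correct A x ∧ questions A x ≤ T ∧ totalTerms A x ≤ L) :=
  ⟨fun _ _ hn hR _ _ _ _ _ _ h => trade_lower_bound h hn hR,
    fun _ _ _ _ h1 h2 h3 h4 => upper_bound h1 h2 h3 h4⟩

end Pool.Agent.ThreeSum.TradeResult
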