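import Pool.Agent.ThreeSum.TradeDefs
import Pool.Agent.ThreeSum.GenericMain

/-!
The run of a generic algorithm on an input, and its stability.
-/

namespace Pool.Agent.ThreeSum.Trade

open Finset

variable {n : ℕ}

/-- The number of forms in the list in which the coordinate `p` occurs. -/
noncomputable def dp (p : Fin (n + 1)) (L : List (Fin (n + 1) → ℤ)) : ℕ :=
  (L.toFinset.filter fun u => u p ≠ 0).card

theorem dp_mono {p : Fin (n + 1)} {L L' : List (Fin (n + 1) → ℤ)} (h : L ⊆ L') :
    dp p L ≤ dp p L' := by
  refine card_le_card fun u hu => ?_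
  rw [mem_filter, List.mem_toFinset] at hu ⊢
  exact ⟨h hu.1, hu.2⟩

/-- The run on the (extended) input `x`, with a bound for the cost: the affine forms asked for, and
the answer. -/
noncomputable def act (x : Fin (n + 1) → ℤ) : GenAlg n → List (Fin (n + 1) → ℤ) → ℕ × ℕ →
    List (Fin (n + 1) → ℤ) × Option Bool
  | GenAlg.answer b, L, _ => (L, some b)
  | GenAlg.ask d c next, L, B =>
    if 1 ≤ B.1 ∧ terms c ≤ B.2 then
      act x (next fun j => decide ((L.map fun v => comb v x)[j]? =
        some (comb (Fin.cons d c : Fin (n + 1) → ℤ) x))) (L ++ [Fin.cons d c])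
        (B.1 - 1, B.2 - terms c)
    else (L, none)

theorem act_subset (x : Fin (n + 1) → ℤ) (A : GenAlg n) : ∀ (L : List (Fin (n + 1) → ℤ)) (B : ℕ × ℕ),
    L ⊆ (act x A L B).1 := by
  induction A with
  | answer b => intro L B; simp [act]
  | ask d c next ih =>
    intro L B
    rw [act]
    split_ifs
    · exact List.Subset.trans (List.subset_append_left _ _) (ih _ _ _)
    · simp

/-- The total number of terms of a list of forms. -/
def tt (L : List (Fin (n + 1) → ℤ)) : ℕ := (L.map fun u => terms (Fin.tail u)).sum

theorem tt_append (L : List (Fin (n + 1) → ℤ)) (d : ℤ) (c : Fin n → ℤ) :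
    tt (L ++ [(Fin.cons d c : Fin (n + 1) → ℤ)]) = tt L + terms c := by
  simp [tt]

theorem tt_act (x : Fin (n + 1) → ℤ) (A : GenAlg n) : ∀ (L : List (Fin (n + 1) → ℤ)) (B : ℕ × ℕ),
    tt (act x A L B).1 ≤ tt L + B.2 := by
  induction A with
  | answer b => intro L B; simp [act]
  | ask d c next ih =>
    intro L B
    rw [act]
    split_ifs with h
    · refine (ih _ _ _).trans ?_
      rw [tt_append]
      simp only
      omega
    · simp

theorem length_act (x : Fin (n + 1) → ℤ) (A : GenAlg n) :
    ∀ (L : List (Fin (n + 1) → ℤ)) (B : ℕ × ℕ), (act x A L B).1.length ≤ L.length + B.1 := by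
  induction A with
  | answer b => intro L B; simp [act]
  | ask d c next ih =>
    intro L B
    rw [act]
    split_ifs with h
    · refine (ih _ _ _).trans ?_
      rw [List.length_append, List.length_singleton]
      simp only
      omega
    · simp

theorem act_congr {x x' : Fin (n + 1) → ℤ} (A : GenAlg n) :
    ∀ (L : List (Fin (n + 1) → ℤ)) (B : ℕ × ℕ),
    (∀ u ∈ (act x A L B).1, ∀ v ∈ (act x A L B).1, (comb u x = comb v x ↔ comb u x' = comb v x')) →
    act x' A L B = act x A L B := by
  induction A with
  | answer b => intro L B _; simp [act]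
  | ask d c next ih =>
    intro L B h
    rw [act] at h ⊢
    rw [act]
    by_cases hB : 1 ≤ B.1 ∧ terms c ≤ B.2
    · rw [if_pos hB] at h ⊢
      rw [if_pos hB]
      set e : Fin (n + 1) → ℤ := Fin.cons d c with he
      have hsub := act_subset x (next fun j => decide ((L.map fun v => comb v x)[j]? =
        some (comb e x))) (L ++ [e]) (B.1 - 1, B.2 - terms c)
      have hresp : (fun j : ℕ => decide ((L.map fun v => comb v x')[j]? = some (comb e x'))) =
          fun j : ℕ => decide ((L.map fun v => comb v x)[j]? = some (comb e x)) := by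
        funext j
        rw [List.getElem?_map, List.getElem?_map]
        cases hj : L[j]? with
        | none => simp
        | some v =>
          have hv : v ∈ L := List.mem_of_getElem? hj
          simp only [Option.map_some, Option.some.injEq, decide_eq_decide]
          exact (h v (hsub (by simp [hv])) e (hsub (by simp))).symm
      rw [hresp]
      exact ih _ _ _ h
    · rw [if_neg hB, if_neg hB]

theorem act_run (x : Fin n → ℤ) (A : GenAlg n) : ∀ (L : List (Fin (n + 1) → ℤ)) (B : ℕ × ℕ),
    (run x A (L.map fun v => comb v (hat x))).2.1 ≤ B.1 →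
    (run x A (L.map fun v => comb v (hat x))).2.2 ≤ B.2 →
    (act (hat x) A L B).2 = some (run x A (L.map fun v => comb v (hat x))).1 := by
  induction A with
  | answer b =>
    intro L B _ _
    rfl
  | ask d c next ih =>
    intro L B h1 h2
    have hev : comb (Fin.cons d c : Fin (n + 1) → ℤ) (hat x) = d + comb c x := comb_cons d c x
    have hmap : ((L ++ [(Fin.cons d c : Fin (n + 1) → ℤ)]).map fun v => comb v (hat x)) =
        (L.map fun v => comb v (hat x)) ++ [d + comb c x] := by
      rw [List.map_append, List.map_singleton, hev]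
    simp only [run] at h1 h2 ⊢
    rw [act, if_pos (by omega), hev]
    rw [← hmap] at h1 h2 ⊢
    exact ih _ _ _ (by omega) (by omega)

/-- The answer is correct, and the costs are within the budget. -/
def Within (A : GenAlg n) (x : Fin n → ℤ) (C : ℕ × ℕ) : Prop :=
  Correct A x ∧ questions A x ≤ C.1 ∧ totalTerms A x ≤ C.2

theorem act_of_within {A : GenAlg n} {x : Fin n → ℤ} {C : ℕ × ℕ} (h : Within A x C) :
    ∃ b, (act (hat x) A (units n) C).2 = some b ∧ (b = true ↔ HasThreeSum x) := by
  obtain ⟨hc, h1, h2⟩ := h
  refine ⟨answer A x, ?_, hc⟩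
  have := act_run x A (units n) C
  rw [map_units] at this
  exact this h1 h2

/-- The run which treats all forms as different from each other as soon as they differ in the
coordinate `p`; it stops when `p` occurs in more than `D` forms. -/
noncomputable def gp (x : Fin (n + 1) → ℤ) (p : Fin (n + 1)) (D : ℕ) :
    GenAlg n → List (Fin (n + 1) → ℤ) → ℕ × ℕ →
    List (Fin (n + 1) → ℤ)
  | GenAlg.answer _, L, _ => L
  | GenAlg.ask d c next, L, B =>
    if (1 ≤ B.1 ∧ terms c ≤ B.2) ∧ dp p (L ++ [Fin.cons d c]) ≤ D then
      gp x p D (next fun j => decide ((L.map fun v => (v p, comb v x))[j]? =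
        some ((Fin.cons d c : Fin (n + 1) → ℤ) p, comb (Fin.cons d c : Fin (n + 1) → ℤ) x)))
        (L ++ [Fin.cons d c]) (B.1 - 1, B.2 - terms c)
    else L

theorem gp_subset (x : Fin (n + 1) → ℤ) (p : Fin (n + 1)) (D : ℕ) (A : GenAlg n) :
    ∀ (L : List (Fin (n + 1) → ℤ)) (B : ℕ × ℕ), L ⊆ gp x p D A L B := by
  induction A with
  | answer b => intro L B; simp [gp]
  | ask d c next ih =>
    intro L B
    rw [gp]
    split_ifs
    · exact List.Subset.trans (List.subset_append_left _ _) (ih _ _ _)
    · simp

theorem dp_gp (x : Fin (n + 1) → ℤ) (p : Fin (n + 1)) (D : ℕ) (A : GenAlg n) :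
    ∀ (L : List (Fin (n + 1) → ℤ)) (B : ℕ × ℕ), dp p L ≤ D → dp p (gp x p D A L B) ≤ D := by
  induction A with
  | answer b => intro L B h; simpa [gp] using h
  | ask d c next ih =>
    intro L B h
    rw [gp]
    split_ifs with h1
    · exact ih _ _ _ h1.2
    · exact h

theorem tt_gp (x : Fin (n + 1) → ℤ) (p : Fin (n + 1)) (D : ℕ) (A : GenAlg n) :
    ∀ (L : List (Fin (n + 1) → ℤ)) (B : ℕ × ℕ), tt (gp x p D A L B) ≤ tt L + B.2 := by
  induction A with
  | answer b => intro L B; simp [gp]
  | ask d c next ih =>
    intro L B
    rw [gp]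
    split_ifs with h
    · refine (ih _ _ _).trans ?_
      rw [tt_append]
      simp only
      omega
    · simp

theorem length_gp (x : Fin (n + 1) → ℤ) (p : Fin (n + 1)) (D : ℕ) (A : GenAlg n) :
    ∀ (L : List (Fin (n + 1) → ℤ)) (B : ℕ × ℕ), (gp x p D A L B).length ≤ L.length + B.1 := by
  induction A with
  | answer b => intro L B; simp [gp]
  | ask d c next ih =>
    intro L B
    rw [gp]
    split_ifs with h
    · refine (ih _ _ _).trans ?_
      rw [List.length_append, List.length_singleton]
      simp only
      omega
    · simp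

theorem gp_update (x : Fin (n + 1) → ℤ) (p : Fin (n + 1)) (a : ℤ) (D : ℕ) (A : GenAlg n) :
    ∀ (L : List (Fin (n + 1) → ℤ)) (B : ℕ × ℕ),
    gp (Function.update x p a) p D A L B = gp x p D A L B := by
  induction A with
  | answer b => intro L B; simp [gp]
  | ask d c next ih =>
    intro L B
    rw [gp, gp]
    split_ifs with h
    · set e : Fin (n + 1) → ℤ := Fin.cons d c with he
      have hresp : (fun j : ℕ => decide ((L.map fun v => (v p, comb v (Function.update x p a)))[j]? =
          some (e p, comb e (Function.update x p a)))) =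
          fun j : ℕ => decide ((L.map fun v => (v p, comb v x))[j]? = some (e p, comb e x)) := by
        funext j
        rw [List.getElem?_map, List.getElem?_map]
        cases hj : L[j]? with
        | none => simp
        | some v =>
          simp only [Option.map_some, Option.some.injEq, decide_eq_decide, Prod.mk.injEq]
          rw [comb_update, comb_update]
          constructor
          · rintro ⟨h1, h2⟩
            rw [h1] at h2
            exact ⟨h1, by linarith⟩
          · rintro ⟨h1, h2⟩
            refine ⟨h1, ?_⟩
            rw [h1, h2]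
      rw [hresp]
      exact ih _ _ _
    · rfl

/-- If no two forms of the run `gp` which differ in `p` have equal values, then the actual run
follows `gp`. -/
theorem gp_act {x : Fin (n + 1) → ℤ} {p : Fin (n + 1)} {D : ℕ} (A : GenAlg n) :
    ∀ (L : List (Fin (n + 1) → ℤ)) (B : ℕ × ℕ),
    (∀ u ∈ gp x p D A L B, ∀ v ∈ gp x p D A L B, u p ≠ v p → comb u x ≠ comb v x) →
    gp x p D A L B ⊆ (act x A L B).1 ∧
      (dp p (act x A L B).1 ≤ D → gp x p D A L B = (act x A L B).1) := by
  induction A with
  | answer b => intro L B _; simp [act, gp]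
  | ask d c next ih =>
    intro L B h
    by_cases hB : 1 ≤ B.1 ∧ terms c ≤ B.2
    · by_cases hD : dp p (L ++ [(Fin.cons d c : Fin (n + 1) → ℤ)]) ≤ D
      · rw [gp, if_pos ⟨hB, hD⟩] at h ⊢
        rw [act, if_pos hB]
        set e : Fin (n + 1) → ℤ := Fin.cons d c with he
        have hsub := gp_subset x p D (next fun j => decide ((L.map fun v => (v p, comb v x))[j]? =
          some (e p, comb e x))) (L ++ [e]) (B.1 - 1, B.2 - terms c)
        have hresp : (fun j : ℕ => decide ((L.map fun v => (v p, comb v x))[j]? =
            some (e p, comb e x))) =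
            fun j : ℕ => decide ((L.map fun v => comb v x)[j]? = some (comb e x)) := by
          funext j
          rw [List.getElem?_map, List.getElem?_map]
          cases hj : L[j]? with
          | none => simp
          | some v =>
            have hv : v ∈ L := List.mem_of_getElem? hj
            simp only [Option.map_some, Option.some.injEq, decide_eq_decide, Prod.mk.injEq]
            refine ⟨fun h1 => h1.2, fun h1 => ⟨?_, h1⟩⟩
            by_contra hne
            exact h v (hsub (by simp [hv])) e (hsub (by simp)) hne h1
        rw [hresp] at h ⊢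
        exact ih _ _ _ h
      · rw [gp, if_neg (fun h' => hD h'.2)]
        refine ⟨act_subset _ _ _ _, fun hd => ?_⟩
        exfalso
        apply hD
        refine le_trans (dp_mono ?_) hd
        rw [act, if_pos hB]
        exact act_subset _ _ _ _
    · rw [gp, if_neg (fun h' => hB h'.1), act, if_neg hB]
      simp

end Pool.Agent.ThreeSum.Trade
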