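import Pool.Agent.ThreeSum.TradeMain
import Pool.Agent.ThreeSum.GenericUpper

/-!
The matching upper bounds for the number of questions and the total number of terms.
-/

namespace Pool.Agent.ThreeSum.Trade

variable {n : ℕ}

theorem terms_le_two (i j : Fin n) :
    terms (Pi.single i 1 + Pi.single j 1 : Fin n → ℤ) ≤ 2 := by
  have h : (Finset.univ.filter fun k => (Pi.single i 1 + Pi.single j 1 : Fin n → ℤ) k ≠ 0) ⊆
      {i, j} := by
    intro k hk
    rw [Finset.mem_filter] at hk
    by_contra hcon
    simp only [Finset.mem_insert, Finset.mem_singleton, not_or] at hcon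
    exact hk.2 (by simp [hcon.1, hcon.2])
  exact (Finset.card_le_card h).trans Finset.card_le_two

theorem scan_run (x : Fin n → ℤ) (l : List (Fin n × Fin n)) : ∀ (b : Bool) (w : List ℤ),
    (run x (scan l b) (List.ofFn x ++ w)).2.1 = l.length ∧
    (run x (scan l b) (List.ofFn x ++ w)).2.2 ≤ 2 * l.length ∧
      ((run x (scan l b) (List.ofFn x ++ w)).1 = true ↔
        (b = true ∨ ∃ p ∈ l, p.1 ≠ p.2 ∧ ∃ k : Fin n, p.1 ≠ k ∧ p.2 ≠ k ∧
        x p.1 + x p.2 = x k)) := by
  classical
  induction l with
  | nil => intro b w; simp [scan, run]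
  | cons p l ih =>
    intro b w
    have hk : ∀ k : Fin n, (decide ((List.ofFn x ++ w)[(k : ℕ)]? =
        some (0 + comb (Pi.single p.1 1 + Pi.single p.2 1) x)) = true) ↔ x p.1 + x p.2 = x k := by
      intro k
      rw [List.getElem?_append_left (by simp), List.getElem?_ofFn, comb_add, comb_single,
        comb_single, zero_add]
      simp only [Fin.is_lt, dite_true, Fin.eta, Option.some.injEq, decide_eq_true_eq]
      exact eq_comm
    obtain ⟨h0, h1, h2⟩ := ih (b || decide (p.1 ≠ p.2 ∧ ∃ k : Fin n, p.1 ≠ k ∧ p.2 ≠ k ∧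
      (decide ((List.ofFn x ++ w)[(k : ℕ)]? =
        some (0 + comb (Pi.single p.1 1 + Pi.single p.2 1) x)) = true)))
      (w ++ [0 + comb (Pi.single p.1 1 + Pi.single p.2 1) x])
    rw [← List.append_assoc] at h0 h1 h2
    rw [scan]
    simp only [run]
    refine ⟨?_, ?_, ?_⟩
    · rw [h0, List.length_cons]
    · have := terms_le_two p.1 p.2
      rw [List.length_cons]
      omega
    · rw [h2]
      simp only [hk, Bool.or_eq_true, decide_eq_true_eq, List.mem_cons, exists_eq_or_imp, or_assoc]

/-- There is a deterministic generic algorithm with `n ^ 2` questions and `2 n ^ 2` terms. -/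
theorem exists_solver (n : ℕ) : ∃ A : GenAlg n, ∀ x : Fin n → ℤ,
    Correct A x ∧ questions A x ≤ n ^ 2 ∧ totalTerms A x ≤ 2 * n ^ 2 := by
  classical
  refine ⟨scan (Finset.univ : Finset (Fin n × Fin n)).toList false, fun x => ?_⟩
  obtain ⟨h0, h1, h2⟩ := scan_run x (Finset.univ : Finset (Fin n × Fin n)).toList false []
  rw [List.append_nil] at h0 h1 h2
  have hl : (Finset.univ : Finset (Fin n × Fin n)).toList.length = n ^ 2 := by
    rw [Finset.length_toList, Finset.card_univ, Fintype.card_prod, Fintype.card_fin, sq]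
  rw [hl] at h0 h1
  refine ⟨?_, h0.le, h1⟩
  rw [Correct, answer, h2]
  simp only [Bool.false_eq_true, false_or, Finset.mem_toList, Finset.mem_univ, true_and]
  constructor
  · rintro ⟨p, h3, k, h4, h5, h6⟩
    exact ⟨p.1, p.2, k, h3, h4, h5, h6⟩
  · rintro ⟨i, j, k, h3, h4, h5, h6⟩
    exact ⟨(i, j), h3, k, h4, h5, h6⟩

/-! ### Reading the input by baby steps and giant steps -/

/-- Ask all the questions of a list, and compute the answer from the responses. -/
def askAll : List (ℤ × (Fin n → ℤ)) → (List (ℕ → Bool) → Bool) → GenAlg n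
  | [], f => GenAlg.answer (f [])
  | q :: l, f => GenAlg.ask q.1 q.2 fun r => askAll l fun rs => f (r :: rs)

/-- The value of a question. -/
def val (x : Fin n → ℤ) (q : ℤ × (Fin n → ℤ)) : ℤ := q.1 + comb q.2 x

/-- The list of responses. -/
def resp (x : Fin n → ℤ) : List ℤ → List (ℤ × (Fin n → ℤ)) → List (ℕ → Bool)
  | _, [] => []
  | vals, q :: l => (fun j => decide (vals[j]? = some (val x q))) :: resp x (vals ++ [val x q]) l

theorem askAll_run (x : Fin n → ℤ) (l : List (ℤ × (Fin n → ℤ))) :
    ∀ (f : List (ℕ → Bool) → Bool) (vals : List ℤ),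
    run x (askAll l f) vals = (f (resp x vals l), l.length, (l.map fun q => terms q.2).sum) := by
  induction l with
  | nil => intro f vals; rfl
  | cons q l ih =>
    intro f vals
    rw [askAll, resp, List.map_cons, List.sum_cons]
    simp only [run, ih, List.length_cons, val, Prod.mk.injEq, true_and]
    exact ⟨rfl, Nat.add_comm _ _⟩

theorem resp_get (x : Fin n → ℤ) (pre : List (ℤ × (Fin n → ℤ))) : ∀ (vals : List ℤ)
    (q : ℤ × (Fin n → ℤ)) (post : List (ℤ × (Fin n → ℤ))),
    (resp x vals (pre ++ q :: post))[pre.length]? =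
      some fun j => decide ((vals ++ pre.map (val x))[j]? = some (val x q)) := by
  induction pre with
  | nil => intro vals q post; simp [resp]
  | cons p pre ih =>
    intro vals q post
    rw [List.cons_append, resp, List.length_cons, List.getElem?_cons_succ, ih, List.map_cons,
      List.append_assoc, List.singleton_append]

/-- The questions of the reading algorithm: giant steps and baby steps. -/
def readList (n R g J : ℕ) : List (ℤ × (Fin n → ℤ)) :=
  ((List.range J).map fun j : ℕ => (-(R : ℤ) + j * g, 0)) ++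
    ((List.finRange n ×ˢ List.range g).map fun q : Fin n × ℕ => ((q.2 : ℤ), Pi.single q.1 1))

theorem terms_zero : terms (0 : Fin n → ℤ) = 0 := by simp [terms]

theorem terms_single (i : Fin n) : terms (Pi.single i 1 : Fin n → ℤ) = 1 := by
  have h : (Finset.univ.filter fun j => (Pi.single i 1 : Fin n → ℤ) j ≠ 0) = {i} := by
    ext j
    rw [Finset.mem_filter, Finset.mem_singleton]
    constructor
    · intro hj
      by_contra hne
      exact hj.2 (by simp [hne])
    · rintro rfl
      exact ⟨Finset.mem_univ _, by simp⟩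
  rw [terms, h, Finset.card_singleton]

theorem readList_length (n R g J : ℕ) : (readList n R g J).length = J + n * g := by
  rw [readList, List.length_append, List.length_map, List.length_map, List.length_range,
    List.length_product, List.length_finRange, List.length_range]

theorem readList_terms (n R g J : ℕ) :
    ((readList n R g J).map fun q => terms q.2).sum = n * g := by
  rw [readList, List.map_append, List.sum_append, List.map_map, List.map_map]
  have h1 : ((fun q : ℤ × (Fin n → ℤ) => terms q.2) ∘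
      fun j : ℕ => (-(R : ℤ) + j * g, (0 : Fin n → ℤ))) = fun _ => 0 := by
    funext j; exact terms_zero
  have h2 : ((fun q : ℤ × (Fin n → ℤ) => terms q.2) ∘
      fun q : Fin n × ℕ => ((q.2 : ℤ), (Pi.single q.1 1 : Fin n → ℤ))) = fun _ => 1 := by
    funext j; exact terms_single _
  rw [h1, h2, List.map_const', List.map_const', List.sum_replicate, List.sum_replicate,
    List.length_product, List.length_finRange, List.length_range]
  simp

theorem read_unique {R g J : ℕ} (hcov : ∀ z : ℤ, |z| ≤ R → ∃ j < J, ∃ k < g,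
    z + (k : ℤ) = -(R : ℤ) + j * g) {x x' : Fin n → ℤ} (hx : ∀ i, |x i| ≤ R)
    (h : resp x (List.ofFn x) (readList n R g J) = resp x' (List.ofFn x') (readList n R g J)) :
    x = x' := by
  funext i
  obtain ⟨j, hj, k, hk, hjk⟩ := hcov (x i) (hx i)
  have hmem : ((i, k) : Fin n × ℕ) ∈ List.finRange n ×ˢ List.range g := by
    rw [List.mem_product]
    exact ⟨List.mem_finRange i, List.mem_range.2 hk⟩
  obtain ⟨a, b, hab⟩ := List.append_of_mem hmem
  set pre : List (ℤ × (Fin n → ℤ)) := ((List.range J).map fun j : ℕ => (-(R : ℤ) + j * g, 0)) ++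
    (a.map fun q : Fin n × ℕ => ((q.2 : ℤ), Pi.single q.1 1)) with hpre
  have hl : readList n R g J = pre ++ ((k : ℤ), Pi.single i 1) ::
      (b.map fun q : Fin n × ℕ => ((q.2 : ℤ), (Pi.single q.1 1 : Fin n → ℤ))) := by
    rw [readList, hab, hpre, List.map_append, List.map_cons, List.append_assoc]
  rw [hl] at h
  have h1 := resp_get x pre (List.ofFn x) ((k : ℤ), Pi.single i 1)
    (b.map fun q : Fin n × ℕ => ((q.2 : ℤ), (Pi.single q.1 1 : Fin n → ℤ)))
  have h2 := resp_get x' pre (List.ofFn x') ((k : ℤ), Pi.single i 1)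
    (b.map fun q : Fin n × ℕ => ((q.2 : ℤ), (Pi.single q.1 1 : Fin n → ℤ)))
  rw [h, h2] at h1
  simp only [Option.some.injEq] at h1
  have h3 := congrFun h1 (n + j)
  have hval : ∀ z : Fin n → ℤ, (List.ofFn z ++ pre.map (val z))[n + j]? =
      some (-(R : ℤ) + j * g) := by
    intro z
    rw [List.getElem?_append_right (by simp), List.length_ofFn, Nat.add_sub_cancel_left,
      hpre, List.map_append, List.getElem?_append_left (by simpa using hj), List.getElem?_map,
      List.getElem?_map, List.getElem?_range hj]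
    simp [val, comb]
  have hv : ∀ z : Fin n → ℤ, val z ((k : ℤ), Pi.single i 1) = z i + k := by
    intro z
    simp only [val, comb_single]
    ring
  rw [hval, hval, hv, hv] at h3
  simp only [Option.some.injEq, decide_eq_decide] at h3
  have h4 := h3.2 hjk.symm
  linarith

open Classical in
theorem exists_reader {R g J : ℕ} (hcov : ∀ z : ℤ, |z| ≤ R → ∃ j < J, ∃ k < g,
    z + (k : ℤ) = -(R : ℤ) + j * g) : ∃ A : GenAlg n, ∀ x : Fin n → ℤ, (∀ i, |x i| ≤ R) →
      Correct A x ∧ questions A x = J + n * g ∧ totalTerms A x = n * g := by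
  refine ⟨askAll (readList n R g J) fun rs => decide (∃ x : Fin n → ℤ, (∀ i, |x i| ≤ R) ∧
    resp x (List.ofFn x) (readList n R g J) = rs ∧ HasThreeSum x), fun x hx => ?_⟩
  rw [Correct, answer, questions, totalTerms, askAll_run, readList_length, readList_terms]
  refine ⟨?_, rfl, rfl⟩
  rw [decide_eq_true_iff]
  constructor
  · rintro ⟨x', hx', h, hs⟩
    rw [read_unique hcov hx h.symm]
    exact hs
  · intro hs
    exact ⟨x, hx, rfl, hs⟩

theorem cover {R g : ℕ} (hg : 0 < g) (z : ℤ) (hz : |z| ≤ R) :
    ∃ j < 2 * R / g + 2, ∃ k < g, z + (k : ℤ) = -(R : ℤ) + j * g := by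
  have h1 := abs_le.1 hz
  obtain ⟨m, hm⟩ : ∃ m : ℕ, (m : ℤ) = z + R := ⟨(z + R).toNat, by
    rw [Int.toNat_of_nonneg]; linarith⟩
  have hm2 : m ≤ 2 * R := by
    have : (m : ℤ) ≤ 2 * R := by linarith
    exact_mod_cast this
  have h2 := Nat.div_add_mod (m + g - 1) g
  have h3 := Nat.mod_lt (m + g - 1) hg
  set j := (m + g - 1) / g with hj
  have h4 : m ≤ g * j := by omega
  have h5 : g * j < m + g := by omega
  refine ⟨j, ?_, g * j - m, by omega, ?_⟩
  · have h6 : j ≤ (2 * R + g) / g := Nat.div_le_div_right (by omega)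
    rw [Nat.add_div_right _ hg] at h6
    omega
  · rw [Nat.cast_sub h4]
    push_cast
    linarith [mul_comm (g : ℤ) j]

/-- **Upper bound.** -/
theorem upper_bound {n R T L : ℕ} (hn : 4 ≤ n) (hnL : 2 * n ≤ L) (hLT : L ≤ T)
    (h : 2 * n ^ 2 ≤ L ∨ 32 * (n * R) ≤ T * L) : ∃ A : GenAlg n, ∀ x : Fin n → ℤ,
    (∀ i, |x i| ≤ R) → Correct A x ∧ questions A x ≤ T ∧ totalTerms A x ≤ L := by
  rcases h with h | h
  · obtain ⟨A, hA⟩ := exists_solver n
    exact ⟨A, fun x _ => ⟨(hA x).1, (hA x).2.1.trans (by omega), (hA x).2.2.trans h⟩⟩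
  · set g := L / (2 * n) with hg
    have hg0 : 0 < g := Nat.div_pos hnL (by omega)
    obtain ⟨A, hA⟩ := exists_reader (n := n) (R := R) (g := g) (cover hg0)
    refine ⟨A, fun x hx => ?_⟩
    obtain ⟨hc, hq, ht⟩ := hA x hx
    have h1 : 2 * n * g ≤ L := Nat.mul_div_le _ _
    have h2 : L < 2 * n * (g + 1) := Nat.lt_mul_div_succ L (by omega)
    have h3 : L ≤ 4 * (n * g) := by
      have : n ≤ n * g := Nat.le_mul_of_pos_right _ hg0
      have e : 2 * n * (g + 1) = 2 * (n * g) + 2 * n := by ring
      omega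
    have h4 : 8 * R ≤ T * g := by
      have h5 : n * (8 * R) * 4 ≤ n * (T * g) * 4 := by
        calc n * (8 * R) * 4 = 32 * (n * R) := by ring
          _ ≤ T * L := h
          _ ≤ T * (4 * (n * g)) := Nat.mul_le_mul_left _ h3
          _ = n * (T * g) * 4 := by ring
      exact Nat.le_of_mul_le_mul_left (Nat.le_of_mul_le_mul_right h5 (by omega)) (by omega)
    have h5 : 4 * (2 * R / g) ≤ T := by
      have h6 : 4 * (2 * R / g) ≤ 8 * R / g := by
        have : 4 * (2 * R / g) ≤ (4 * (2 * R)) / g := Nat.mul_div_le_mul_div_assoc _ _ _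
        have e : 4 * (2 * R) = 8 * R := by ring
        rw [e] at this
        exact this
      have h7 : 8 * R / g ≤ T := by
        rw [Nat.div_le_iff_le_mul_add_pred hg0]
        have : T * g = g * T := mul_comm _ _
        omega
      exact h6.trans h7
    have h6 : 2 * (n * g) ≤ L := by
      have e : 2 * n * g = 2 * (n * g) := by ring
      omega
    exact ⟨hc, by omega, by omega⟩

end Pool.Agent.ThreeSum.Trade
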